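import Pool.Agent.Q110.RK.Stm

/-!
# Project RK (helper110), job RNK: ranks of form matrices and cliques
-/

set_option autoImplicit false

namespace Pool.Agent.Q121.RK

open Pool.Agent.Q110.RK Finset

theorem rank_le : S_rank := by
  intro V _ _ m φ
  let A : Matrix V (Fin m ⊕ Fin m) (ZMod 2) :=
    Matrix.of fun x j => Sum.elim (fun i => (φ x i).1) (fun i => (φ x i).2) j
  let B : Matrix (Fin m ⊕ Fin m) V (ZMod 2) :=
    Matrix.of fun j y => Sum.elim (fun i => (φ y i).2) (fun i => (φ y i).1) j
  have h : (Matrix.of fun x y => om (φ x) (φ y) : Matrix V V (ZMod 2)) = A * B := by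
    ext x y
    rw [Matrix.mul_apply, Fintype.sum_sum_type]
    simp [A, B, om, Finset.sum_add_distrib]
  rw [h]
  refine (Matrix.rank_mul_le_left A B).trans ((Matrix.rank_le_card_width A).trans ?_)
  rw [Fintype.card_sum, Fintype.card_fin]
  omega

theorem rank_add_le {V : Type} [Fintype V] [DecidableEq V] (A B : Matrix V V (ZMod 2)) :
    (A + B).rank ≤ A.rank + B.rank := by
  unfold Matrix.rank
  have h : LinearMap.range (A + B).mulVecLin ≤
      LinearMap.range A.mulVecLin ⊔ LinearMap.range B.mulVecLin := by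
    rintro _ ⟨x, rfl⟩
    have h1 : (A + B).mulVecLin x = A.mulVecLin x + B.mulVecLin x := by
      simp
    rw [h1]
    exact Submodule.add_mem_sup ⟨x, rfl⟩ ⟨x, rfl⟩
  exact (Submodule.finrank_mono h).trans (Submodule.finrank_add_le_finrank_add_finrank _ _)

theorem clique_le : S_clique := by
  classical
  intro m S hS
  have h1 := rank_le {v // v ∈ S} m (fun v => v.1)
  have h2 : (1 : Matrix {v // v ∈ S} {v // v ∈ S} (ZMod 2)) =
      Matrix.vecMulVec (fun _ => 1) (fun _ => 1) +
        (Matrix.of fun x y => om x.1 y.1 : Matrix {v // v ∈ S} {v // v ∈ S} (ZMod 2)) := by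
    ext x y
    rw [Matrix.add_apply, Matrix.vecMulVec_apply, Matrix.of_apply, Matrix.one_apply]
    by_cases hxy : x = y
    · subst hxy
      rw [if_pos rfl, om_self]
      decide
    · rw [if_neg hxy, hS x.1 x.2 y.1 y.2 fun h => hxy (Subtype.ext h)]
      decide
  have h3 := Matrix.rank_one (R := ZMod 2) (n := {v // v ∈ S})
  rw [h2, Fintype.card_coe] at h3
  have h4 := rank_add_le (Matrix.vecMulVec (fun _ => 1) (fun _ => 1) :
    Matrix {v // v ∈ S} {v // v ∈ S} (ZMod 2)) (Matrix.of fun x y => om x.1 y.1)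
  have h5 := Matrix.rank_vecMulVec_le (fun _ => 1 : {v // v ∈ S} → ZMod 2) (fun _ => 1 : {v // v ∈ S} → ZMod 2)
  omega

end Pool.Agent.Q121.RK
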