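import Pool.Agent.Q201.AR.Stm3

set_option autoImplicit false

/-!
Project AR, part 3, JOB KL: the arithmetical König lemma (leftmost path).
-/

open FirstOrder FirstOrder.Language Pool.Agent.Helper227.EN
open Q201.AR Pool.Agent.Helper578.JD Pool.Agent.Helper578.JD.Oracle

namespace Pool.Agent.Q121.AR_KL

/-- the string `σ` contains a forbidden assignment -/
def Bad (F : List (ℕ × Bool) → Prop) (σ : List Bool) : Prop :=
  ∃ K, F K ∧ ∀ q ∈ K, σ[q.1]? = some q.2

/-- the string `σ` has extensions of every length which are not bad -/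
def Ext (F : List (ℕ × Bool) → Prop) (σ : List Bool) : Prop :=
  ∀ N : ℕ, ∃ ρ : List Bool, ρ.length = N ∧ ¬ Bad F (σ ++ ρ)

/-- the string `σ` is on the leftmost path -/
def G (F : List (ℕ × Bool) → Prop) (σ : List Bool) : Prop :=
  ∀ α b β, σ = α ++ b :: β → (b = false ↔ Ext F (α ++ [false]))

section closure

theorem a_congr {α : Type} [Primcodable α] {P Q : α → Prop} (h : ∀ a, P a ↔ Q a) (hP : Arith P) :
    Arith Q := by
  have : P = Q := funext fun a => propext (h a)
  rwa [← this]

variable (H : S_ARCL)
include H

theorem a_sub {α β : Type} [Primcodable α] [Primcodable β] {P : β → Prop} {f : α → β}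
    (hf : Computable f) (h : Arith P) : Arith fun a => P (f a) := H.1 α β P f hf h

theorem a_prim {α : Type} [Primcodable α] {P : α → Prop} (h : PrimrecPred P) : Arith P := by
  obtain ⟨i, h⟩ := h
  exact H.2.1 α P ⟨i, h.to_comp⟩

theorem a_not {α : Type} [Primcodable α] {P : α → Prop} (h : Arith P) : Arith fun a => ¬ P a :=
  H.2.2.1 α P h

theorem a_and {α : Type} [Primcodable α] {P Q : α → Prop} (h : Arith P) (h' : Arith Q) :
    Arith fun a => P a ∧ Q a := H.2.2.2.1 α P Q h h'

theorem a_ex {α β : Type} [Primcodable α] [Primcodable β] {P : α × β → Prop} (h : Arith P) :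
    Arith fun a => ∃ b, P (a, b) := H.2.2.2.2 α β P h

theorem a_all {α β : Type} [Primcodable α] [Primcodable β] {P : α × β → Prop} (h : Arith P) :
    Arith fun a => ∀ b, P (a, b) := by
  refine a_congr (fun a => ?_) (a_not H (a_ex H (a_not H h)))
  exact not_exists_not

theorem a_imp {α : Type} [Primcodable α] {P Q : α → Prop} (h : Arith P) (h' : Arith Q) :
    Arith fun a => P a → Q a := by
  refine a_congr (fun a => ?_) (a_not H (a_and H h (a_not H h')))
  tauto

theorem a_iff {α : Type} [Primcodable α] {P Q : α → Prop} (h : Arith P) (h' : Arith Q) :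
    Arith fun a => (P a ↔ Q a) := by
  refine a_congr (fun a => ?_) (a_and H (a_imp H h h') (a_imp H h' h))
  tauto

theorem a_bad {F : List (ℕ × Bool) → Prop} (hF : Arith F) : Arith (Bad F) := by
  have h1 : Arith fun p : List Bool × List (ℕ × Bool) => F p.2 := a_sub H Computable.snd hF
  have h2 : Arith fun p : List Bool × List (ℕ × Bool) => ∀ q ∈ p.2, p.1[q.1]? = some q.2 :=
    a_prim H (by
      have : PrimrecRel fun (q : ℕ × Bool) (σ : List Bool) => σ[q.1]? = some q.2 :=
        Primrec.eq.comp (Primrec.list_getElem?.comp Primrec.snd (Primrec.fst.comp Primrec.fst))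
          (Primrec.option_some.comp (Primrec.snd.comp Primrec.fst))
      exact this.forall_mem_list.comp Primrec.snd Primrec.fst)
  exact a_ex H (a_and H h1 h2)

theorem a_ext {F : List (ℕ × Bool) → Prop} (hF : Arith F) : Arith (Ext F) := by
  have h1 : Arith fun p : (List Bool × ℕ) × List Bool => p.2.length = p.1.2 :=
    a_prim H (Primrec.eq.comp (Primrec.list_length.comp Primrec.snd)
      (Primrec.snd.comp Primrec.fst))
  have h2 : Arith fun p : (List Bool × ℕ) × List Bool => ¬ Bad F (p.1.1 ++ p.2) :=
    a_not H (a_sub H (P := Bad F) (f := fun p : (List Bool × ℕ) × List Bool => p.1.1 ++ p.2)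
      (Primrec.list_append.comp (Primrec.fst.comp Primrec.fst) Primrec.snd).to_comp (a_bad H hF))
  exact a_all H (a_ex H (a_and H h1 h2))

theorem a_G {F : List (ℕ × Bool) → Prop} (hF : Arith F) : Arith (G F) := by
  have h1 : Arith fun p : List Bool × (List Bool × Bool × List Bool) =>
      p.1 = p.2.1 ++ p.2.2.1 :: p.2.2.2 :=
    a_prim H (Primrec.eq.comp Primrec.fst (Primrec.list_append.comp
      (Primrec.fst.comp Primrec.snd) (Primrec.list_cons.comp
        (Primrec.fst.comp (Primrec.snd.comp Primrec.snd))
        (Primrec.snd.comp (Primrec.snd.comp Primrec.snd)))))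
  have h2 : Arith fun p : List Bool × (List Bool × Bool × List Bool) => p.2.2.1 = false :=
    a_prim H (Primrec.eq.comp (Primrec.fst.comp (Primrec.snd.comp Primrec.snd))
      (Primrec.const false))
  have h3 : Arith fun p : List Bool × (List Bool × Bool × List Bool) =>
      Ext F (p.2.1 ++ [false]) :=
    a_sub H (P := Ext F)
      (f := fun p : List Bool × (List Bool × Bool × List Bool) => p.2.1 ++ [false])
      (Primrec.list_append.comp (Primrec.fst.comp Primrec.snd) (Primrec.const [false])).to_comp
      (a_ext H hF)
  exact a_congr (fun σ => ⟨fun h α b β e => h (α, b, β) e, fun h p e => h _ _ _ e⟩)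
    (a_all H (a_imp H h1 (a_iff H h2 h3)))

end closure

variable {F : List (ℕ × Bool) → Prop}

theorem bad_append {σ : List Bool} (τ : List Bool) (h : Bad F σ) : Bad F (σ ++ τ) := by
  obtain ⟨K, hK, h⟩ := h
  refine ⟨K, hK, fun q hq => ?_⟩
  have h1 := h q hq
  have h2 : q.1 < σ.length := by
    by_contra hc
    rw [List.getElem?_eq_none (by omega)] at h1
    cases h1
  rw [List.getElem?_append_left h2, h1]

theorem ext_step {σ : List Bool} (h : Ext F σ) (h0 : ¬ Ext F (σ ++ [false])) :
    Ext F (σ ++ [true]) := by
  by_contra h1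
  unfold Ext at h0 h1
  push Not at h0 h1
  obtain ⟨N₀, h0⟩ := h0
  obtain ⟨N₁, h1⟩ := h1
  obtain ⟨ρ, hl, hb⟩ := h (max N₀ N₁ + 1)
  cases ρ with
  | nil => simp at hl
  | cons b ρ =>
    have hl' : ρ.length = max N₀ N₁ := by simpa using hl
    apply hb
    cases b with
    | false =>
      have := bad_append (ρ.drop N₀) (h0 (ρ.take N₀) (by rw [List.length_take]; omega))
      rw [List.append_assoc, List.take_append_drop, List.append_assoc] at this
      exact this
    | true =>
      have := bad_append (ρ.drop N₁) (h1 (ρ.take N₁) (by rw [List.length_take]; omega))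
      rw [List.append_assoc, List.take_append_drop, List.append_assoc] at this
      exact this

theorem ext_nil {D₀ : ℕ → Bool} (h : Avoids F D₀) : Ext F [] := by
  intro N
  refine ⟨(List.range N).map D₀, by simp, ?_⟩
  rintro ⟨K, hK, hb⟩
  obtain ⟨q, hq, hne⟩ := h K hK
  have h1 := hb q hq
  apply hne
  rw [List.nil_append, List.getElem?_map] at h1
  by_cases hlt : q.1 < N
  · rw [List.getElem?_range hlt] at h1
    simpa using h1
  · rw [List.getElem?_eq_none (by simpa using hlt)] at h1
    cases h1

open Classical in
/-- the initial segments of the leftmost path -/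
noncomputable def s (F : List (ℕ × Bool) → Prop) : ℕ → List Bool
  | 0 => []
  | n + 1 => s F n ++ [if Ext F (s F n ++ [false]) then false else true]

open Classical in
/-- the leftmost path -/
noncomputable def D (F : List (ℕ × Bool) → Prop) (n : ℕ) : Bool :=
  if Ext F (s F n ++ [false]) then false else true

theorem s_succ (n : ℕ) : s F (n + 1) = s F n ++ [D F n] := rfl

theorem D_false (n : ℕ) : D F n = false ↔ Ext F (s F n ++ [false]) := by
  unfold D
  split_ifs with h <;> simp [h]

theorem s_len (n : ℕ) : (s F n).length = n := by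
  induction n with
  | zero => rfl
  | succ n ih => rw [s_succ, List.length_append, ih]; rfl

theorem s_get {i n : ℕ} (h : i < n) : (s F n)[i]? = some (D F i) := by
  induction n with
  | zero => omega
  | succ n ih =>
    rw [s_succ]
    by_cases hi : i < n
    · rw [List.getElem?_append_left (by rw [s_len]; exact hi)]
      exact ih hi
    · have : i = n := by omega
      subst this
      rw [List.getElem?_append_right (by rw [s_len]), s_len, Nat.sub_self]
      rfl

theorem s_ext {D₀ : ℕ → Bool} (h : Avoids F D₀) (n : ℕ) : Ext F (s F n) := by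
  induction n with
  | zero => exact ext_nil h
  | succ n ih =>
    rw [s_succ]
    by_cases h0 : Ext F (s F n ++ [false])
    · rw [(D_false n).2 h0]
      exact h0
    · have : D F n = true := by
        cases hd : D F n with
        | true => rfl
        | false => exact absurd ((D_false n).1 hd) h0
      rw [this]
      exact ext_step ih h0

theorem G_append (σ : List Bool) (b : Bool) :
    G F (σ ++ [b]) ↔ G F σ ∧ (b = false ↔ Ext F (σ ++ [false])) := by
  constructor
  · intro h
    exact ⟨fun α c β e => h α c (β ++ [b]) (by rw [e]; simp), h σ b [] rfl⟩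
  · rintro ⟨h1, h2⟩ α c β e
    rcases List.eq_nil_or_concat β with rfl | ⟨β', d, rfl⟩
    · obtain ⟨rfl, h⟩ := List.append_inj' e rfl
      simp only [List.cons.injEq, and_true] at h
      subst h
      exact h2
    · have e' : σ ++ [b] = (α ++ c :: β') ++ [d] := by rw [e]; simp
      exact h1 α c β' (List.append_inj' e' rfl).1

theorem G_iff (σ : List Bool) : G F σ ↔ σ = s F σ.length := by
  induction σ using List.reverseRecOn with
  | nil => exact ⟨fun _ => rfl, fun _ α b β e => by simp at e⟩
  | append_singleton σ b ih =>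
    rw [G_append, ih, List.length_append, List.length_singleton, s_succ]
    constructor
    · rintro ⟨h1, h2⟩
      have h3 : b = D F σ.length := by
        have := D_false (F := F) σ.length
        rw [← h1] at this
        have h4 : b = false ↔ D F σ.length = false := h2.trans this.symm
        revert h4
        cases b <;> cases D F σ.length <;> simp
      rw [← h1, ← h3]
    · intro h
      obtain ⟨h1, h3⟩ := List.append_inj' h rfl
      simp only [List.cons.injEq, and_true] at h3
      refine ⟨h1, ?_⟩
      rw [h3, D_false, ← h1]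

theorem D_iff (n : ℕ) : D F n = true ↔
    ∃ σ : List Bool, (σ.length = n + 1 ∧ σ[n]? = some true) ∧ G F σ := by
  constructor
  · intro h
    refine ⟨s F (n + 1), ⟨s_len _, ?_⟩, (G_iff _).2 (by rw [s_len])⟩
    rw [s_get (Nat.lt_succ_self n), h]
  · rintro ⟨σ, ⟨h1, h2⟩, h3⟩
    rw [G_iff, h1] at h3
    rw [h3, s_get (Nat.lt_succ_self n)] at h2
    exact Option.some.inj h2

theorem t_KL : S_KL := by
  rintro H F hF ⟨D₀, hD⟩
  refine ⟨D F, ?_, ?_⟩
  · intro K hK
    by_contra hc
    push Not at hc
    obtain ⟨n, hn⟩ : ∃ n, ∀ q ∈ K, q.1 < n := by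
      refine ⟨(K.map Prod.fst).sum + 1, fun q hq => ?_⟩
      have := List.single_le_sum (l := K.map Prod.fst) (fun _ _ => Nat.zero_le _) q.1
        (List.mem_map_of_mem hq)
      omega
    obtain ⟨ρ, hl, hb⟩ := s_ext hD n 0
    rw [List.length_eq_zero_iff] at hl
    subst hl
    rw [List.append_nil] at hb
    exact hb ⟨K, hK, fun q hq => by rw [s_get (hn q hq), hc q hq]⟩
  · refine a_congr (fun n => (D_iff n).symm) ?_
    refine a_ex H (P := fun p : ℕ × List Bool =>
      (p.2.length = p.1 + 1 ∧ p.2[p.1]? = some true) ∧ G F p.2) ?_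
    refine a_and H (a_prim H ?_) (a_sub H Computable.snd (a_G H hF))
    refine PrimrecPred.and (Primrec.eq.comp (Primrec.list_length.comp Primrec.snd)
      (Primrec.succ.comp Primrec.fst)) ?_
    exact Primrec.eq.comp (Primrec.list_getElem?.comp Primrec.snd Primrec.fst)
      (Primrec.const (some true))

end Pool.Agent.Q121.AR_KL
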