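import Pool.Agent.Q61.BS.Stm

/-!
# Project BS (helper61), job PTH: the path of parameters
-/

set_option autoImplicit false

open MeasureTheory Set Filter Topology Real

namespace Pool.Agent.Q121.BS

open Pool.Agent.Q61.BS

theorem be2_an (c m₀ : ℝ) (hm : m₀ ≠ 0) : AnalyticAt ℝ (fun m : ℝ => exp (-(c * be2 m))) m₀ := by
  unfold be2
  refine AnalyticAt.rexp (AnalyticAt.neg (analyticAt_const.mul ?_))
  exact analyticAt_const.div analyticAt_id hm

theorem par_an (κ m₀ : ℝ) (hm : 0 < m₀) :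
    AnalyticAt ℝ (fun m : ℝ => par ((1 + κ) * be2 m) (be2 m)) m₀ := by
  refine analyticAt_pi_iff.2 fun i => analyticAt_pi_iff.2 fun a => ?_
  unfold par
  by_cases hi : i = 0
  · simp only [hi, if_true]
    exact analyticAt_const
  · simp only [hi, if_false]
    refine AnalyticAt.prod ?_ analyticAt_const
    unfold bb
    by_cases ha : a = 0
    · simp only [ha, if_true]
      exact be2_an (1 + κ) m₀ hm.ne'
    · simp only [ha, if_false]
      have h := be2_an 1 m₀ hm.ne'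
      simpa only [one_mul] using h

theorem par_mem (β₁ β₂ : ℝ) (h1 : log 5 < β₁) (h2 : log 5 < β₂) : par β₁ β₂ ∈ SBar 2 (fun _ => Fin 4) := by
  have h5 : exp (-(log 5)) = 1 / 5 := by
    rw [exp_neg, exp_log (by norm_num)]
    norm_num
  have hb : ∀ j, 0 < bb β₁ β₂ j ∧ bb β₁ β₂ j ≤ 1 / 5 := by
    intro j
    unfold bb
    split_ifs
    · exact ⟨exp_pos _, by rw [← h5]; exact exp_le_exp.2 (by linarith)⟩
    · exact ⟨exp_pos _, by rw [← h5]; exact exp_le_exp.2 (by linarith)⟩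
  have key : ∀ (i : Fin 2) (a : Fin 4), 0 < (par β₁ β₂ i a).1 ∧ (par β₁ β₂ i a).1 ≤ 1 / 5 ∧
      (par β₁ β₂ i a).2 = ((a : ℕ) : ℝ) / 4 := by
    intro i a
    unfold par
    split_ifs
    · exact ⟨by norm_num, le_rfl, rfl⟩
    · exact ⟨(hb a).1, (hb a).2, rfl⟩
  have him : ∀ (i : Fin 2) (a : Fin 4), phi (par β₁ β₂) i a '' Icc (0 : ℝ) 1 ⊆
      Icc (((a : ℕ) : ℝ) / 4) (((a : ℕ) : ℝ) / 4 + 1 / 5) := by
    rintro i a _ ⟨x, hx, rfl⟩
    obtain ⟨k1, k2, k3⟩ := key i a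
    unfold phi
    rw [k3]
    constructor
    · have := mul_nonneg k1.le hx.1
      linarith
    · have : (par β₁ β₂ i a).1 * x ≤ 1 / 5 * 1 := mul_le_mul k2 hx.2 hx.1 (by norm_num)
      linarith
  refine ⟨fun i a => ?_, fun i a b hab => ?_⟩
  · obtain ⟨k1, k2, k3⟩ := key i a
    refine ⟨abs_pos.2 k1.ne', by rw [abs_of_pos k1]; linarith, (him i a).trans ?_⟩
    have ha : ((a : ℕ) : ℝ) ≤ 3 := by
      have := a.isLt
      exact_mod_cast (by omega : (a : ℕ) ≤ 3)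
    have ha0 : (0 : ℝ) ≤ ((a : ℕ) : ℝ) := Nat.cast_nonneg _
    exact Icc_subset_Icc (by linarith) (by linarith)
  · refine Disjoint.mono (him i a) (him i b) ?_
    rw [Set.disjoint_left]
    intro x hx hx'
    have hne : (a : ℕ) ≠ (b : ℕ) := fun h => hab (Fin.ext h)
    rcases lt_or_gt_of_ne hne with h | h
    · have h3 : ((a : ℕ) : ℝ) + 1 ≤ ((b : ℕ) : ℝ) := by exact_mod_cast h
      linarith [hx.2, hx'.1]
    · have h3 : ((b : ℕ) : ℝ) + 1 ≤ ((a : ℕ) : ℝ) := by exact_mod_cast h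
      linarith [hx'.2, hx.1]

theorem pth (h : S_phi) : S_pth := by
  refine ⟨fun κ m₀ _ hm => par_an κ m₀ hm, fun κ m hκ hm hm3 => ?_, ?_⟩
  · obtain ⟨h1, h2, -⟩ := h κ m hκ hm hm3
    exact par_mem _ _ h1 h2
  · rintro l ⟨h1, h2⟩
    exact ⟨h1, fun i a b hab => (h2 i a b hab).mono (image_mono Ioo_subset_Icc_self)
      (image_mono Ioo_subset_Icc_self)⟩

end Pool.Agent.Q121.BS
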