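import Pool.Agent.Q61.BS.Stm

/-!
# Project BS (helper61), job PWA: pieces and curves
-/

set_option autoImplicit false

open MeasureTheory Set Filter Topology Real

namespace Pool.Agent.Q121.BS

open Pool.Agent.Q61.BS

theorem pwa : S_pwa := by
  refine ⟨?_, ?_⟩
  · intro V _ _ F S c m₀ hP hc hS hev
    obtain ⟨ι, P, hlf, hcov, hcl, -, han⟩ := hP
    obtain ⟨t, ht, hfin⟩ := hlf ⟨c m₀, hS⟩
    obtain ⟨u, hu, hut⟩ := mem_nhds_subtype _ _ _ |>.1 ht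
    have hcc : ContinuousAt c m₀ := hc.continuousAt
    have hcw : Tendsto c (𝓝[>] m₀) (𝓝 (c m₀)) := hcc.mono_left nhdsWithin_le_nhds
    have h1 : ∀ᶠ m in 𝓝[>] m₀, ∃ i ∈ {i | (P i ∩ t).Nonempty}, c m ∈ ((↑) '' (P i) : Set V) := by
      filter_upwards [hev, hcw hu] with m hm hmu
      have h2 : (⟨c m, hm⟩ : S) ∈ ⋃ i, P i := by rw [hcov]; exact mem_univ _
      obtain ⟨i, hi⟩ := mem_iUnion.1 h2
      exact ⟨i, ⟨⟨c m, hm⟩, hi, hut hmu⟩, ⟨c m, hm⟩, hi, rfl⟩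
    obtain ⟨i, -, hi⟩ : ∃ i ∈ {i | (P i ∩ t).Nonempty}, ∃ᶠ m in 𝓝[>] m₀, c m ∈ ((↑) '' (P i) : Set V) := by
      by_contra hcon
      have h2 : ∀ i ∈ {i | (P i ∩ t).Nonempty}, ∀ᶠ m in 𝓝[>] m₀, ¬ c m ∈ ((↑) '' (P i) : Set V) := by
        intro i hi
        by_contra h3
        exact hcon ⟨i, hi, h3⟩
      have h3 := (eventually_all_finite hfin).2 h2
      obtain ⟨m, ⟨i, hi, him⟩, hm⟩ := (h1.and h3).exists
      exact hm i hi him
    have hx : c m₀ ∈ ((↑) '' (P i) : Set V) := by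
      obtain ⟨T, hT, hTP⟩ := isClosed_induced_iff.1 (hcl i)
      have h2 : ∃ᶠ m in 𝓝[>] m₀, c m ∈ T := by
        refine hi.mono ?_
        rintro m ⟨y, hy, hym⟩
        rw [← hTP] at hy
        rw [← hym]
        exact hy
      have h3 : c m₀ ∈ T := hT.mem_of_frequently_of_tendsto h2 hcw
      exact ⟨⟨c m₀, hS⟩, by rw [← hTP]; exact h3, rfl⟩
    obtain ⟨U, hU, G, hG, hFG⟩ := han i (c m₀) hx
    refine ⟨G ∘ c, (hG (c m₀) (mem_of_mem_nhds hU)).comp hc, (hFG _ ⟨hx, mem_of_mem_nhds hU⟩).symm, ?_⟩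
    exact (hi.and_eventually (hcw hU)).mono fun m hm => (hFG _ hm).symm
  · intro V _ _ F S h
    refine ⟨Unit, fun _ => univ, locallyFinite_of_finite _, iUnion_const _, fun _ => isClosed_univ,
      fun _ => by rw [interior_univ, closure_univ], fun _ => ?_⟩
    rw [Subtype.coe_image_univ]
    exact h

end Pool.Agent.Q121.BS
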