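import Mathlib

set_option autoImplicit false

/-! Elementary facts for the discrepancy of random subsets of hypercube neighbourhoods. -/

namespace Q121.CubeLower

open Finset

lemma centralBinom_sq (n : ℕ) : (Nat.centralBinom n) ^ 2 * (2 * n + 1) ≤ 16 ^ n := by
  induction n with
  | zero => simp
  | succ n ih =>
    have h := Nat.succ_mul_centralBinom_succ n
    have h1 : (n + 1) ^ 2 * ((Nat.centralBinom (n + 1)) ^ 2 * (2 * (n + 1) + 1)) ≤
        (n + 1) ^ 2 * 16 ^ (n + 1) := by
      have h2 : (n + 1) ^ 2 * ((Nat.centralBinom (n + 1)) ^ 2 * (2 * (n + 1) + 1)) =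
          ((n + 1) * Nat.centralBinom (n + 1)) ^ 2 * (2 * (n + 1) + 1) := by ring
      rw [h2, h]
      have h3 : (2 * (2 * n + 1) * n.centralBinom) ^ 2 * (2 * (n + 1) + 1) =
          (4 * (2 * n + 1) * (2 * n + 3)) * (n.centralBinom ^ 2 * (2 * n + 1)) := by ring
      rw [h3]
      calc (4 * (2 * n + 1) * (2 * n + 3)) * (n.centralBinom ^ 2 * (2 * n + 1))
          ≤ (4 * (2 * n + 1) * (2 * n + 3)) * 16 ^ n := Nat.mul_le_mul_left _ ih
        _ ≤ (16 * (n + 1) ^ 2) * 16 ^ n := Nat.mul_le_mul_right _ (by nlinarith)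
        _ = (n + 1) ^ 2 * 16 ^ (n + 1) := by ring
    exact Nat.le_of_mul_le_mul_left h1 (by positivity)

/-- The middle binomial coefficient. -/
lemma choose_half (n : ℕ) : (n.choose (n / 2)) ^ 2 * n ≤ (2 ^ n) ^ 2 := by
  rcases Nat.even_or_odd' n with ⟨m, rfl | rfl⟩
  · have h := centralBinom_sq m
    have e1 : 2 * m / 2 = m := by omega
    rw [e1]
    have e2 : (2 * m).choose m = m.centralBinom := rfl
    rw [e2]
    have e3 : (2 ^ (2 * m)) ^ 2 = 16 ^ m := by
      rw [← pow_mul, mul_comm (2 * m) 2, pow_mul, pow_mul]; norm_num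
    rw [e3]
    exact le_trans (Nat.mul_le_mul_left _ (by omega)) h
  · have h := centralBinom_sq (m + 1)
    have e1 : (2 * m + 1) / 2 = m := by omega
    rw [e1]
    have e2 : (m + 1).centralBinom = 2 * (2 * m + 1).choose m := by
      rw [Nat.centralBinom_eq_two_mul_choose]
      have : 2 * (m + 1) = (2 * m + 1) + 1 := by ring
      rw [this, Nat.choose_succ_succ]
      have h3 : (2 * m + 1).choose (m + 1) = (2 * m + 1).choose m := by
        rw [← Nat.choose_symm_of_eq_add]
        omega
      rw [h3]; ring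
    rw [e2] at h
    have e3 : (2 ^ (2 * m + 1)) ^ 2 * 4 = 16 ^ (m + 1) := by
      have : (16 : ℕ) = 2 ^ 4 := by norm_num
      rw [this, ← pow_mul, ← pow_mul]
      have : (4 : ℕ) = 2 ^ 2 := by norm_num
      conv_lhs => rw [this]
      rw [← pow_add]
      congr 1
      ring
    rw [← e3] at h
    nlinarith

/-- Few subsets of a set have a small signed sum. -/
lemma few_subsets {α : Type*} [DecidableEq α] (N : Finset α) (χ : α → ℤ)
    (hχ : ∀ a, χ a = 1 ∨ χ a = -1) (K : ℕ) :
    #{T ∈ N.powerset | (∑ a ∈ T, χ a).natAbs ≤ K} ≤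
      (2 * K + 1) * (#N).choose (#N / 2) := by
  set M := N.filter (fun a => χ a = -1) with hM
  -- the sum is the cardinality of the symmetric difference minus the cardinality of `M`
  have key : ∀ T ∈ N.powerset, (∑ a ∈ T, χ a) = (#((T \ M) ∪ (M \ T)) : ℤ) - #M := by
    intro T hT
    rw [mem_powerset] at hT
    have h1 : ∑ a ∈ T, χ a = (#(T \ M) : ℤ) - #(T ∩ M) := by
      have e1 : ∑ a ∈ T \ M, χ a = (#(T \ M) : ℤ) := by
        rw [card_eq_sum_ones]
        push_cast
        refine sum_congr rfl (fun a ha => ?_)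
        rw [mem_sdiff, hM, mem_filter] at ha
        rcases hχ a with h | h
        · exact h
        · exact absurd ⟨hT ha.1, h⟩ ha.2
      have e2 : ∑ a ∈ T ∩ M, χ a = -(#(T ∩ M) : ℤ) := by
        rw [card_eq_sum_ones]
        push_cast
        rw [← sum_neg_distrib]
        refine sum_congr rfl (fun a ha => ?_)
        rw [mem_inter, hM, mem_filter] at ha
        exact ha.2.2
      rw [← sum_sdiff (inter_subset_left : T ∩ M ⊆ T), sdiff_inter_self_left, e1, e2]
      ring
    have h2 : (#((T \ M) ∪ (M \ T)) : ℤ) = #(T \ M) + #(M \ T) := by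
      rw [card_union_of_disjoint]
      · push_cast; ring
      · rw [disjoint_left]
        intro a ha hb
        rw [mem_sdiff] at ha hb
        exact ha.2 hb.1
    have h3 : (#M : ℤ) = #(M \ T) + #(T ∩ M) := by
      have := card_sdiff_add_card_inter M T
      rw [inter_comm] at this
      exact_mod_cast this.symm
    linarith
  have hinj : ∀ T ∈ N.powerset, ∀ T' ∈ N.powerset,
      (T \ M) ∪ (M \ T) = (T' \ M) ∪ (M \ T') → T = T' := by
    intro T _ T' _ h
    ext a
    have := Finset.ext_iff.1 h a
    simp only [mem_union, mem_sdiff] at this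
    tauto
  calc #{T ∈ N.powerset | (∑ a ∈ T, χ a).natAbs ≤ K}
      ≤ #((Icc (#M - K) (#M + K)).biUnion (fun l => N.powersetCard l)) := by
        apply card_le_card_of_injOn (fun T => (T \ M) ∪ (M \ T))
        · intro T hT
          rw [mem_coe, mem_filter] at hT
          rw [mem_coe, mem_biUnion]
          have h := key T hT.1
          have h2 := hT.2
          refine ⟨#((T \ M) ∪ (M \ T)), ?_, ?_⟩
          · rw [mem_Icc]
            omega
          · rw [mem_powersetCard]
            refine ⟨?_, rfl⟩
            have h3 := mem_powerset.1 hT.1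
            intro a ha
            rw [mem_union, mem_sdiff, mem_sdiff] at ha
            rcases ha with ha | ha
            · exact h3 ha.1
            · exact (mem_filter.1 ha.1).1
        · intro T hT T' hT' h
          rw [mem_coe, mem_filter] at hT hT'
          exact hinj T hT.1 T' hT'.1 h
    _ ≤ ∑ l ∈ Icc (#M - K) (#M + K), #(N.powersetCard l) := card_biUnion_le
    _ ≤ ∑ _l ∈ Icc (#M - K) (#M + K), (#N).choose (#N / 2) := by
        refine sum_le_sum (fun l _ => ?_)
        rw [card_powersetCard]
        exact Nat.choose_le_middle l _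
    _ ≤ (2 * K + 1) * (#N).choose (#N / 2) := by
        rw [sum_const, smul_eq_mul, Nat.card_Icc]
        exact Nat.mul_le_mul_right _ (by omega)

end Q121.CubeLower
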