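import Pool.Agent.Q165.DA.Stm

/-!
# Project DA, job CAT: the number of 132-avoiding permutations
-/

namespace Q165.DA.Q121
open Equiv Q165.DA

lemma inv_self (ρ : Perm ℕ) (i : ℕ) : ρ⁻¹ (ρ i) = i := ρ.symm_apply_apply i

lemma self_inv (ρ : Perm ℕ) (i : ℕ) : ρ (ρ⁻¹ i) = i := ρ.apply_symm_apply i

/-- the permutation `i ↦ i + (n - e)` (`i < e`), `e ↦ n`, `i ↦ i - e - 1` (`e < i ≤ n`). -/
def tau (n e : ℕ) (he : e ≤ n) : Perm ℕ where
  toFun i := if i < e then i + (n - e) else if i = e then n else if i ≤ n then i - e - 1 else i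
  invFun v := if v < n - e then v + e + 1 else if v < n then v - (n - e) else if v = n then e else v
  left_inv i := by
    dsimp only
    split_ifs <;> omega
  right_inv v := by
    dsimp only
    split_ifs <;> omega

lemma tau_apply (n e : ℕ) (he : e ≤ n) (i : ℕ) : tau n e he i =
    if i < e then i + (n - e) else if i = e then n else if i ≤ n then i - e - 1 else i := rfl

lemma tau_inv_apply (n e : ℕ) (he : e ≤ n) (v : ℕ) : (tau n e he)⁻¹ v =
    if v < n - e then v + e + 1 else if v < n then v - (n - e) else if v = n then e else v := rfl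

/-- shift of a permutation -/
def shift (c : ℕ) (R : Perm ℕ) : Perm ℕ where
  toFun i := if i < c then i else c + R (i - c)
  invFun i := if i < c then i else c + R⁻¹ (i - c)
  left_inv i := by
    dsimp only
    by_cases h : i < c
    · rw [if_pos h, if_pos h]
    · rw [if_neg h, if_neg (by omega), Nat.add_sub_cancel_left, inv_self]
      omega
  right_inv i := by
    dsimp only
    by_cases h : i < c
    · rw [if_pos h, if_pos h]
    · rw [if_neg h, if_neg (by omega), Nat.add_sub_cancel_left, self_inv]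
      omega

lemma shift_apply (c : ℕ) (R : Perm ℕ) (i : ℕ) :
    shift c R i = if i < c then i else c + R (i - c) := rfl

/-- restriction to `[c, ∞)` -/
def unshift (c : ℕ) (ρ : Perm ℕ) (h : ∀ i, c ≤ ρ i ↔ c ≤ i) : Perm ℕ where
  toFun i := ρ (c + i) - c
  invFun i := ρ⁻¹ (c + i) - c
  left_inv i := by
    dsimp only
    have h1 := (h (c + i)).2 (by omega)
    rw [Nat.add_sub_cancel' h1, inv_self]
    omega
  right_inv i := by
    dsimp only
    have h1 : c ≤ ρ⁻¹ (c + i) := (h _).1 (by rw [self_inv]; omega)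
    rw [Nat.add_sub_cancel' h1, self_inv]
    omega

lemma unshift_apply (c : ℕ) (ρ : Perm ℕ) (h : ∀ i, c ≤ ρ i ↔ c ≤ i) (i : ℕ) :
    unshift c ρ h i = ρ (c + i) - c := rfl

/-- restriction to `[0, c)` -/
def low (c : ℕ) (ρ : Perm ℕ) (h : ∀ i, ρ i < c ↔ i < c) : Perm ℕ where
  toFun i := if i < c then ρ i else i
  invFun i := if i < c then ρ⁻¹ i else i
  left_inv i := by
    dsimp only
    by_cases h1 : i < c
    · rw [if_pos h1, if_pos ((h i).2 h1), inv_self]
    · rw [if_neg h1, if_neg h1]
  right_inv i := by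
    dsimp only
    by_cases h1 : i < c
    · rw [if_pos h1, if_pos ((h _).1 (by rw [self_inv]; exact h1)), self_inv]
    · rw [if_neg h1, if_neg h1]

lemma low_apply (c : ℕ) (ρ : Perm ℕ) (h : ∀ i, ρ i < c ↔ i < c) (i : ℕ) :
    low c ρ h i = if i < c then ρ i else i := rfl

/-- the permutation with given left and right part -/
def Psi (n e : ℕ) (he : e ≤ n) (x : Perm ℕ × Perm ℕ) : Perm ℕ :=
  tau n e he * shift (e + 1) x.2 * x.1

lemma Psi_apply (n e : ℕ) (he : e ≤ n) (x : Perm ℕ × Perm ℕ) (i : ℕ) :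
    Psi n e he x i = tau n e he (shift (e + 1) x.2 (x.1 i)) := rfl

lemma Psi_lt {n e : ℕ} (he : e ≤ n) {L R : Perm ℕ} (hL : Supp e L) {i : ℕ} (hi : i < e) :
    Psi n e he (L, R) i = L i + (n - e) := by
  have h1 : L i < e := (hL.lt_iff i).2 hi
  rw [Psi_apply, shift_apply, if_pos (by simp only; omega), tau_apply, if_pos h1]

lemma Psi_eq {n e : ℕ} (he : e ≤ n) {L R : Perm ℕ} (hL : Supp e L) :
    Psi n e he (L, R) e = n := by
  rw [Psi_apply, hL e le_rfl, shift_apply, if_pos (by omega), tau_apply, if_neg (by omega),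
    if_pos rfl]

lemma Psi_mid {n e : ℕ} (he : e ≤ n) {L R : Perm ℕ} (hL : Supp e L) (hR : Supp (n - e) R) {i : ℕ}
    (hi : e < i) (hin : i ≤ n) : Psi n e he (L, R) i = R (i - (e + 1)) := by
  have h1 : R (i - (e + 1)) < n - e := (hR.lt_iff _).2 (by omega)
  rw [Psi_apply, hL i hi.le, shift_apply, if_neg (by omega), tau_apply]
  simp only
  rw [if_neg (by omega), if_neg (by omega), if_pos (by omega)]
  omega

lemma Psi_big {n e : ℕ} (he : e ≤ n) {L R : Perm ℕ} (hL : Supp e L) (hR : Supp (n - e) R) {i : ℕ}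
    (hin : n < i) : Psi n e he (L, R) i = i := by
  rw [Psi_apply, hL i (by omega), shift_apply, if_neg (by omega)]
  simp only
  rw [hR (i - (e + 1)) (by omega), tau_apply]
  rw [if_neg (by omega), if_neg (by omega), if_neg (by omega)]
  omega

lemma Psi_mem {n e : ℕ} (he : e ≤ n) {L R : Perm ℕ} (hL : L ∈ A e) (hR : R ∈ A (n - e)) :
    Psi n e he (L, R) ∈ A (n + 1) ∧ (Psi n e he (L, R))⁻¹ n = e := by
  obtain ⟨sL, aL⟩ := hL
  obtain ⟨sR, aR⟩ := hR
  obtain ⟨π, hπ⟩ : ∃ π, π = Psi n e he (L, R) := ⟨_, rfl⟩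
  rw [← hπ]
  have v1 : ∀ i, i < e → π i = L i + (n - e) := fun i hi => by rw [hπ]; exact Psi_lt he sL hi
  have v2 : π e = n := by rw [hπ]; exact Psi_eq he sL
  have v3 : ∀ i, e < i → i ≤ n → π i = R (i - (e + 1)) := fun i hi hin => by
    rw [hπ]; exact Psi_mid he sL sR hi hin
  have v4 : ∀ i, n < i → π i = i := fun i hi => by rw [hπ]; exact Psi_big he sL sR hi
  have s : Supp (n + 1) π := fun i hi => v4 i (by omega)
  refine ⟨⟨s, ?_⟩, ?_⟩
  · intro i j k hij hjk h1 h2
    have hle : ∀ x, x ≤ n → π x ≤ n := fun x hx => Nat.lt_succ_iff.1 ((s.lt_iff x).2 (by omega))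
    have hlo : ∀ x, x ≤ e → n - e ≤ π x := by
      intro x hx
      rcases Nat.lt_or_ge x e with h3 | h3
      · rw [v1 x h3]; omega
      · have : x = e := by omega
        rw [this, v2]; omega
    have hhi : ∀ x, e < x → x ≤ n → π x < n - e := by
      intro x hx hxn
      rw [v3 x hx hxn]
      exact (sR.lt_iff _).2 (by omega)
    rcases Nat.lt_or_ge n k with hk | hk
    · have e1 := v4 k hk
      rcases Nat.lt_or_ge n j with hj | hj
      · have e2 := v4 j hj
        omega
      · have := hle j hj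
        omega
    · rcases lt_trichotomy k e with hke | hke | hke
      · have e1 := v1 i (by omega)
        have e2 := v1 j (by omega)
        have e3 := v1 k (by omega)
        exact aL i j k hij hjk (by omega) (by omega)
      · rw [hke, v2] at h2
        have := hle j (by omega)
        omega
      · have h3 := hhi k hke hk
        have hi : e < i := by
          by_contra h4
          have := hlo i (by omega)
          omega
        have e1 := v3 i hi (by omega)
        have e2 := v3 j (by omega) (by omega)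
        have e3 := v3 k hke hk
        exact aR (i - (e + 1)) (j - (e + 1)) (k - (e + 1)) (by omega) (by omega) (by omega)
          (by omega)
  · rw [Perm.inv_eq_iff_eq]
    exact v2.symm

lemma Psi_inj {n e : ℕ} (he : e ≤ n) :
    Set.InjOn (Psi n e he) (A e ×ˢ A (n - e)) := by
  rintro ⟨L, R⟩ ⟨⟨sL, -⟩, ⟨sR, -⟩⟩ ⟨L', R'⟩ ⟨⟨sL', -⟩, ⟨sR', -⟩⟩ h
  simp only at sL sR sL' sR'
  have hL : L = L' := by
    ext i
    rcases Nat.lt_or_ge i e with hi | hi
    · have h1 := Psi_lt (R := R) he sL hi
      have h2 := Psi_lt (R := R') he sL' hi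
      rw [h] at h1
      omega
    · rw [sL i hi, sL' i hi]
  have hR : R = R' := by
    ext i
    rcases Nat.lt_or_ge i (n - e) with hi | hi
    · have h1 := Psi_mid he sL sR (i := i + (e + 1)) (by omega) (by omega)
      have h2 := Psi_mid he sL' sR' (i := i + (e + 1)) (by omega) (by omega)
      rw [h] at h1
      rw [Nat.add_sub_cancel] at h1 h2
      omega
    · rw [sR i hi, sR' i hi]
  rw [hL, hR]

lemma Psi_surj {n e : ℕ} (he : e ≤ n) {π : Perm ℕ} (hπ : π ∈ A (n + 1)) (hpe : π⁻¹ n = e) :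
    ∃ x ∈ A e ×ˢ A (n - e), Psi n e he x = π := by
  obtain ⟨s, a⟩ := hπ
  have hπe : π e = n := by rw [← hpe]; exact π.apply_symm_apply n
  have hmax : ∀ p, p ≤ n → (e < p ↔ π p < n - e) := fun p hp => by
    have := Av.max s a p (by omega)
    rw [Nat.add_sub_cancel, hpe] at this
    exact this
  have hle : ∀ x, x ≤ n → π x ≤ n := fun x hx => Nat.lt_succ_iff.1 ((s.lt_iff x).2 (by omega))
  have hne : ∀ x, x ≠ e → π x ≠ n := by
    intro x hx h1
    exact hx (π.injective (h1.trans hπe.symm))
  obtain ⟨ρ, hρ⟩ : ∃ ρ, ρ = (tau n e he)⁻¹ * π := ⟨_, rfl⟩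
  have hρi : ∀ i, ρ i = (tau n e he)⁻¹ (π i) := fun i => by rw [hρ]; rfl
  have r1 : ∀ i, i < e → ρ i = π i - (n - e) ∧ n - e ≤ π i ∧ π i < n := by
    intro i hi
    have h1 : ¬ π i < n - e := fun h2 => by
      have := (hmax i (by omega)).2 h2
      omega
    have h2 : π i < n := lt_of_le_of_ne (hle i (by omega)) (hne i (by omega))
    rw [hρi, tau_inv_apply, if_neg h1, if_pos h2]
    omega
  have r2 : ρ e = e := by
    rw [hρi, hπe, tau_inv_apply, if_neg (by omega), if_neg (by omega), if_pos rfl]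
  have r3 : ∀ i, e < i → i ≤ n → ρ i = π i + e + 1 ∧ π i < n - e := by
    intro i hi hin
    have h1 := (hmax i hin).1 hi
    rw [hρi, tau_inv_apply, if_pos h1]
    exact ⟨rfl, h1⟩
  have r4 : ∀ i, n < i → ρ i = i := by
    intro i hi
    rw [hρi, s i (by omega), tau_inv_apply, if_neg (by omega), if_neg (by omega),
      if_neg (by omega)]
  have hlow : ∀ i, ρ i < e ↔ i < e := by
    intro i
    rcases lt_trichotomy i e with hi | hi | hi
    · have := r1 i hi; omega
    · rw [hi, r2]
    · rcases Nat.lt_or_ge n i with hin | hin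
      · rw [r4 i hin]
      · have := r3 i hi hin; omega
  have hup : ∀ i, e + 1 ≤ ρ i ↔ e + 1 ≤ i := by
    intro i
    rcases lt_trichotomy i e with hi | hi | hi
    · have := r1 i hi; omega
    · rw [hi, r2]
    · rcases Nat.lt_or_ge n i with hin | hin
      · rw [r4 i hin]
      · have := r3 i hi hin; omega
  have l1 : ∀ i, i < e → low e ρ hlow i = π i - (n - e) := fun i hi => by
    rw [low_apply, if_pos hi, (r1 i hi).1]
  have l2 : ∀ i, e ≤ i → low e ρ hlow i = i := fun i hi => by
    rw [low_apply, if_neg (by omega)]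
  have u1 : ∀ i, i < n - e → unshift (e + 1) ρ hup i = π (e + 1 + i) := fun i hi => by
    rw [unshift_apply, (r3 (e + 1 + i) (by omega) (by omega)).1]
    omega
  have u2 : ∀ i, n - e ≤ i → unshift (e + 1) ρ hup i = i := fun i hi => by
    rw [unshift_apply, r4 (e + 1 + i) (by omega)]
    omega
  have sL : Supp e (low e ρ hlow) := l2
  have sR : Supp (n - e) (unshift (e + 1) ρ hup) := u2
  refine ⟨(low e ρ hlow, unshift (e + 1) ρ hup), ⟨⟨sL, ?_⟩, ⟨sR, ?_⟩⟩, ?_⟩
  · intro i j k hij hjk h1 h2
    simp only at h1 h2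
    rcases Nat.lt_or_ge k e with hk | hk
    · have b1 := (r1 i (by omega)).2
      have b2 := (r1 j (by omega)).2
      have b3 := (r1 k hk).2
      rw [l1 i (by omega), l1 k hk] at h1
      rw [l1 k hk, l1 j (by omega)] at h2
      exact a i j k hij hjk (by omega) (by omega)
    · rw [l2 k hk] at h2
      rcases Nat.lt_or_ge j e with hj | hj
      · have := (sL.lt_iff j).2 hj
        omega
      · rw [l2 j hj] at h2
        omega
  · intro i j k hij hjk h1 h2
    simp only at h1 h2
    rcases Nat.lt_or_ge k (n - e) with hk | hk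
    · rw [u1 i (by omega), u1 k hk] at h1
      rw [u1 k hk, u1 j (by omega)] at h2
      exact a (e + 1 + i) (e + 1 + j) (e + 1 + k) (by omega) (by omega) h1 h2
    · rw [u2 k hk] at h2
      rcases Nat.lt_or_ge j (n - e) with hj | hj
      · have := (sR.lt_iff j).2 hj
        omega
      · rw [u2 j hj] at h2
        omega
  · ext i
    rcases lt_trichotomy i e with hi | hi | hi
    · rw [Psi_lt he sL hi, l1 i hi]
      have := (r1 i hi).2
      omega
    · rw [hi, Psi_eq he sL, hπe]
    · rcases Nat.lt_or_ge n i with hin | hin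
      · rw [Psi_big he sL sR hin, s i (by omega)]
      · rw [Psi_mid he sL sR hi hin, u1 _ (by omega)]
        congr 1
        omega

lemma fiber {n e : ℕ} (he : e ≤ n) : {π | π ∈ A (n + 1) ∧ π⁻¹ n = e} =
    Psi n e he '' (A e ×ˢ A (n - e)) := by
  ext π
  constructor
  · rintro ⟨h1, h2⟩
    obtain ⟨x, hx, hx'⟩ := Psi_surj he h1 h2
    exact ⟨x, hx, hx'⟩
  · rintro ⟨⟨L, R⟩, ⟨hL, hR⟩, rfl⟩
    exact Psi_mem he hL hR

lemma A_fin (n : ℕ) : (A n).Finite := (finite_supp n).subset fun _ h => h.1

lemma fiber_card {n e : ℕ} (he : e ≤ n) : {π | π ∈ A (n + 1) ∧ π⁻¹ n = e}.ncard =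
    (A e).ncard * (A (n - e)).ncard := by
  rw [fiber he, (Psi_inj he).ncard_image, Set.ncard_prod]

lemma rec (n : ℕ) : (A (n + 1)).ncard =
    ∑ e ∈ Finset.range (n + 1), (A e).ncard * (A (n - e)).ncard := by
  classical
  have hf := A_fin (n + 1)
  rw [Set.ncard_eq_toFinset_card _ hf]
  have hmap : ∀ π ∈ hf.toFinset, π⁻¹ n ∈ Finset.range (n + 1) := by
    intro π hπ
    rw [Set.Finite.mem_toFinset] at hπ
    rw [Finset.mem_range]
    exact (hπ.1.inv.lt_iff n).2 (Nat.lt_succ_self n)
  rw [Finset.card_eq_sum_card_fiberwise hmap]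
  refine Finset.sum_congr rfl fun e he => ?_
  rw [Finset.mem_range] at he
  rw [← fiber_card (by omega : e ≤ n), Set.ncard_eq_toFinset_card _ (hf.subset fun _ h => h.1)]
  congr 1
  ext π
  simp

lemma A_zero : (A 0).ncard = 1 := by
  have : A 0 = {1} := by
    ext π
    constructor
    · rintro ⟨h, -⟩
      ext i
      rw [h i (Nat.zero_le _)]
      rfl
    · rintro rfl
      exact ⟨Supp.one 0, Av.one⟩
  rw [this, Set.ncard_singleton]

/-- **CAT**. -/
theorem cat : S_Cat := by
  intro n
  induction n using Nat.strong_induction_on with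
  | _ n ih =>
    cases n with
    | zero => rw [A_zero, catalan_zero]
    | succ n =>
      rw [rec, catalan_succ, ← Fin.sum_univ_eq_sum_range
        (fun e => (A e).ncard * (A (n - e)).ncard) (n + 1)]
      refine Finset.sum_congr rfl fun i _ => ?_
      have hi := i.2
      rw [ih i (by omega), ih (n - i) (by omega)]

end Q165.DA.Q121
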