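import Pool.Agent.Q165.DA.Stm

/-!
# Project DA, job F01
-/

namespace Q165.DA.Q121
open Equiv Q165.DA

/-- **F01**. -/
theorem f01 : S_F01 := by
  rintro n π ⟨hs, h, h2⟩ hlt
  obtain ⟨m, hm⟩ : ∃ m, m = n - 1 := ⟨_, rfl⟩
  obtain ⟨e, he⟩ : ∃ e, e = π⁻¹ m := ⟨_, rfl⟩
  rw [← hm] at hlt ⊢
  rw [← he] at hlt ⊢
  have hn : 0 < n := by
    by_contra hn0
    have h0 : n = 0 := by omega
    subst h0
    have h1 : π m = m := hs m (Nat.zero_le _)
    have h3 : π⁻¹ m = m := hs.inv m (Nat.zero_le _)
    rw [he, h1, h3] at hlt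
    exact lt_irrefl _ hlt
  have hmn : m < n := by omega
  have hen : e < n := by rw [he]; exact (hs.inv.lt_iff m).2 hmn
  have hπe : π e = m := by rw [he]; exact π.apply_symm_apply m
  have hem : e ≠ m := by
    intro h0
    rw [h0] at hπe hlt
    omega
  have hmax : ∀ p, p < n → (e < p ↔ π p < m - e) := fun p hp => by
    have := Av.max hs h p hp
    rw [← hm, ← he] at this
    exact this
  have hk0r : π m < m - e := (hmax m hmn).1 (by omega)
  have hle : m - e ≤ e := by
    by_contra hc
    rw [not_le] at hc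
    obtain ⟨p, hp⟩ : ∃ p, p = π⁻¹ e := ⟨_, rfl⟩
    have hπp : π p = e := by rw [hp]; exact π.apply_symm_apply e
    have hpn : p < n := by rw [hp]; exact (hs.inv.lt_iff e).2 hen
    have hep : e < p := (hmax p hpn).2 (by rw [hπp]; exact hc)
    have hpm : p ≠ m := by
      intro h0
      rw [h0] at hπp
      omega
    have h3 : m - e ≤ π (π m) := by
      by_contra h4
      rw [not_le] at h4
      have := (hmax (π m) ((hs.lt_iff m).2 hmn)).2 h4
      omega
    have h5 : π (π m) < n := (hs.lt_iff _).2 ((hs.lt_iff m).2 hmn)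
    have h6 : π (π m) ≠ m := by
      intro h7
      have h8 : π m = e := π.injective (by rw [h7, hπe])
      omega
    refine h2 e p m hep (by omega) ?_ ?_
    · simp only [Perm.mul_apply]
      rw [hπe]
      omega
    · simp only [Perm.mul_apply]
      rw [hπp, hπe]
      omega
  refine ⟨by omega, hle, fun c c' hc hcc hcn => ?_⟩
  by_contra h3
  rw [not_lt] at h3
  have h4 : π c' < m - e := (hmax c' hcn).1 (by omega)
  have h5 : m - e ≤ π (π c') := by
    by_contra h6
    rw [not_le] at h6
    have := (hmax (π c') ((hs.lt_iff c').2 hcn)).2 h6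
    omega
  have h7 : π (π c') ≠ π (π c) := by
    intro h8
    have := π.injective (π.injective h8)
    omega
  refine h2 e c c' hc hcc ?_ ?_
  · simp only [Perm.mul_apply]
    rw [hπe]
    omega
  · simp only [Perm.mul_apply]
    omega

end Q165.DA.Q121
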