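import Pool.Agent.Q165.DA.Stm

/-!
# Project DA, job ZA
-/

namespace Q165.DA.Q121
open Equiv Q165.DA

/-- **ZA** (with the hypothesis that `n - 1` is not fixed). -/
theorem za : ∀ n π, π ∈ S n → π (n - 1) = π⁻¹ (n - 1) → π (n - 1) ≠ n - 1 → π * π = 1 := by
  rintro n π ⟨hs, h, h2⟩ heq hne
  obtain ⟨m, hm⟩ : ∃ m, m = n - 1 := ⟨_, rfl⟩
  obtain ⟨e, he⟩ : ∃ e, e = π⁻¹ m := ⟨_, rfl⟩
  rw [← hm, ← he] at heq
  rw [← hm] at hne
  have hn : 0 < n := by
    by_contra hn0
    have h0 : n = 0 := by omega
    subst h0
    exact hne (hs m (Nat.zero_le _))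
  have hmn : m < n := by omega
  have hen : e < n := by rw [he]; exact (hs.inv.lt_iff m).2 hmn
  have hπe : π e = m := by rw [he]; exact π.apply_symm_apply m
  have hem : e ≠ m := by
    intro h0
    exact hne (heq.trans h0)
  have hmax : ∀ p, p < n → (e < p ↔ π p < m - e) := fun p hp => by
    have := Av.max hs h p hp
    rw [← hm, ← he] at this
    exact this
  have hlast : ∀ p, p < n → (π p ≤ e ↔ m - e ≤ p) := fun p hp => by
    have := Av.last hs h p hp
    rw [← hm, heq] at this
    exact this
  have her : e < m - e := by
    by_contra hc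
    have := (hlast e hen).2 (by omega)
    omega
  have hsn : ∀ p, p < n → π p < n := fun p hp => (hs.lt_iff p).2 hp
  -- positions `> e` are mapped by `π²` to positions `> e`
  have hup : ∀ p, e < p → p < n → e < π (π p) := by
    intro p hp hpn
    have h3 : π p < m - e := (hmax p hpn).1 hp
    by_contra h4
    rw [not_lt] at h4
    have := (hlast (π p) (hsn p hpn)).1 h4
    omega
  -- and positions `≤ e` to positions `≤ e`
  have hdown : ∀ p, p ≤ e → π (π p) ≤ e := by
    intro p hp
    have hpn : p < n := by omega
    have h3 : m - e ≤ π p := by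
      by_contra h4
      rw [not_le] at h4
      have := (hmax p hpn).2 h4
      omega
    exact (hlast (π p) (hsn p hpn)).2 h3
  have hmono : ∀ p q, e < p → p < q → q < n → π (π p) < π (π q) := by
    intro p q hp hpq hq
    by_contra h3
    rw [not_lt] at h3
    have h7 : π (π q) ≠ π (π p) := by
      intro h8
      have := π.injective (π.injective h8)
      omega
    refine h2 0 p q (by omega) hpq ?_ ?_
    · simp only [Perm.mul_apply]
      have := hdown 0 (Nat.zero_le _)
      have := hup q (by omega) hq
      omega
    · simp only [Perm.mul_apply]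
      omega
  -- `π² p ≥ p` on `(e, m]`
  have hge : ∀ d p, p = e + 1 + d → p < n → p ≤ π (π p) := by
    intro d
    induction d with
    | zero =>
      intro p hp hpn
      have := hup p (by omega) hpn
      omega
    | succ d ih =>
      intro p hp hpn
      have h3 := ih (p - 1) (by omega) (by omega)
      have h4 := hmono (p - 1) p (by omega) (by omega) hpn
      omega
  -- `π² p ≤ p` on `(e, m]`
  have hle : ∀ d p, p + d = m → e < p → π (π p) ≤ p := by
    intro d
    induction d with
    | zero =>
      intro p hp hpe
      have := hsn (π p) (hsn p (by omega))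
      omega
    | succ d ih =>
      intro p hp hpe
      have h3 := ih (p + 1) (by omega) (by omega)
      have h4 := hmono p (p + 1) hpe (by omega) (by omega)
      omega
  have hid : ∀ p, e < p → p < n → π (π p) = p := by
    intro p hp hpn
    exact le_antisymm (hle (m - p) p (by omega) hp) (hge (p - e - 1) p (by omega) hpn)
  ext p
  rw [Perm.mul_apply, Perm.one_apply]
  rcases Nat.lt_or_ge p n with hpn | hpn
  · rcases Nat.lt_or_ge e p with hp | hp
    · exact hid p hp hpn
    · have h3 : m - e ≤ π p := by
        by_contra h4
        rw [not_le] at h4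
        have := (hmax p hpn).2 h4
        omega
      exact π.injective (hid (π p) (by omega) (hsn p hpn))
  · rw [hs p hpn, hs p hpn]

end Q165.DA.Q121
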