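import Pool.Agent.Q127.DJ.Stm

set_option autoImplicit false

namespace Pool.Agent.Q121.DJ_CE1

open Pool.Agent.Q127.DJ
open MeasureTheory Filter Topology

theorem nm_meas {m : ℕ} (f : ℕ → Fin m) (t : ℕ) : Measurable (nm f t) := by
  refine measurable_pi_iff.2 fun i => ?_
  exact (measurable_of_countable f).comp (measurable_pi_apply (i : ℕ))

theorem ce1 : S_ce1 := by
  intro μ _ m f t C φ hC hφ
  refine ⟨fun x y hxy => by simp only [E, hxy], ?_, ?_⟩
  · have h : E μ f t φ = (fun w : Fin t → Fin m =>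
        (∫ y in cyl f t w, φ y ∂μ) / μ.real (cyl f t w)) ∘ nm f t := rfl
    rw [h]
    exact (measurable_of_countable _).comp (nm_meas f t)
  · intro x
    have h1 : ‖∫ y in cyl f t (nm f t x), φ y ∂μ‖ ≤ C * μ.real (cyl f t (nm f t x)) :=
      norm_setIntegral_le_of_norm_le_const (measure_lt_top _ _)
        (fun y _ => by rw [Real.norm_eq_abs]; exact hφ.2 y)
    rw [Real.norm_eq_abs] at h1
    have h2 : (0 : ℝ) ≤ μ.real (cyl f t (nm f t x)) := measureReal_nonneg
    unfold E
    rw [abs_div, abs_of_nonneg h2]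
    exact div_le_of_le_mul₀ h2 hC h1

end Pool.Agent.Q121.DJ_CE1
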