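import Mathlib

/-!
# Counting Hamiltonian paths by arithmetic on packed natural numbers

For a digraph on `{0, …, N-1}` given by its lists `nb` of out-neighbours, `total W N nb k` is a natural
number that the kernel evaluates quickly (a subset dynamic programme; the `2^N` table entries are the
base-`2^W` digits of one number).  `total_eq`: for `k = N - 1` it equals the number of Hamiltonian
paths, times `2^(W (2^N - 1))`.
-/

namespace Pool.Agent.Q121.HamCount

/-- Mask with all-ones lanes at the subsets of `{0, …, n-1}` not containing `v`. -/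
def pat (W v : ℕ) : ℕ → ℕ
  | 0 => 2 ^ W - 1
  | n + 1 => (if n = v then 1 else 1 + 2 ^ (W * 2 ^ n)) * pat W v n

/-- Packed table of the paths with `k + 1` vertices starting at `v`. -/
def H (W N : ℕ) (nb : List (List ℕ)) : ℕ → ℕ → ℕ
  | 0, v => 2 ^ (W * 2 ^ v)
  | k + 1, v => ((nb.getD v []).foldr (fun w s => H W N nb k w + s) 0 &&& pat W v N) *
      2 ^ (W * 2 ^ v)

/-- Sum of the packed tables over the starting vertices. -/
def total (W N : ℕ) (nb : List (List ℕ)) (k : ℕ) : ℕ :=
  (List.range N).foldr (fun v s => H W N nb k v + s) 0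

/-- Packing of the values `f m`, `m < 2^n`, as base-`2^W` digits. -/
def pack (W : ℕ) : ℕ → (ℕ → ℕ) → ℕ
  | 0, f => f 0
  | n + 1, f => pack W n f + 2 ^ (W * 2 ^ n) * pack W n (fun m => f (m + 2 ^ n))

lemma pack_congr {W n : ℕ} {f g : ℕ → ℕ} (h : ∀ m < 2 ^ n, f m = g m) :
    pack W n f = pack W n g := by
  induction n generalizing f g with
  | zero => exact h 0 (by simp)
  | succ n ih =>
    have h2 : 2 ^ (n + 1) = 2 ^ n + 2 ^ n := by ring
    simp only [pack]
    rw [ih (fun m hm => h m (by omega)), ih (f := fun m => f (m + 2 ^ n))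
      (g := fun m => g (m + 2 ^ n)) (fun m hm => h _ (by omega))]

lemma pack_zero {W n : ℕ} : pack W n (fun _ => 0) = 0 := by
  induction n with
  | zero => rfl
  | succ n ih => simp only [pack, ih]; simp

lemma pack_add {W n : ℕ} (f g : ℕ → ℕ) :
    pack W n (fun m => f m + g m) = pack W n f + pack W n g := by
  induction n generalizing f g with
  | zero => rfl
  | succ n ih =>
    simp only [pack]
    rw [ih, ih (fun m => f (m + 2 ^ n)) (fun m => g (m + 2 ^ n))]
    ring

lemma pack_lt {W n : ℕ} {f : ℕ → ℕ} (h : ∀ m < 2 ^ n, f m < 2 ^ W) :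
    pack W n f < 2 ^ (W * 2 ^ n) := by
  induction n generalizing f with
  | zero => simpa [pack] using h 0 (by simp)
  | succ n ih =>
    have h2 : 2 ^ (n + 1) = 2 ^ n + 2 ^ n := by ring
    simp only [pack]
    have h3 := ih (f := f) (fun m hm => h m (by omega))
    have h4 := ih (f := fun m => f (m + 2 ^ n)) (fun m hm => h _ (by omega))
    have h5 : 2 ^ (W * 2 ^ (n + 1)) = 2 ^ (W * 2 ^ n) * 2 ^ (W * 2 ^ n) := by
      rw [h2, mul_add, pow_add]
    rw [h5]
    calc pack W n f + 2 ^ (W * 2 ^ n) * pack W n (fun m => f (m + 2 ^ n))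
        < 2 ^ (W * 2 ^ n) + 2 ^ (W * 2 ^ n) * pack W n (fun m => f (m + 2 ^ n)) := by omega
      _ = 2 ^ (W * 2 ^ n) * (pack W n (fun m => f (m + 2 ^ n)) + 1) := by ring
      _ ≤ 2 ^ (W * 2 ^ n) * 2 ^ (W * 2 ^ n) := Nat.mul_le_mul_left _ h4

lemma testBit_add_pow_ne {n m v : ℕ} (hm : m < 2 ^ n) (hv : v ≠ n) :
    (m + 2 ^ n).testBit v = m.testBit v := by
  rcases lt_or_gt_of_ne hv with h | h
  · rw [add_comm, Nat.testBit_two_pow_add_gt h]
  · have h1 : 2 ^ (n + 1) ≤ 2 ^ v := Nat.pow_le_pow_right (by norm_num) h
    have h2 : 2 ^ (n + 1) = 2 ^ n + 2 ^ n := by ring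
    rw [Nat.testBit_lt_two_pow (by omega), Nat.testBit_lt_two_pow (by omega)]

lemma testBit_add_pow_self {n m : ℕ} (hm : m < 2 ^ n) : (m + 2 ^ n).testBit n = true := by
  rw [add_comm, Nat.testBit_two_pow_add_eq, Nat.testBit_lt_two_pow hm]; rfl

lemma pat_eq (W v n : ℕ) :
    pat W v n = pack W n (fun m => if m.testBit v then 0 else 2 ^ W - 1) := by
  induction n with
  | zero => simp [pat, pack]
  | succ n ih =>
    simp only [pat, pack]
    by_cases h : n = v
    · subst h
      rw [if_pos rfl, one_mul, ih]
      rw [pack_congr (f := fun m => if (m + 2 ^ n).testBit n then 0 else 2 ^ W - 1)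
        (g := fun _ => 0) (fun m hm => by rw [testBit_add_pow_self hm]; simp), pack_zero]
      simp
    · rw [if_neg h, ih]
      rw [pack_congr (f := fun m => if (m + 2 ^ n).testBit v then 0 else 2 ^ W - 1)
        (g := fun m => if m.testBit v then 0 else 2 ^ W - 1)
        (fun m hm => by rw [testBit_add_pow_ne hm (Ne.symm h)])]
      ring

lemma land_split {s a a' b b' : ℕ} (ha : a < 2 ^ s) (ha' : a' < 2 ^ s) :
    (a + 2 ^ s * b) &&& (a' + 2 ^ s * b') = (a &&& a') + 2 ^ s * (b &&& b') := by
  apply Nat.eq_of_testBit_eq
  intro i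
  rw [Nat.testBit_and, add_comm a, add_comm a', add_comm (a &&& a'),
    Nat.testBit_two_pow_mul_add _ ha, Nat.testBit_two_pow_mul_add _ ha',
    Nat.testBit_two_pow_mul_add _ (lt_of_le_of_lt Nat.and_le_left ha)]
  split_ifs
  · rw [Nat.testBit_and]
  · rw [Nat.testBit_and]

lemma land_pack {W n v : ℕ} {f : ℕ → ℕ} (h : ∀ m < 2 ^ n, f m < 2 ^ W) :
    pack W n f &&& pat W v n = pack W n (fun m => if m.testBit v then 0 else f m) := by
  rw [pat_eq]
  have key : ∀ (c : ℕ → Bool) (f : ℕ → ℕ), (∀ m < 2 ^ n, f m < 2 ^ W) →
      pack W n f &&& pack W n (fun m => if c m then 0 else 2 ^ W - 1) =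
        pack W n (fun m => if c m then 0 else f m) := by
    clear h f
    induction n with
    | zero =>
      intro c f h
      simp only [pack]
      by_cases hc : c 0 = true
      · simp [hc]
      · simp only [hc]
        simpa using Nat.and_two_pow_sub_one_of_lt_two_pow (h 0 (by simp))
    | succ n ih =>
      intro c f h
      have h2 : 2 ^ (n + 1) = 2 ^ n + 2 ^ n := by ring
      simp only [pack]
      rw [land_split (pack_lt (fun m hm => h m (by omega)))
        (pack_lt (fun m _ => by
          have : 0 < 2 ^ W := by positivity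
          split_ifs <;> omega))]
      rw [ih c f (fun m hm => h m (by omega)),
        ih (fun m => c (m + 2 ^ n)) (fun m => f (m + 2 ^ n)) (fun m hm => h _ (by omega))]
  exact key (fun m => m.testBit v) f h

lemma le_of_testBit {m v : ℕ} (h : m.testBit v = true) : 2 ^ v ≤ m := Nat.ge_two_pow_of_testBit h

lemma shift_pack {W n v : ℕ} (hv : v < n) (f : ℕ → ℕ) :
    pack W n (fun m => if m.testBit v then 0 else f m) * 2 ^ (W * 2 ^ v) =
      pack W n (fun m => if m.testBit v then f (m - 2 ^ v) else 0) := by
  induction n generalizing f with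
  | zero => omega
  | succ n ih =>
    simp only [pack]
    rcases Nat.lt_succ_iff_lt_or_eq.mp hv with h | h
    · rw [pack_congr (f := fun m => if (m + 2 ^ n).testBit v then 0 else f (m + 2 ^ n))
        (g := fun m => if m.testBit v then 0 else f (m + 2 ^ n))
        (fun m hm => by rw [testBit_add_pow_ne hm (ne_of_lt h)])]
      rw [pack_congr (f := fun m => if (m + 2 ^ n).testBit v then f (m + 2 ^ n - 2 ^ v) else 0)
        (g := fun m => if m.testBit v then (fun x => f (x + 2 ^ n)) (m - 2 ^ v) else 0)
        (fun m hm => by
          rw [testBit_add_pow_ne hm (ne_of_lt h)]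
          by_cases hb : m.testBit v = true
          · have := le_of_testBit hb
            simp only [hb, if_true]
            congr 1
            omega
          · simp [hb])]
      rw [add_mul, ih h f, mul_assoc, ih h (fun x => f (x + 2 ^ n))]
    · subst h
      rw [pack_congr (f := fun m => if (m + 2 ^ v).testBit v then 0 else f (m + 2 ^ v))
        (g := fun _ => 0) (fun m hm => by rw [testBit_add_pow_self hm]; simp), pack_zero]
      rw [pack_congr (f := fun m => if (m + 2 ^ v).testBit v then f (m + 2 ^ v - 2 ^ v) else 0)
        (g := f) (fun m hm => by rw [testBit_add_pow_self hm]; simp)]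
      rw [pack_congr (f := fun m => if m.testBit v then 0 else f m) (g := f)
        (fun m hm => by rw [Nat.testBit_lt_two_pow hm]; simp)]
      rw [pack_congr (f := fun m => if m.testBit v then f (m - 2 ^ v) else 0) (g := fun _ => 0)
        (fun m hm => by rw [Nat.testBit_lt_two_pow hm]; simp), pack_zero]
      ring

lemma pack_single {W n v : ℕ} (hv : v < n) :
    pack W n (fun m => if m = 2 ^ v then 1 else 0) = 2 ^ (W * 2 ^ v) := by
  induction n with
  | zero => omega
  | succ n ih =>
    simp only [pack]
    rcases Nat.lt_succ_iff_lt_or_eq.mp hv with h | h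
    · rw [ih h]
      have h1 : 2 ^ v < 2 ^ n := Nat.pow_lt_pow_right (by norm_num) h
      rw [pack_congr (f := fun m => if m + 2 ^ n = 2 ^ v then 1 else 0) (g := fun _ => 0)
        (fun m hm => by rw [if_neg]; omega), pack_zero]
      simp
    · subst h
      rw [pack_congr (f := fun m => if m = 2 ^ v then 1 else 0) (g := fun _ => 0)
        (fun m hm => by rw [if_neg]; omega), pack_zero]
      have h0 : pack W v (fun m => if m + 2 ^ v = 2 ^ v then 1 else 0) = 1 := by
        have : ∀ n, pack W n (fun m => if m = 0 then 1 else 0) = 1 := by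
          intro n
          induction n with
          | zero => simp [pack]
          | succ n ih' =>
            simp only [pack]
            rw [ih', pack_congr (f := fun m => if m + 2 ^ n = 0 then 1 else 0) (g := fun _ => 0)
              (fun m hm => by
                rw [if_neg]
                have : 0 < 2 ^ n := by positivity
                omega), pack_zero]
            simp
        refine (pack_congr ?_).trans (this v)
        intro m _
        have : m + 2 ^ v = 2 ^ v ↔ m = 0 := by omega
        simp only [this]
      rw [h0]; simp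

lemma pack_top {W n : ℕ} {f : ℕ → ℕ} (h : ∀ m < 2 ^ n, m ≠ 2 ^ n - 1 → f m = 0) :
    pack W n f = f (2 ^ n - 1) * 2 ^ (W * (2 ^ n - 1)) := by
  induction n generalizing f with
  | zero => simp [pack]
  | succ n ih =>
    have h2 : 2 ^ (n + 1) = 2 ^ n + 2 ^ n := by ring
    have hp : 0 < 2 ^ n := by positivity
    simp only [pack]
    rw [pack_congr (f := f) (g := fun _ => 0) (fun m hm => h m (by omega) (by omega)), pack_zero]
    rw [ih (f := fun m => f (m + 2 ^ n)) (fun m hm hne => h _ (by omega) (by omega))]
    have e1 : 2 ^ n - 1 + 2 ^ n = 2 ^ (n + 1) - 1 := by omega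
    simp only [e1]
    have e2 : W * (2 ^ (n + 1) - 1) = W * 2 ^ n + W * (2 ^ n - 1) := by
      rw [← mul_add]; congr 1; omega
    rw [e2, pow_add]
    ring

/-! ## The dynamic programme -/

/-- Number of paths with `k + 1` vertices, starting at `v`, with vertex set coded by `m`. -/
def c (nb : List (List ℕ)) : ℕ → ℕ → ℕ → ℕ
  | 0, v, m => if m = 2 ^ v then 1 else 0
  | k + 1, v, m => if m.testBit v then
      ((nb.getD v []).map (fun w => c nb k w (m - 2 ^ v))).sum else 0

/-- The explicit list of these paths. -/
def L (nb : List (List ℕ)) : ℕ → ℕ → ℕ → List (List ℕ)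
  | 0, v, m => if m = 2 ^ v then [[v]] else []
  | k + 1, v, m => if m.testBit v then
      (nb.getD v []).flatMap (fun w => (L nb k w (m - 2 ^ v)).map (v :: ·)) else []

lemma length_L (nb : List (List ℕ)) (k v m : ℕ) : (L nb k v m).length = c nb k v m := by
  induction k generalizing v m with
  | zero => simp only [L, c]; split_ifs <;> rfl
  | succ k ih =>
    simp only [L, c]
    split_ifs
    · rw [List.length_flatMap]
      congr 1
      apply List.map_congr_left
      intro w _
      simp [ih]
    · rfl

/-- The code of the vertex set of a path. -/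
def mask (l : List ℕ) : ℕ := (l.map (fun x => 2 ^ x)).sum

lemma testBit_two_pow_add_of_false {a M : ℕ} (h : M.testBit a = false) (x : ℕ) :
    (2 ^ a + M).testBit x = (decide (a = x) || M.testBit x) := by
  rcases lt_trichotomy x a with hx | hx | hx
  · rw [Nat.testBit_two_pow_add_gt hx]
    have : ¬ a = x := by omega
    simp [this]
  · subst hx
    rw [Nat.testBit_two_pow_add_eq, h]; simp
  · have hne : ¬ a = x := by omega
    have h1 : M / 2 ^ a % 2 = 0 := by
      rw [Nat.testBit_eq_decide_div_mod_eq] at h
      simpa using h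
    have hP : 0 < 2 ^ a := by positivity
    have h2 : (2 ^ a + M) / 2 ^ (a + 1) = M / 2 ^ (a + 1) := by
      rw [pow_succ, ← Nat.div_div_eq_div_mul, ← Nat.div_div_eq_div_mul, Nat.add_div_left _ hP]
      omega
    obtain ⟨j, rfl⟩ : ∃ j, x = (a + 1) + j := ⟨x - (a + 1), by omega⟩
    have e1 : (2 ^ a + M).testBit (a + 1 + j) = ((2 ^ a + M) / 2 ^ (a + 1)).testBit j := by
      rw [Nat.testBit_div_two_pow]
      congr 1; omega
    have e2 : M.testBit (a + 1 + j) = (M / 2 ^ (a + 1)).testBit j := by
      rw [Nat.testBit_div_two_pow]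
      congr 1; omega
    rw [e1, e2, h2]
    simp [hne]

lemma testBit_mask (l : List ℕ) (hl : l.Nodup) (x : ℕ) : (mask l).testBit x = decide (x ∈ l) := by
  induction l generalizing x with
  | nil => simp [mask]
  | cons a l ih =>
    have ha : a ∉ l := (List.nodup_cons.mp hl).1
    have hl' := (List.nodup_cons.mp hl).2
    have h1 : mask (a :: l) = 2 ^ a + mask l := by simp [mask]
    have h2 : (mask l).testBit a = false := by rw [ih hl']; simp [ha]
    rw [h1, testBit_two_pow_add_of_false h2, ih hl']
    by_cases hx : a = x
    · subst hx; simp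
    · have : ¬ x = a := fun h => hx h.symm
      simp [hx, this]

/-- The list `nb` is a good list of out-neighbours on `{0, …, N-1}`. -/
def Good (N : ℕ) (nb : List (List ℕ)) : Prop :=
  ∀ v, (nb.getD v []).Nodup ∧ ∀ w ∈ nb.getD v [], w < N

lemma mem_L {N : ℕ} {nb : List (List ℕ)} (hnb : Good N nb) (k v m : ℕ) (hv : v < N) (l : List ℕ) :
    l ∈ L nb k v m ↔ l.length = k + 1 ∧ l.Nodup ∧ l.IsChain (fun x y => y ∈ nb.getD x []) ∧
      l.head? = some v ∧ mask l = m := by
  induction k generalizing v m l with
  | zero =>
    simp only [L]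
    constructor
    · intro h
      split_ifs at h with hm
      · simp only [List.mem_singleton] at h
        subst h
        simp [mask, hm]
      · simp at h
    · rintro ⟨h1, -, -, h4, h5⟩
      obtain ⟨a, rfl⟩ := List.length_eq_one_iff.mp h1
      simp only [List.head?_cons, Option.some.injEq] at h4
      subst h4
      simp only [mask, List.map_cons, List.map_nil, List.sum_cons, List.sum_nil, add_zero] at h5
      simp [h5.symm]
  | succ k ih =>
    simp only [L]
    constructor
    · intro h
      split_ifs at h with hm
      · rw [List.mem_flatMap] at h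
        obtain ⟨w, hw, h⟩ := h
        rw [List.mem_map] at h
        obtain ⟨t, ht, rfl⟩ := h
        obtain ⟨h1, h2, h3, h4, h5⟩ := (ih w _ ((hnb v).2 w hw) t).mp ht
        have hle := le_of_testBit hm
        have hv' : v ∉ t := by
          intro hmem
          have h6 := testBit_mask t h2 v
          rw [h5] at h6
          have h7 : (m - 2 ^ v).testBit v = false := by
            have h8 : m = 2 ^ v + (m - 2 ^ v) := by omega
            have h9 := Nat.testBit_two_pow_add_eq (m - 2 ^ v) v
            rw [← h8, hm] at h9
            simpa using h9.symm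
          rw [h7] at h6
          simp [hmem] at h6
        refine ⟨by simp [h1], List.nodup_cons.mpr ⟨hv', h2⟩, ?_, by simp, ?_⟩
        · cases t with
          | nil => simp at h1
          | cons b t =>
            simp only [List.head?_cons, Option.some.injEq] at h4
            subst h4
            exact List.isChain_cons_cons.mpr ⟨hw, h3⟩
        · have : mask (v :: t) = 2 ^ v + mask t := by simp [mask]
          rw [this, h5]; omega
      · simp at h
    · rintro ⟨h1, h2, h3, h4, h5⟩
      have hm : m.testBit v = true := by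
        rw [← h5, testBit_mask l h2]
        cases l with
        | nil => simp at h4
        | cons a t =>
          simp only [List.head?_cons, Option.some.injEq] at h4
          subst h4
          simp
      rw [if_pos hm, List.mem_flatMap]
      cases l with
      | nil => simp at h4
      | cons a t =>
        simp only [List.head?_cons, Option.some.injEq] at h4
        subst h4
        cases t with
        | nil => simp at h1
        | cons b t =>
          obtain ⟨hab, h3'⟩ := List.isChain_cons_cons.mp h3
          refine ⟨b, hab, ?_⟩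
          rw [List.mem_map]
          refine ⟨b :: t, ?_, rfl⟩
          rw [ih b _ ((hnb a).2 b hab)]
          refine ⟨by simpa using h1, (List.nodup_cons.mp h2).2, h3', rfl, ?_⟩
          have : mask (a :: b :: t) = 2 ^ a + mask (b :: t) := by simp [mask]
          rw [← h5, this]; omega

lemma nodup_L {N : ℕ} {nb : List (List ℕ)} (hnb : Good N nb) (k v m : ℕ) (hv : v < N) :
    (L nb k v m).Nodup := by
  induction k generalizing v m with
  | zero => simp only [L]; split_ifs <;> simp
  | succ k ih =>
    simp only [L]
    split_ifs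
    · rw [List.nodup_flatMap]
      refine ⟨fun w hw => (ih w _ ((hnb v).2 w hw)).map (List.cons_injective), ?_⟩
      have h1 := (hnb v).1
      refine List.Pairwise.imp_of_mem ?_ h1
      intro w w' hw hw' hne
      simp only [Function.onFun]
      intro l hl hl'
      rw [List.mem_map] at hl hl'
      obtain ⟨t, ht, rfl⟩ := hl
      obtain ⟨t', ht', h⟩ := hl'
      have h' : t' = t := by simpa using h
      subst h'
      have e1 := ((mem_L hnb k w _ ((hnb v).2 w hw) _).mp ht).2.2.2.1
      have e2 := ((mem_L hnb k w' _ ((hnb v).2 w' hw') _).mp ht').2.2.2.1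
      rw [e1] at e2
      exact hne (Option.some.inj e2)
    · simp

lemma length_nb {N : ℕ} {nb : List (List ℕ)} (hnb : Good N nb) (v : ℕ) :
    (nb.getD v []).length ≤ N := by
  have h1 := List.toFinset_card_of_nodup (hnb v).1
  rw [← h1, ← Finset.card_range N]
  apply Finset.card_le_card
  intro w hw
  rw [Finset.mem_range]
  exact (hnb v).2 w (List.mem_toFinset.mp hw)

lemma c_le {N : ℕ} {nb : List (List ℕ)} (hnb : Good N nb) (hN : 0 < N) (k v m : ℕ) :
    c nb k v m ≤ N ^ k := by
  induction k generalizing v m with
  | zero => simp only [c]; split_ifs <;> simp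
  | succ k ih =>
    simp only [c]
    split_ifs
    · calc ((nb.getD v []).map (fun w => c nb k w (m - 2 ^ v))).sum
          ≤ ((nb.getD v []).map (fun w => c nb k w (m - 2 ^ v))).length • N ^ k := by
            apply List.sum_le_card_nsmul
            intro x hx
            rw [List.mem_map] at hx
            obtain ⟨w, -, rfl⟩ := hx
            exact ih w _
        _ ≤ N ^ (k + 1) := by
            rw [List.length_map, smul_eq_mul, pow_succ, mul_comm]
            exact Nat.mul_le_mul_left _ (length_nb hnb v)
    · exact Nat.zero_le _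

lemma pack_list_sum {W n : ℕ} (l : List ℕ) (g : ℕ → ℕ → ℕ) :
    l.foldr (fun w s => pack W n (g w) + s) 0 = pack W n (fun m => (l.map (fun w => g w m)).sum) := by
  induction l with
  | nil => simp [pack_zero]
  | cons a l ih =>
    simp only [List.foldr_cons, ih, List.map_cons, List.sum_cons]
    rw [pack_add]

lemma H_eq {W N : ℕ} {nb : List (List ℕ)} (hnb : Good N nb) (hN : 0 < N)
    (hW : N ^ (N - 1) < 2 ^ W) (k : ℕ) (hk : k ≤ N - 1) (v : ℕ) (hv : v < N) :
    H W N nb k v = pack W N (c nb k v) := by
  induction k generalizing v with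
  | zero =>
    simp only [H]
    rw [← pack_single hv]
    rfl
  | succ k ih =>
    simp only [H]
    have h1 : (nb.getD v []).foldr (fun w s => H W N nb k w + s) 0 =
        (nb.getD v []).foldr (fun w s => pack W N (c nb k w) + s) 0 := by
      have : ∀ l : List ℕ, (∀ w ∈ l, w < N) → l.foldr (fun w s => H W N nb k w + s) 0 =
          l.foldr (fun w s => pack W N (c nb k w) + s) 0 := by
        intro l
        induction l with
        | nil => intro _; rfl
        | cons a l ih' =>
          intro hl
          simp only [List.foldr_cons]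
          rw [ih' (fun w hw => hl w (List.mem_cons_of_mem _ hw)),
            ih (by omega) a (hl a (List.mem_cons_self))]
      exact this _ (hnb v).2
    rw [h1, pack_list_sum, land_pack, shift_pack hv]
    · apply pack_congr
      intro m _
      simp only [c]
    · intro m _
      calc ((nb.getD v []).map (fun w => c nb k w m)).sum
          ≤ ((nb.getD v []).map (fun w => c nb k w m)).length • N ^ k := by
            apply List.sum_le_card_nsmul
            intro x hx
            rw [List.mem_map] at hx
            obtain ⟨w, -, rfl⟩ := hx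
            exact c_le hnb hN _ _ _
        _ ≤ N ^ (k + 1) := by
            rw [List.length_map, smul_eq_mul, pow_succ, mul_comm]
            exact Nat.mul_le_mul_left _ (length_nb hnb v)
        _ ≤ N ^ (N - 1) := Nat.pow_le_pow_right hN hk
        _ < 2 ^ W := hW

/-- A nodup list of length `N` whose code is `< 2^N` is a permutation of `{0, …, N-1}`. -/
lemma full {N m : ℕ} (hm : m < 2 ^ N) (l : List ℕ) (h1 : l.length = N) (h2 : l.Nodup)
    (h3 : mask l = m) : (∀ x ∈ l, x < N) ∧ m = 2 ^ N - 1 := by
  have hlt : ∀ x ∈ l, x < N := by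
    intro x hx
    have h4 := testBit_mask l h2 x
    rw [h3] at h4
    have h5 : m.testBit x = true := by rw [h4]; simp [hx]
    have h6 := le_of_testBit h5
    by_contra h7
    push Not at h7
    have h8 : 2 ^ N ≤ 2 ^ x := Nat.pow_le_pow_right (by norm_num) h7
    omega
  refine ⟨hlt, ?_⟩
  have hfin : l.toFinset = Finset.range N := by
    apply Finset.eq_of_subset_of_card_le
    · intro x hx
      rw [Finset.mem_range]
      exact hlt x (List.mem_toFinset.mp hx)
    · rw [List.toFinset_card_of_nodup h2, Finset.card_range, h1]
  apply Nat.eq_of_testBit_eq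
  intro i
  rw [← h3, testBit_mask l h2, Nat.testBit_two_pow_sub_one]
  have : i ∈ l ↔ i < N := by
    rw [← List.mem_toFinset, hfin, Finset.mem_range]
  simp [this]

lemma mask_full {N : ℕ} (l : List ℕ) (h1 : l.length = N) (h2 : l.Nodup) (h3 : ∀ x ∈ l, x < N) :
    mask l = 2 ^ N - 1 := by
  have hfin : l.toFinset = Finset.range N := by
    apply Finset.eq_of_subset_of_card_le
    · intro x hx
      rw [Finset.mem_range]
      exact h3 x (List.mem_toFinset.mp hx)
    · rw [List.toFinset_card_of_nodup h2, Finset.card_range, h1]
  apply Nat.eq_of_testBit_eq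
  intro i
  rw [testBit_mask l h2, Nat.testBit_two_pow_sub_one]
  have : i ∈ l ↔ i < N := by
    rw [← List.mem_toFinset, hfin, Finset.mem_range]
  simp [this]

/-- The Hamiltonian paths of the digraph `nb` on `{0, …, N-1}`. -/
def HamPaths (N : ℕ) (nb : List (List ℕ)) : Set (List ℕ) :=
  {l | l.length = N ∧ l.Nodup ∧ l.IsChain (fun x y => y ∈ nb.getD x []) ∧ ∀ x ∈ l, x < N}

/-- `total W N nb (N-1)` is the number of Hamiltonian paths, times a power of two. -/
theorem total_eq {W N : ℕ} {nb : List (List ℕ)} (hnb : Good N nb) (hN : 0 < N)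
    (hW : N ^ (N - 1) < 2 ^ W) :
    total W N nb (N - 1) = (HamPaths N nb).ncard * 2 ^ (W * (2 ^ N - 1)) := by
  classical
  let M := 2 ^ N - 1
  have htop : ∀ v, v < N → H W N nb (N - 1) v = c nb (N - 1) v M * 2 ^ (W * M) := by
    intro v hv
    rw [H_eq hnb hN hW (N - 1) le_rfl v hv]
    apply pack_top
    intro m hm hne
    rw [← length_L]
    by_contra h0
    obtain ⟨l, hl⟩ := List.exists_mem_of_length_pos (Nat.pos_of_ne_zero h0)
    obtain ⟨h1, h2, -, -, h5⟩ := (mem_L hnb (N - 1) v m hv l).mp hl
    exact hne (full hm l (by omega) h2 h5).2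
  have hsum : total W N nb (N - 1) =
      ((List.range N).map (fun v => c nb (N - 1) v M)).sum * 2 ^ (W * M) := by
    unfold total
    have : ∀ l : List ℕ, (∀ v ∈ l, v < N) →
        l.foldr (fun v s => H W N nb (N - 1) v + s) 0 =
          (l.map (fun v => c nb (N - 1) v M)).sum * 2 ^ (W * M) := by
      intro l
      induction l with
      | nil => intro _; simp
      | cons a l ih =>
        intro hl
        simp only [List.foldr_cons, List.map_cons, List.sum_cons]
        rw [ih (fun v hv => hl v (List.mem_cons_of_mem _ hv)), htop a (hl a (List.mem_cons_self)),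
          add_mul]
    exact this _ (fun v hv => List.mem_range.mp hv)
  let LL : List (List ℕ) := (List.range N).flatMap (fun v => L nb (N - 1) v M)
  have hLL : LL.Nodup := by
    rw [List.nodup_flatMap]
    refine ⟨fun v hv => nodup_L hnb _ _ _ (List.mem_range.mp hv), ?_⟩
    refine List.Pairwise.imp_of_mem ?_ List.nodup_range
    intro w w' hw hw' hne
    simp only [Function.onFun]
    intro l hl hl'
    have e1 := ((mem_L hnb _ w _ (List.mem_range.mp hw) _).mp hl).2.2.2.1
    have e2 := ((mem_L hnb _ w' _ (List.mem_range.mp hw') _).mp hl').2.2.2.1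
    rw [e1] at e2
    exact hne (Option.some.inj e2)
  have hset : HamPaths N nb = (LL.toFinset : Set (List ℕ)) := by
    ext l
    simp only [HamPaths, Set.mem_ofPred_eq, List.coe_toFinset]
    show _ ↔ l ∈ LL
    rw [List.mem_flatMap]
    constructor
    · rintro ⟨h1, h2, h3, h4⟩
      cases l with
      | nil => simp at h1; omega
      | cons a t =>
        have ha : a < N := h4 a List.mem_cons_self
        refine ⟨a, List.mem_range.mpr ha, (mem_L hnb _ a _ ha _).mpr ⟨by omega, h2, h3, rfl, ?_⟩⟩
        exact mask_full _ h1 h2 h4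
    · rintro ⟨v, hv, hl⟩
      obtain ⟨h1, h2, h3, h4, h5⟩ := (mem_L hnb _ v _ (List.mem_range.mp hv) _).mp hl
      have hM : M < 2 ^ N := by
        have : 0 < 2 ^ N := by positivity
        omega
      exact ⟨by omega, h2, h3, (full hM l (by omega) h2 h5).1⟩
  have hcard : (HamPaths N nb).ncard = ((List.range N).map (fun v => c nb (N - 1) v M)).sum := by
    rw [hset, Set.ncard_coe_finset, List.toFinset_card_of_nodup hLL, List.length_flatMap]
    congr 1
    apply List.map_congr_left
    intro v _
    exact length_L nb _ _ _
  rw [hsum, hcard]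

end Pool.Agent.Q121.HamCount
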