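import Mathlib
import Pool.Agent.Q127.KI.Stm2

/-!
# Project KI2 (helper127), JOB DIC: the dichotomy for orbits in the cube
-/

set_option autoImplicit false

namespace Pool.Agent.Q121.KI2_DIC

open Filter Topology

theorem dic : Pool.Agent.Q127.KI.S_dic := by
  intro d t F K hc hb hf hm hs ho v hv
  by_cases hK : Tendsto (fun n => Metric.infDist (F^[n] v) K) atTop (𝓝 0)
  · exact Or.inr hK
  left
  have hsucc : ∀ n : ℕ, F^[n + 1] v = F (F^[n] v) := fun n => Function.iterate_succ_apply' F n v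
  have hnorm : ∀ n : ℕ, ‖F^[n] v‖ < 1 := by
    intro n
    induction n with
    | zero => simpa using hv
    | succ n ih => rw [hsucc]; exact hb _ ih
  have hmono : Monotone (fun n : ℕ => F^[n] v t) := by
    apply monotone_nat_of_le_succ
    intro n
    show F^[n] v t ≤ F^[n + 1] v t
    rw [hsucc]
    exact hm _
  have hbdd : BddAbove (Set.range (fun n : ℕ => F^[n] v t)) := by
    refine ⟨1, ?_⟩
    rintro _ ⟨n, rfl⟩
    have h1 := norm_le_pi_norm (F^[n] v) t
    have h2 := hnorm n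
    have h3 : F^[n] v t ≤ ‖F^[n] v t‖ := Real.le_norm_self _
    show F^[n] v t ≤ 1
    linarith
  obtain ⟨T, hT⟩ : ∃ T, Tendsto (fun n : ℕ => F^[n] v t) atTop (𝓝 T) :=
    ⟨_, tendsto_atTop_ciSup hmono hbdd⟩
  have hleT : ∀ n : ℕ, F^[n] v t ≤ T := fun n => hmono.ge_of_tendsto hT n
  -- the frequently statement
  have hfreq : ∃ ε : ℝ, 0 < ε ∧ ∃ᶠ n in atTop, ε ≤ Metric.infDist (F^[n] v) K := by
    rw [Metric.tendsto_atTop] at hK
    push Not at hK
    obtain ⟨ε, hε, h⟩ := hK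
    refine ⟨ε, hε, ?_⟩
    rw [Filter.frequently_atTop]
    intro a
    obtain ⟨n, hn, h2⟩ := h a
    refine ⟨n, hn, ?_⟩
    rwa [Real.dist_eq, sub_zero, abs_of_nonneg Metric.infDist_nonneg] at h2
  obtain ⟨ε, hε, hfr⟩ := hfreq
  obtain ⟨φ, hφ, hφ2⟩ := Filter.extraction_of_frequently_atTop hfr
  have hmem : ∀ n : ℕ, F^[φ n] v ∈ Metric.closedBall (0 : Fin d → ℝ) 1 := by
    intro n
    rw [mem_closedBall_zero_iff]
    exact (hnorm _).le
  obtain ⟨z, hz, ψ, hψ, hlim⟩ := (isCompact_closedBall (0 : Fin d → ℝ) 1).tendsto_subseq hmem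
  have hz1 : ‖z‖ ≤ 1 := by rwa [mem_closedBall_zero_iff] at hz
  have hsub : Tendsto (fun n => φ (ψ n)) atTop atTop := hφ.tendsto_atTop.comp hψ.tendsto_atTop
  have hlim' : Tendsto (fun n => F^[φ (ψ n)] v) atTop (𝓝 z) := hlim
  have hzK : z ∉ K := by
    intro hzK
    have h1 : Tendsto (fun n => Metric.infDist (F^[φ (ψ n)] v) K) atTop (𝓝 (Metric.infDist z K)) :=
      ((Metric.continuous_infDist_pt K).tendsto z).comp hlim'
    have h2 : ε ≤ Metric.infDist z K := ge_of_tendsto' h1 (fun n => hφ2 (ψ n))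
    rw [Metric.infDist_zero_of_mem hzK] at h2
    linarith
  have hzT : z t = T := by
    have h1 : Tendsto (fun n => F^[φ (ψ n)] v t) atTop (𝓝 (z t)) :=
      ((continuous_apply t).tendsto z).comp hlim'
    exact tendsto_nhds_unique h1 (hT.comp hsub)
  have hFzT : F z t = T := by
    have h1 : Tendsto (fun n => F (F^[φ (ψ n)] v) t) atTop (𝓝 (F z t)) :=
      (((continuous_apply t).comp hc).tendsto z).comp hlim'
    have h2 : Tendsto (fun n => F^[φ (ψ n) + 1] v t) atTop (𝓝 T) :=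
      hT.comp ((tendsto_add_atTop_nat 1).comp hsub)
    have h3 : (fun n => F^[φ (ψ n) + 1] v t) = fun n => F (F^[φ (ψ n)] v) t := by
      funext n; rw [hsucc]
    rw [h3] at h2
    exact tendsto_nhds_unique h1 h2
  have hznorm : 1 ≤ ‖z‖ := by
    by_contra hlt
    push Not at hlt
    have := hs z hlt hzK
    rw [hFzT, hzT] at this
    exact lt_irrefl _ this
  refine ⟨z, hf z hznorm, ?_⟩
  rw [Metric.tendsto_atTop]
  intro r hr
  set e : ℝ := min (r / 2) (1 / 4) with he
  have he0 : 0 < e := by rw [he]; exact lt_min (by linarith) (by norm_num)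
  have he1 : e ≤ r / 2 := min_le_left _ _
  have he2 : e ≤ 1 / 4 := min_le_right _ _
  obtain ⟨n1, hn1⟩ := (Metric.tendsto_atTop.mp hlim') e he0
  set n0 : ℕ := φ (ψ n1) with hn0
  have hclose : ‖F^[n0] v - z‖ < e := by
    have := hn1 n1 le_rfl
    rwa [dist_eq_norm] at this
  have key : ∀ m : ℕ, n0 ≤ m → (∀ i, i ≠ t → F^[m] v i = F^[n0] v i) → ‖F^[m] v - z‖ ≤ e := by
    intro m hm1 hi
    rw [pi_norm_le_iff_of_nonneg he0.le]
    intro i
    by_cases hit : i = t
    · subst hit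
      have h1 : F^[n0] v i ≤ F^[m] v i := hmono hm1
      have h2 : F^[m] v i ≤ T := hleT m
      have h3 := norm_le_pi_norm (F^[n0] v - z) i
      rw [Pi.sub_apply, Real.norm_eq_abs] at h3
      rw [Pi.sub_apply, Real.norm_eq_abs, abs_le]
      have h4 := (abs_le.mp h3).1
      rw [hzT] at h4 ⊢
      constructor <;> linarith
    · have h3 := norm_le_pi_norm (F^[n0] v - z) i
      rw [Pi.sub_apply] at h3 ⊢
      rw [hi i hit]
      linarith
  have hind : ∀ m : ℕ, n0 ≤ m → ∀ i, i ≠ t → F^[m] v i = F^[n0] v i := by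
    intro m hm1
    induction m, hm1 using Nat.le_induction with
    | base => intro i _; rfl
    | succ m hm1 ih =>
      intro i hi
      have h1 := key m hm1 ih
      have h2 : ‖z‖ ≤ ‖F^[m] v‖ + ‖F^[m] v - z‖ := by
        have h3 : z = F^[m] v - (F^[m] v - z) := by abel
        calc ‖z‖ = ‖F^[m] v - (F^[m] v - z)‖ := by rw [← h3]
          _ ≤ ‖F^[m] v‖ + ‖F^[m] v - z‖ := norm_sub_le _ _
      rw [hsucc, ho (F^[m] v) (by linarith) i hi]
      exact ih i hi
  refine ⟨n0, ?_⟩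
  intro m hm1
  rw [dist_eq_norm]
  have := key m hm1 (hind m hm1)
  linarith

end Pool.Agent.Q121.KI2_DIC
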