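import Pool.Agent.Q127.KI.Stm

set_option autoImplicit false

/-!
Project KI, JOB SUB.
-/

open Pool.Agent.Q127.KI

namespace Pool.Agent.Q121.KI_SUB

theorem sub : S_sub := by
  intro k w a s h j i hi
  have hL := L_pos k
  have hlt : (j : ℕ) * L k + i < L (k + 1) := by
    show (j : ℕ) * L k + i < N k * L k
    have h1 : ((j : ℕ) + 1) * L k ≤ N k * L k := Nat.mul_le_mul_right _ j.2
    rw [Nat.add_mul, Nat.one_mul] at h1
    omega
  have h1 := h ((j : ℕ) * L k + i) hlt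
  have e1 : ((j : ℕ) * L k + i) / L k = j := by
    rw [Nat.add_comm, Nat.add_mul_div_right _ _ hL, Nat.div_eq_of_lt hi, Nat.zero_add]
  have e2 : ((j : ℕ) * L k + i) % L k = i := by
    rw [Nat.add_comm, Nat.add_mul_mod_self_right, Nat.mod_eq_of_lt hi]
  have e3 : (⟨((j : ℕ) * L k + i) / L k % N k, Nat.mod_lt _ (N_pos k)⟩ : Fin (N k)) = j := by
    apply Fin.ext
    show ((j : ℕ) * L k + i) / L k % N k = j
    rw [e1, Nat.mod_eq_of_lt j.2]
  have e4 : ex (k + 1) s ((j : ℕ) * L k + i) = ex k (e k s j) i := by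
    show ex k (e k s ⟨((j : ℕ) * L k + i) / L k % N k, Nat.mod_lt _ (N_pos k)⟩)
      (((j : ℕ) * L k + i) % L k) = ex k (e k s j) i
    rw [e3, e2]
  rw [e4] at h1
  rw [← h1]
  congr 1
  push_cast
  ring

end Pool.Agent.Q121.KI_SUB
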