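import Pool.Agent.Q88.MD.Stm

set_option autoImplicit false

/-!
# Project MD, job ENC (helper121)
-/

open MeasureTheory Set Filter Topology

namespace Pool.Agent.Q121.MD

open Pool.Agent.Q88.MD

theorem enc_half {p r : ℝ} (hp : p ∈ Icc (0 : ℝ) 2⁻¹) (hr : r ∈ Icc (0 : ℝ) 2⁻¹) :
    (Real.binEntropy p ≤ Real.binEntropy r ↔ p * (1 - p) ≤ r * (1 - r)) := by
  rw [Real.binEntropy_strictMonoOn.le_iff_le hp hr]
  obtain ⟨hp0, hp1⟩ := hp
  obtain ⟨hr0, hr1⟩ := hr
  norm_num at hp1 hr1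
  constructor
  · intro h
    nlinarith
  · intro h
    by_contra hlt
    push Not at hlt
    nlinarith

theorem enc : S_enc := by
  intro p hp r hr
  obtain ⟨hp0, hp1⟩ := hp
  obtain ⟨hr0, hr1⟩ := hr
  have h2 : (2 : ℝ)⁻¹ = 1 / 2 := by norm_num
  rcases le_total p (1 / 2) with hp2 | hp2 <;> rcases le_total r (1 / 2) with hr2 | hr2
  · exact enc_half ⟨hp0.le, by rw [h2]; exact hp2⟩ ⟨hr0.le, by rw [h2]; exact hr2⟩
  · have h := enc_half (p := p) (r := 1 - r) ⟨hp0.le, by rw [h2]; exact hp2⟩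
      ⟨by linarith, by rw [h2]; linarith⟩
    rw [Real.binEntropy_one_sub, show (1 - r) * (1 - (1 - r)) = r * (1 - r) by ring] at h
    exact h
  · have h := enc_half (p := 1 - p) (r := r) ⟨by linarith, by rw [h2]; linarith⟩
      ⟨hr0.le, by rw [h2]; exact hr2⟩
    rw [Real.binEntropy_one_sub, show (1 - p) * (1 - (1 - p)) = p * (1 - p) by ring] at h
    exact h
  · have h := enc_half (p := 1 - p) (r := 1 - r) ⟨by linarith, by rw [h2]; linarith⟩
      ⟨by linarith, by rw [h2]; linarith⟩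
    rw [Real.binEntropy_one_sub, Real.binEntropy_one_sub,
      show (1 - p) * (1 - (1 - p)) = p * (1 - p) by ring,
      show (1 - r) * (1 - (1 - r)) = r * (1 - r) by ring] at h
    exact h

end Pool.Agent.Q121.MD
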