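import Pool.Agent.Q88.MD.Stm

set_option autoImplicit false

/-!
# Project MD, job PZG (helper121)
-/

open MeasureTheory Set Filter Topology

namespace Pool.Agent.Q121.MD

open Pool.Agent.Q88.MD

/-- the test polynomial -/
theorem pzg_poly {a d c x M : ℝ} (hd : 0 < d) (ha : 0 < a) (had : 1 ≤ d * a ^ 2) (hc : 0 < c)
    (hM : M = a + (a + 1) ^ 2 / (4 * d)) :
    a * x + x ^ 2 - d * x ^ 4 - (a * c + c ^ 2) ≤ if c ≤ x then M else 0 := by
  split_ifs with h
  · have hx : 0 < x := lt_of_lt_of_le hc h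
    have h1 : (a + 1) * x ^ 2 - d * x ^ 4 ≤ (a + 1) ^ 2 / (4 * d) := by
      rw [le_div_iff₀ (by positivity)]
      nlinarith [sq_nonneg (a + 1 - 2 * d * x ^ 2)]
    have h2 : a * x ≤ a + a * x ^ 2 := by nlinarith [sq_nonneg (x - 1)]
    have h3 : 0 < a * c + c ^ 2 := by positivity
    linarith
  · push Not at h
    rcases le_total x 0 with hx | hx
    · -- `y = -x`
      have h1 : x ^ 2 ≤ a * (-x) + d * x ^ 4 := by
        rcases le_total (-x) a with hy | hy
        · have h2 : 0 ≤ d * x ^ 4 := by positivity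
          nlinarith
        · have h2 : a ^ 2 ≤ x ^ 2 := by nlinarith
          have h3 : 1 ≤ d * x ^ 2 := had.trans (mul_le_mul_of_nonneg_left h2 hd.le)
          have h4 : x ^ 2 ≤ d * x ^ 4 := by nlinarith [sq_nonneg x]
          have h5 : 0 ≤ a * (-x) := mul_nonneg ha.le (by linarith)
          linarith
      have h3 : 0 < a * c + c ^ 2 := by positivity
      linarith
    · have h1 : a * x ≤ a * c := mul_le_mul_of_nonneg_left h.le ha.le
      have h2 : x ^ 2 ≤ c ^ 2 := pow_le_pow_left₀ hx h.le 2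
      have h3 : 0 ≤ d * x ^ 4 := by positivity
      linarith

theorem pzg (h : S_spos) (h1 : S_mm1) (h2 : S_mm2) (h4 : S_mm4) : S_pzg := by
  intro g lam q hg hlam hgq heq ε hε
  obtain ⟨C1, hC1, hm1⟩ := h1 g lam q hg hlam hgq heq
  obtain ⟨c2, hc2, C2, hC2, hm2⟩ := h2 g lam q hg hlam hgq heq
  obtain ⟨C4, hC4, hm4⟩ := h4 g lam q hg hlam hgq heq
  have hs := h g lam q hg hlam.le hgq.le
  obtain ⟨d, hd⟩ : ∃ d, d = c2 / (16 * C4) := ⟨_, rfl⟩
  have hd0 : 0 < d := by rw [hd]; positivity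
  obtain ⟨a, ha⟩ : ∃ a, a = 1 + 1 / d := ⟨_, rfl⟩
  have ha0 : 0 < a := by rw [ha]; positivity
  have had : 1 ≤ d * a ^ 2 := by
    have e : d * a ^ 2 = d + 2 + 1 / d := by
      rw [ha]
      field_simp
      ring
    have : 0 < 1 / d := by positivity
    rw [e]
    linarith
  obtain ⟨M, hM⟩ : ∃ M, M = a + (a + 1) ^ 2 / (4 * d) := ⟨_, rfl⟩
  have hM0 : 0 < M := by rw [hM]; positivity
  obtain ⟨c0, hc0⟩ : ∃ c0, c0 = min 1 (c2 / (4 * (a + 1))) := ⟨_, rfl⟩
  have hc00 : 0 < c0 := by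
    rw [hc0]
    exact lt_min one_pos (by positivity)
  have he : a * c0 + c0 ^ 2 ≤ c2 / 4 := by
    have e1 : c0 ≤ 1 := by rw [hc0]; exact min_le_left _ _
    have e2 : c0 ≤ c2 / (4 * (a + 1)) := by rw [hc0]; exact min_le_right _ _
    have e3 : c0 * (4 * (a + 1)) ≤ c2 := (le_div_iff₀ (by positivity)).1 e2
    nlinarith
  obtain ⟨c, hc⟩ : ∃ c, c = min c0 (c2 / (4 * M)) := ⟨_, rfl⟩
  have hc' : 0 < c := by
    rw [hc]
    exact lt_min hc00 (by positivity)
  refine ⟨c, hc', ?_⟩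
  filter_upwards [eventually_ge_atTop 1, eventually_ge_atTop ⌈(8 * a * C1 / c2) ^ 2⌉₊,
    eventually_ge_atTop ⌈8 * C2 / c2⌉₊] with n hn1 hn2 hn3
  have hn0 : (0 : ℝ) < n := by exact_mod_cast hn1
  have hn1' : (1 : ℝ) ≤ n := by exact_mod_cast hn1
  obtain ⟨s, hsdef⟩ : ∃ s, s = Real.sqrt n := ⟨_, rfl⟩
  have hs0 : 0 < s := by rw [hsdef]; exact Real.sqrt_pos.2 hn0
  have hs2 : s ^ 2 = n := by rw [hsdef]; exact Real.sq_sqrt hn0.le
  have hsn : 8 * a * C1 / c2 ≤ s := by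
    rw [hsdef]
    exact Real.le_sqrt_of_sq_le (Nat.ceil_le.1 hn2)
  have hn3' : 8 * C2 / c2 ≤ n := Nat.ceil_le.1 hn3
  have hε2 : ε ^ 2 = 1 := by
    rcases hε with rfl | rfl <;> norm_num
  have hε4 : ε ^ 4 = 1 := by
    rcases hε with rfl | rfl <;> norm_num
  -- the expectation of the test polynomial
  have hsum : ∑ k ∈ Finset.range (2 ^ n), ms g lam q n k *
      (a * (ε * WW lam n k / s) + (ε * WW lam n k / s) ^ 2 - d * (ε * WW lam n k / s) ^ 4 -
        (a * c0 + c0 ^ 2)) =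
      a * ε / s * (∑ k ∈ Finset.range (2 ^ n), ms g lam q n k * WW lam n k) +
      1 / n * (∑ k ∈ Finset.range (2 ^ n), ms g lam q n k * WW lam n k ^ 2) -
      d / n ^ 2 * (∑ k ∈ Finset.range (2 ^ n), ms g lam q n k * WW lam n k ^ 4) -
      (a * c0 + c0 ^ 2) * ∑ k ∈ Finset.range (2 ^ n), ms g lam q n k := by
    rw [Finset.mul_sum, Finset.mul_sum, Finset.mul_sum, Finset.mul_sum, ← Finset.sum_add_distrib,
      ← Finset.sum_sub_distrib, ← Finset.sum_sub_distrib]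
    apply Finset.sum_congr rfl
    intro k _
    have e1 : (ε * WW lam n k / s) ^ 2 = WW lam n k ^ 2 / n := by
      rw [div_pow, mul_pow, hε2, hs2, one_mul]
    have e2 : (ε * WW lam n k / s) ^ 4 = WW lam n k ^ 4 / n ^ 2 := by
      rw [div_pow, mul_pow, hε4, one_mul, show s ^ 4 = (s ^ 2) ^ 2 by ring, hs2]
    rw [e1, e2]
    ring
  have hS1 := hm1 n
  have hS2 := (hm2 n).1
  have hS4 := hm4 n
  obtain ⟨S1, hS1d⟩ : ∃ S, S = ∑ k ∈ Finset.range (2 ^ n), ms g lam q n k * WW lam n k := ⟨_, rfl⟩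
  obtain ⟨S2, hS2d⟩ : ∃ S, S = ∑ k ∈ Finset.range (2 ^ n), ms g lam q n k * WW lam n k ^ 2 :=
    ⟨_, rfl⟩
  obtain ⟨S4, hS4d⟩ : ∃ S, S = ∑ k ∈ Finset.range (2 ^ n), ms g lam q n k * WW lam n k ^ 4 :=
    ⟨_, rfl⟩
  rw [← hS1d] at hS1
  rw [← hS2d] at hS2
  rw [← hS4d] at hS4
  rw [← hS1d, ← hS2d, ← hS4d, (hs n).2, mul_one] at hsum
  have b1 : -(c2 / 8) ≤ a * ε / s * S1 := by
    have hεS : |ε * S1| ≤ C1 := by
      rw [abs_mul]
      have : |ε| = 1 := by
        rcases hε with rfl | rfl <;> norm_num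
      rw [this, one_mul]
      exact hS1
    have h3 : a * C1 / s ≤ c2 / 8 := by
      rw [div_le_iff₀ hs0]
      have := (div_le_iff₀ hc2).1 hsn
      linarith
    have h4 : a * ε / s * S1 = a / s * (ε * S1) := by ring
    rw [h4]
    have h5 : -C1 ≤ ε * S1 := (abs_le.1 hεS).1
    have h6 : a / s * (-C1) ≤ a / s * (ε * S1) := mul_le_mul_of_nonneg_left h5 (by positivity)
    have h7 : a / s * (-C1) = -(a * C1 / s) := by ring
    linarith
  have b2 : c2 - c2 / 8 ≤ 1 / n * S2 := by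
    have h3 : C2 / n ≤ c2 / 8 := by
      rw [div_le_iff₀ hn0]
      have := (div_le_iff₀ hc2).1 hn3'
      linarith
    have h4 : 1 / (n : ℝ) * (c2 * n - C2) ≤ 1 / n * S2 :=
      mul_le_mul_of_nonneg_left hS2 (by positivity)
    have h5 : 1 / (n : ℝ) * (c2 * n - C2) = c2 - C2 / n := by
      field_simp
    linarith
  have b4 : d / n ^ 2 * S4 ≤ c2 / 4 := by
    have h3 : S4 ≤ C4 * (4 * n ^ 2) := by
      refine hS4.trans (mul_le_mul_of_nonneg_left ?_ hC4.le)
      nlinarith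
    have h4 : d / n ^ 2 * S4 ≤ d / n ^ 2 * (C4 * (4 * n ^ 2)) :=
      mul_le_mul_of_nonneg_left h3 (by positivity)
    have h5 : d / (n : ℝ) ^ 2 * (C4 * (4 * n ^ 2)) = c2 / 4 := by
      rw [hd]
      field_simp
      ring
    linarith
  have hlow : c2 / 4 ≤ ∑ k ∈ Finset.range (2 ^ n), ms g lam q n k *
      (a * (ε * WW lam n k / s) + (ε * WW lam n k / s) ^ 2 - d * (ε * WW lam n k / s) ^ 4 -
        (a * c0 + c0 ^ 2)) := by
    rw [hsum]
    linarith
  have hup : ∑ k ∈ Finset.range (2 ^ n), ms g lam q n k *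
      (a * (ε * WW lam n k / s) + (ε * WW lam n k / s) ^ 2 - d * (ε * WW lam n k / s) ^ 4 -
        (a * c0 + c0 ^ 2)) ≤
      M * ∑ k ∈ (Finset.range (2 ^ n)).filter (fun k => c * Real.sqrt n ≤ ε * WW lam n k),
        ms g lam q n k := by
    rw [Finset.mul_sum, Finset.sum_filter]
    apply Finset.sum_le_sum
    intro k _
    have hp := ((hs n).1 k).2
    have h3 := pzg_poly (x := ε * WW lam n k / s) hd0 ha0 had hc00 hM
    have h4 : (if c0 ≤ ε * WW lam n k / s then M else 0) ≤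
        if c * Real.sqrt n ≤ ε * WW lam n k then M else 0 := by
      split_ifs with i1 i2 i2
      · exact le_rfl
      · exfalso
        apply i2
        rw [le_div_iff₀ hs0] at i1
        rw [← hsdef]
        refine le_trans (mul_le_mul_of_nonneg_right ?_ hs0.le) i1
        rw [hc]
        exact min_le_left _ _
      · exact hM0.le
      · exact le_rfl
    have h5 := mul_le_mul_of_nonneg_left (h3.trans h4) hp.le
    refine h5.trans (le_of_eq ?_)
    split_ifs
    · ring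
    · ring
  have hfin : c2 / (4 * M) ≤
      ∑ k ∈ (Finset.range (2 ^ n)).filter (fun k => c * Real.sqrt n ≤ ε * WW lam n k),
        ms g lam q n k := by
    rw [div_le_iff₀ (by positivity)]
    linarith
  refine le_trans ?_ hfin
  rw [hc]
  exact min_le_right _ _

end Pool.Agent.Q121.MD
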