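import Pool.Agent.Q61.MH.Stm

set_option autoImplicit false

/-!
Project MH, JOB CROSS.
-/

open Real
open Pool.Agent.Q61.MH

namespace Pool.Agent.Q121.MH_CROSS

theorem tangent {x y l : ℝ} (hx : 0 < x) (hy : 0 ≤ y) (hl : 1 ≤ l) :
    x ^ l + l * x ^ (l - 1) * (y - x) ≤ y ^ l := by
  have hs : -1 ≤ y / x - 1 := by
    have := div_nonneg hy hx.le
    linarith
  have h := one_add_mul_self_le_rpow_one_add hs hl
  have e1 : 1 + (y / x - 1) = y / x := by ring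
  rw [e1, Real.div_rpow hy hx.le] at h
  have hxl : 0 < x ^ l := Real.rpow_pos_of_pos hx l
  rw [le_div_iff₀ hxl] at h
  rw [Real.rpow_sub_one hx.ne']
  refine le_trans (le_of_eq ?_) h
  field_simp

theorem P_eq (m : ℕ) (r : ℝ) : P (m + 1) r =
    ((2 * (m : ℝ) + 3) * (m + 1)) ^ r - ((2 * (m : ℝ) + 1) * (m + 2)) ^ r
      - ∑ i ∈ Finset.range m, (((2 * (m : ℝ) + 1) * ((i : ℝ) + 2)) ^ r
        - ((2 * (m : ℝ) + 3) * ((i : ℝ) + 1)) ^ r) - (2 * (m : ℝ) + 1) ^ r := by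
  have h1 : ∀ i : ℕ, ((2 * (m : ℝ) + 1) * ((i : ℝ) + 2)) ^ r
      = (2 * (m : ℝ) + 1) ^ r * ((i : ℝ) + 2) ^ r := fun i =>
    Real.mul_rpow (by positivity) (by positivity)
  have h2 : ∀ i : ℕ, ((2 * (m : ℝ) + 3) * ((i : ℝ) + 1)) ^ r
      = (2 * (m : ℝ) + 3) ^ r * ((i : ℝ) + 1) ^ r := fun i =>
    Real.mul_rpow (by positivity) (by positivity)
  simp only [h1, h2]
  rw [Finset.sum_sub_distrib, ← Finset.mul_sum, ← Finset.mul_sum]
  have hS1 : S (m + 1) r = ∑ i ∈ Finset.range m, ((i : ℝ) + 1) ^ r + ((m : ℝ) + 1) ^ r := by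
    unfold S
    rw [Finset.sum_range_succ]
  have hS2 : S (m + 1 + 1) r = ∑ i ∈ Finset.range m, ((i : ℝ) + 2) ^ r + 1
      + ((m : ℝ) + 2) ^ r := by
    unfold S
    rw [Finset.sum_range_succ, Finset.sum_range_succ']
    push_cast
    rw [zero_add, Real.one_rpow]
    congr 1
    · congr 1
      refine Finset.sum_congr rfl fun i _ => ?_
      congr 1
      ring
    · congr 1
      ring
  unfold P
  rw [hS1, hS2]
  push_cast
  rw [show 2 * ((m : ℝ) + 1) + 1 = 2 * (m : ℝ) + 3 by ring,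
    show 2 * ((m : ℝ) + 1) - 1 = 2 * (m : ℝ) + 1 by ring]
  ring

theorem cross : S_cross := by
  intro k hk r r' hr hrr' hP
  obtain ⟨m, rfl⟩ : ∃ m, k = m + 1 := ⟨k - 1, by omega⟩
  rw [P_eq] at hP ⊢
  set lam : ℝ := r' / r with hlam
  have hl : 1 < lam := by rw [hlam, one_lt_div hr]; exact hrr'
  have hpow : ∀ x : ℝ, 0 ≤ x → x ^ r' = (x ^ r) ^ lam := by
    intro x hx
    rw [← Real.rpow_mul hx, hlam, mul_div_cancel₀ _ hr.ne']
  have hm : (0 : ℝ) ≤ m := Nat.cast_nonneg m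
  set t : ℝ := ((2 * (m : ℝ) + 1) * (m + 2)) ^ r with ht
  set X : ℝ := ((2 * (m : ℝ) + 3) * (m + 1)) ^ r with hX
  set c : ℝ := (2 * (m : ℝ) + 1) ^ r with hc
  have ht0 : 0 < t := Real.rpow_pos_of_pos (by positivity) r
  have hc0 : 0 < c := Real.rpow_pos_of_pos (by positivity) r
  have hX0 : 0 < X := Real.rpow_pos_of_pos (by positivity) r
  have hct : c ≤ t := by
    apply Real.rpow_le_rpow (by positivity) _ hr.le
    nlinarith
  have hL0 : 0 < t ^ (lam - 1) := Real.rpow_pos_of_pos ht0 _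
  have e1 : ((2 * (m : ℝ) + 1) * (m + 2)) ^ r' = t ^ lam := hpow _ (by positivity)
  have e2 : ((2 * (m : ℝ) + 3) * (m + 1)) ^ r' = X ^ lam := hpow _ (by positivity)
  have e3 : (2 * (m : ℝ) + 1) ^ r' = c ^ lam := hpow _ (by positivity)
  have hsum : ∑ i ∈ Finset.range m, (((2 * (m : ℝ) + 1) * ((i : ℝ) + 2)) ^ r'
        - ((2 * (m : ℝ) + 3) * ((i : ℝ) + 1)) ^ r') ≤
      lam * t ^ (lam - 1) * ∑ i ∈ Finset.range m, (((2 * (m : ℝ) + 1) * ((i : ℝ) + 2)) ^ r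
        - ((2 * (m : ℝ) + 3) * ((i : ℝ) + 1)) ^ r) := by
    rw [Finset.mul_sum]
    refine Finset.sum_le_sum fun i hi => ?_
    have him : i + 1 ≤ m := Finset.mem_range.1 hi
    have him' : (i : ℝ) + 1 ≤ m := by exact_mod_cast him
    have hi0 : (0 : ℝ) ≤ i := Nat.cast_nonneg i
    rw [hpow ((2 * (m : ℝ) + 1) * ((i : ℝ) + 2)) (by positivity),
      hpow ((2 * (m : ℝ) + 3) * ((i : ℝ) + 1)) (by positivity)]
    have ha0 : 0 < ((2 * (m : ℝ) + 1) * ((i : ℝ) + 2)) ^ r :=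
      Real.rpow_pos_of_pos (by positivity) r
    have hb0 : 0 < ((2 * (m : ℝ) + 3) * ((i : ℝ) + 1)) ^ r :=
      Real.rpow_pos_of_pos (by positivity) r
    have hba : ((2 * (m : ℝ) + 3) * ((i : ℝ) + 1)) ^ r ≤ ((2 * (m : ℝ) + 1) * ((i : ℝ) + 2)) ^ r := by
      apply Real.rpow_le_rpow (by positivity) _ hr.le
      nlinarith
    have hat : ((2 * (m : ℝ) + 1) * ((i : ℝ) + 2)) ^ r ≤ t := by
      apply Real.rpow_le_rpow (by positivity) _ hr.le
      apply mul_le_mul_of_nonneg_left _ (by positivity)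
      linarith
    generalize ((2 * (m : ℝ) + 1) * ((i : ℝ) + 2)) ^ r = a at *
    generalize ((2 * (m : ℝ) + 3) * ((i : ℝ) + 1)) ^ r = b at *
    have h1 := tangent (l := lam) ha0 hb0.le hl.le
    have h2 : a ^ (lam - 1) ≤ t ^ (lam - 1) :=
      Real.rpow_le_rpow ha0.le hat (by linarith)
    have h3 : lam * a ^ (lam - 1) * (a - b) ≤ lam * t ^ (lam - 1) * (a - b) := by
      apply mul_le_mul_of_nonneg_right _ (by linarith)
      apply mul_le_mul_of_nonneg_left h2 (by linarith)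
    have h4 : lam * a ^ (lam - 1) * (b - a) = - (lam * a ^ (lam - 1) * (a - b)) := by ring
    linarith
  have hX1 := tangent (l := lam) ht0 hX0.le hl.le
  have hc1 : c ^ lam < lam * t ^ (lam - 1) * c := by
    have h1 : c ^ lam = c ^ (lam - 1) * c := by
      rw [Real.rpow_sub_one hc0.ne']
      field_simp
    have h2 : c ^ (lam - 1) ≤ t ^ (lam - 1) := Real.rpow_le_rpow hc0.le hct (by linarith)
    rw [h1]
    apply mul_lt_mul_of_pos_right _ hc0
    nlinarith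
  rw [e1, e2, e3]
  have hfin : 0 ≤ lam * t ^ (lam - 1) * (X - t - ∑ i ∈ Finset.range m,
      (((2 * (m : ℝ) + 1) * ((i : ℝ) + 2)) ^ r
        - ((2 * (m : ℝ) + 3) * ((i : ℝ) + 1)) ^ r) - c) :=
    mul_nonneg (by positivity) hP
  have hexp : lam * t ^ (lam - 1) * (X - t - ∑ i ∈ Finset.range m,
      (((2 * (m : ℝ) + 1) * ((i : ℝ) + 2)) ^ r
        - ((2 * (m : ℝ) + 3) * ((i : ℝ) + 1)) ^ r) - c) =
      lam * t ^ (lam - 1) * (X - t) - lam * t ^ (lam - 1) * ∑ i ∈ Finset.range m,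
      (((2 * (m : ℝ) + 1) * ((i : ℝ) + 2)) ^ r
        - ((2 * (m : ℝ) + 3) * ((i : ℝ) + 1)) ^ r) - lam * t ^ (lam - 1) * c := by ring
  linarith

end Pool.Agent.Q121.MH_CROSS
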