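import Pool.Agent.Q88.MK.Stm

/-!
# Project MK (helper88), job TEL: a telescoping product
-/

set_option autoImplicit false

namespace Pool.Agent.Q121.MK

open Pool.Agent.Q88.MK

theorem tel : S_tel := by
  intro b k₀ K hb hK
  have hb' : (1 : ℝ) ≤ b := by exact_mod_cast hb
  induction K, hK using Nat.le_induction with
  | base =>
    have h0 : (k₀ : ℝ) + b ≠ 0 := by positivity
    rw [Finset.Ico_self, Finset.prod_empty, div_self h0, one_pow]
  | succ K hK ih =>
    rw [Finset.prod_Ico_succ_top hK]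
    have h1 : (0 : ℝ) < (K : ℝ) + 1 + b := by positivity
    have h2 : (0 : ℝ) < (K : ℝ) + b := by positivity
    have h3 : ((K : ℝ) + 1) / ((K : ℝ) + 1 + b) ≤ (((K : ℝ) + b) / ((K : ℝ) + 1 + b)) ^ b := by
      have h4 : (-2 : ℝ) ≤ -1 / ((K : ℝ) + 1 + b) := by
        rw [le_div_iff₀ h1]
        have : (0 : ℝ) ≤ K := Nat.cast_nonneg K
        linarith
      have h5 := one_add_mul_le_pow h4 b
      have e1 : 1 + (b : ℝ) * (-1 / ((K : ℝ) + 1 + b)) = ((K : ℝ) + 1) / ((K : ℝ) + 1 + b) := by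
        field_simp
        ring
      have e2 : 1 + -1 / ((K : ℝ) + 1 + b) = ((K : ℝ) + b) / ((K : ℝ) + 1 + b) := by
        field_simp
        ring
      rwa [e1, e2] at h5
    have h6 : (0 : ℝ) ≤ ((K : ℝ) + 1) / ((K : ℝ) + 1 + b) := by positivity
    have h7 : (0 : ℝ) ≤ (((k₀ : ℝ) + b) / ((K : ℝ) + b)) ^ b := by positivity
    refine (mul_le_mul ih h3 h6 h7).trans (le_of_eq ?_)
    rw [← mul_pow]
    congr 1
    push_cast
    field_simp

end Pool.Agent.Q121.MK
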