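import Pool.Agent.Q256.MP.Stm

/-!
# Project MP (helper256), job EXA: `S_exa`. Author of this file: helper121.
-/

set_option autoImplicit false

open Height NumberField

noncomputable section

namespace Pool.Agent.Q121.MP

open Pool.Agent.W276.GE Pool.Agent.Q256.MP

/-- the point over a field -/
def pk (K : Type) [Field K] (N i : ℕ) : Fin (N + 1) → K := fun j => ((pt N i j : ℤ) : K)

theorem pk_zero (K : Type) [Field K] (N i : ℕ) : pk K N i 0 = 1 := by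
  simp [pk, pt]

theorem pk_ne (K : Type) [Field K] (N i : ℕ) : pk K N i ≠ 0 := by
  intro h
  have := congrFun h 0
  rw [pk_zero] at this
  exact one_ne_zero this

theorem pk_map (K : Type) [Field K] (φ : K →+* ℂ) (N i : ℕ) :
    (fun j => φ (pk K N i j)) = pk ℂ N i := by
  funext j
  simp [pk]

theorem pk_inj {N i i' : ℕ} (hN : 1 ≤ N) {c : ℂ} (h : pk ℂ N i = c • pk ℂ N i') : i = i' := by
  have h0 := congrFun h 0
  rw [Pi.smul_apply, pk_zero, pk_zero, smul_eq_mul, mul_one] at h0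
  have h1 := congrFun h ⟨1, by omega⟩
  rw [← h0, one_smul] at h1
  simp only [pk, pt, one_ne_zero, if_false, if_true] at h1
  exact_mod_cast h1

theorem fm_smul {n d : ℕ} (F : Fin n → E n d → ℤ) (K : Type) [Field K] (c : K) (P : Fin n → K) :
    fm F K (c • P) = c ^ d • fm F K P := by
  funext j
  exact ev_smul c (F j) P

theorem iter {N d m : ℕ} {F : Sy N d} {σ : Fin m → Fin m}
    (h : ∀ i : Fin m, ∃ c : ℤ, c ≠ 0 ∧ ∀ j, ev (F j) (pt N i) = c * pt N (σ i) j)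
    (K : Type) [Field K] [CharZero K] (i : Fin m) (k : ℕ) :
    ∃ c : K, c ≠ 0 ∧ (fm F K)^[k] (pk K N i) = c • pk K N (σ^[k] i) := by
  induction k with
  | zero => exact ⟨1, one_ne_zero, by simp⟩
  | succ k ih =>
    obtain ⟨c, hc, e⟩ := ih
    obtain ⟨c', hc', e'⟩ := h (σ^[k] i)
    refine ⟨c ^ d * (c' : K), mul_ne_zero (pow_ne_zero _ hc) (Int.cast_ne_zero.2 hc'), ?_⟩
    rw [Function.iterate_succ_apply', e, fm_smul, mul_smul, Function.iterate_succ_apply']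
    congr 1
    funext j
    have h1 := ev_map (Int.castRingHom K) (F j) (pt N (σ^[k] i))
    have h2 : fm F K (pk K N (σ^[k] i)) j = Int.castRingHom K (ev (F j) (pt N (σ^[k] i))) := h1.symm
    rw [h2, e']
    simp [pk]

theorem pp {N d m : ℕ} {F : Sy N d} {σ : Fin m → Fin m}
    (h : ∀ i : Fin m, ∃ c : ℤ, c ≠ 0 ∧ ∀ j, ev (F j) (pt N i) = c * pt N (σ i) j)
    (K : Type) [Field K] [CharZero K] (i : Fin m) : Pp F K (pk K N i) := by
  obtain ⟨k, l, hkl, e⟩ : ∃ k l : ℕ, k < l ∧ σ^[k] i = σ^[l] i := by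
    obtain ⟨k, l, hne, e⟩ := Finite.exists_ne_map_eq_of_infinite fun k : ℕ => σ^[k] i
    rcases lt_or_gt_of_ne hne with h1 | h1
    · exact ⟨k, l, h1, e⟩
    · exact ⟨l, k, h1, e.symm⟩
  obtain ⟨c, hc, e1⟩ := iter h K i k
  obtain ⟨c', hc', e2⟩ := iter h K i l
  refine ⟨k, l, hkl, c' * c⁻¹, mul_ne_zero hc' (inv_ne_zero hc), ?_⟩
  rw [e1, e2, e, smul_smul, mul_assoc, inv_mul_cancel₀ hc, mul_one]

theorem many {N D d m : ℕ} (hN : 1 ≤ N) (hD : 1 ≤ D) {F : Sy N d} {σ : Fin m → Fin m}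
    (h : ∀ i : Fin m, ∃ c : ℤ, c ≠ 0 ∧ ∀ j, ev (F j) (pt N i) = c * pt N (σ i) j)
    (Φ : ∀ (K : Type) [Field K] [NumberField K], (Fin (N + 1) → K) → Prop)
    (hΦ : ∀ (K : Type) [Field K] [NumberField K] (P : Fin (N + 1) → K), Pp F K P → Φ K P)
    {z : Fin (N + 1) → ℂ} (hz : Rep (N + 1) D Φ z)
    (hne : ∀ (i : Fin m) (c : ℂ), z ≠ c • pk ℂ N i) : Many (N + 1) D (m + 1) Φ := by
  have hz0 : z ≠ 0 := by
    obtain ⟨K, _, _, φ, P, _, hP, _, rfl⟩ := hz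
    intro h0
    apply hP
    funext j
    have := congrFun h0 j
    exact (map_eq_zero φ).1 this
  refine ⟨Fin.cons z fun i => pk ℂ N i, ⟨?_, ?_⟩, ?_⟩
  · intro i
    refine Fin.cases ?_ (fun i => ?_) i
    · exact hz0
    · exact pk_ne ℂ N i
  · intro i j hij c
    revert hij
    refine Fin.cases ?_ (fun i => ?_) i
    · refine Fin.cases ?_ (fun j => ?_) j
      · intro h0
        exact absurd rfl h0
      · intro _
        exact hne j c
    · refine Fin.cases ?_ (fun j => ?_) j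
      · intro _ e
        rw [Fin.cons_succ, Fin.cons_zero] at e
        have hc : c ≠ 0 := by
          rintro rfl
          rw [zero_smul] at e
          exact pk_ne ℂ N i e
        apply hne i c⁻¹
        rw [e, smul_smul, inv_mul_cancel₀ hc, one_smul]
      · intro hij e
        rw [Fin.cons_succ, Fin.cons_succ] at e
        have h1 := pk_inj hN e
        apply hij
        rw [Fin.ext h1]
  · intro i
    refine Fin.cases ?_ (fun i => ?_) i
    · exact hz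
    · refine ⟨ℚ, inferInstance, inferInstance, algebraMap ℚ ℂ, pk ℚ N i, ?_, pk_ne ℚ N i,
        hΦ ℚ _ (pp h ℚ i), ?_⟩
      · rw [Module.finrank_self]
        exact hD
      · rw [Fin.cons_succ]
        exact (pk_map ℚ _ N i).symm

theorem choose_ge (N d : ℕ) : d + 1 ≤ (N + 1 + d).choose (N + 1) := by
  induction N with
  | zero => simp [add_comm]
  | succ N ih =>
    have e : N + 1 + 1 + d = (N + 1 + d) + 1 := by ring
    rw [e, Nat.choose_succ_succ]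
    omega

theorem exa (h1 : S_upf) (h2 : S_slow) : S_exa := by
  intro N D m hN hD hm
  obtain ⟨d₁, hd₁⟩ := h1 N D (m + 1) hN hD (by omega)
  refine ⟨max d₁ m, fun d hd => ?_⟩
  have hd1 : d₁ ≤ d := (le_max_left _ _).trans hd
  have hd2 : m ≤ d := (le_max_right _ _).trans hd
  obtain ⟨C₁, θ, hC₁, hθ, hup⟩ := hd₁ d hd1
  refine ⟨θ, hθ, fun σ => ?_⟩
  obtain ⟨C₂, hC₂, hlow⟩ := h2 N d m hN hm hd2 σ
  have hC₂' : (1 : ℝ) ≤ C₂ := by exact_mod_cast hC₂
  refine ⟨2 * C₂ + 2 * C₁ * C₂, by positivity, fun H hH => ?_⟩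
  have hH2 : (C₂ : ℝ) ≤ H := by
    have : (0 : ℝ) ≤ 2 * C₁ * C₂ := by positivity
    linarith
  have hH2' : C₂ ≤ H := by exact_mod_cast hH2
  have hH1 : 1 ≤ H := hC₂.trans hH2'
  have hHr : (1 : ℝ) ≤ H := by exact_mod_cast hH1
  have hH3 : 2 * C₁ * C₂ ≤ (H : ℝ) := by linarith
  have a1 := hup H hH1
  have a2 := hlow H hH2'
  obtain ⟨S1, hS1⟩ : ∃ S1 : Set (Sy N d), S1 = {F : Sy N d | F ∈ Fb (N + 1) d H ∧ NoZero F ∧
      ∀ i : Fin m, ∃ c : ℤ, c ≠ 0 ∧ ∀ j, ev (F j) (pt N i) = c * pt N (σ i) j} := ⟨_, rfl⟩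
  obtain ⟨S2, hS2⟩ : ∃ S2 : Set (Sy N d), S2 = {F : Sy N d | F ∈ Fb (N + 1) d H ∧ NoZero F ∧
      Many (N + 1) D (m + 1) (fun K _ _ P => Pp F K P ∨ ¬ Gr θ H F K P)} := ⟨_, rfl⟩
  obtain ⟨S3, hS3⟩ : ∃ S3 : Set (Sy N d), S3 = {F : Sy N d | F ∈ Fb (N + 1) d H ∧ NoZero F ∧
      ((∀ i : Fin m, ∃ c : ℤ, c ≠ 0 ∧ ∀ j, ev (F j) (pt N i) = c * pt N (σ i) j) ∧
      ∀ z : Fin (N + 1) → ℂ,
        Rep (N + 1) D (fun K _ _ P => Pp F K P ∨ ¬ Gr θ H F K P) z →
        ∃ (i : Fin m) (c : ℂ), z = c • fun j => (pt N i j : ℂ))} := ⟨_, rfl⟩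
  have hf : ∀ Ψ : Sy N d → Prop, {F : Sy N d | F ∈ Fb (N + 1) d H ∧ Ψ F}.Finite := fun Ψ =>
    (Fb (N + 1) d H).finite_toSet.subset fun F hF => hF.1
  have hf2 : S2.Finite := by rw [hS2]; exact hf _
  have hf3 : S3.Finite := by rw [hS3]; exact hf _
  have hsub : S1 ⊆ S2 ∪ S3 := by
    intro F hF
    rw [hS1] at hF
    obtain ⟨b1, b2, b3⟩ := hF
    by_cases hc : ∀ z : Fin (N + 1) → ℂ,
        Rep (N + 1) D (fun K _ _ P => Pp F K P ∨ ¬ Gr θ H F K P) z →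
        ∃ (i : Fin m) (c : ℂ), z = c • fun j => (pt N i j : ℂ)
    · right
      rw [hS3]
      exact ⟨b1, b2, b3, hc⟩
    · left
      rw [hS2]
      push Not at hc
      obtain ⟨z, hz, hne⟩ := hc
      exact ⟨b1, b2, many hN hD b3 _ (fun K _ _ P hP => Or.inl hP) hz hne⟩
  have hcard : (S1.ncard : ℝ) ≤ S2.ncard + S3.ncard := by
    have := (Set.ncard_le_ncard hsub (hf2.union hf3)).trans (Set.ncard_union_le S2 S3)
    exact_mod_cast this
  have a1' : (S2.ncard : ℝ) ≤ C₁ * (H : ℝ) ^ (QQ N d - (m + 1) * N) := by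
    rw [hS2]
    exact a1
  have a2' : (H : ℝ) ^ (QQ N d - m * N) ≤ C₂ * S1.ncard := by
    rw [hS1]
    exact_mod_cast a2
  have hQ : (m + 1) * N ≤ QQ N d := by
    have hM : d + 1 ≤ Fintype.card (E (N + 1) d) := by
      rw [card_E]
      obtain ⟨N', rfl⟩ : ∃ N', N = N' + 1 := ⟨N - 1, by omega⟩
      exact choose_ge N' d
    calc (m + 1) * N ≤ (d + 1) * (N + 1) := Nat.mul_le_mul (by omega) (by omega)
      _ ≤ Fintype.card (E (N + 1) d) * (N + 1) := Nat.mul_le_mul_right _ hM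
      _ = QQ N d := mul_comm _ _
  have hpow : (H : ℝ) ^ (QQ N d - (m + 1) * N) * H ≤ (H : ℝ) ^ (QQ N d - m * N) := by
    rw [← pow_succ]
    refine pow_le_pow_right₀ hHr ?_
    have : (m + 1) * N = m * N + N := by ring
    omega
  have hfin : (H : ℝ) ^ (QQ N d - m * N) ≤ (2 * C₂ + 2 * C₁ * C₂) * S3.ncard := by
    have b1 : (C₂ : ℝ) * S1.ncard ≤ C₂ * (C₁ * (H : ℝ) ^ (QQ N d - (m + 1) * N)) +
        C₂ * S3.ncard := by
      rw [← mul_add]
      exact mul_le_mul_of_nonneg_left (by linarith) (by linarith)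
    have b2 : 2 * (C₂ * (C₁ * (H : ℝ) ^ (QQ N d - (m + 1) * N))) ≤
        (H : ℝ) ^ (QQ N d - m * N) := by
      refine le_trans ?_ hpow
      have := mul_le_mul_of_nonneg_right hH3
        (show (0 : ℝ) ≤ (H : ℝ) ^ (QQ N d - (m + 1) * N) by positivity)
      calc 2 * (C₂ * (C₁ * (H : ℝ) ^ (QQ N d - (m + 1) * N))) =
            2 * C₁ * C₂ * (H : ℝ) ^ (QQ N d - (m + 1) * N) := by ring
        _ ≤ H * (H : ℝ) ^ (QQ N d - (m + 1) * N) := this
        _ = _ := mul_comm _ _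
    have b3 : (0 : ℝ) ≤ 2 * C₁ * C₂ * S3.ncard := by positivity
    have b4 : (2 * C₂ + 2 * C₁ * C₂) * (S3.ncard : ℝ) = 2 * (C₂ * S3.ncard) +
        2 * C₁ * C₂ * S3.ncard := by ring
    rw [b4]
    linarith
  rw [hS3] at hfin
  exact hfin

end Pool.Agent.Q121.MP
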