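import Mathlib
import Pool.Agent.Q49.MR.Stm

set_option autoImplicit false

/-!
# Project MR, job TR: the trace is the sum of the eight conjugates (helper121)
-/

open Module

namespace Q121.MR_TR

open Q49.MR

theorem tr : S_TR := by
  intro K L _ _ _ _ _ σ h x
  obtain ⟨s, hs, hσ⟩ := h.pow
  obtain ⟨q, hq⟩ : ∃ q, q = Nat.card K := ⟨_, rfl⟩
  rw [← hq] at hσ
  have h8 : ∀ y : L, y ^ (q ^ 8) = y := by
    intro y
    have := Fintype.ofFinite L
    have h1 : Nat.card L = q ^ 8 := by
      rw [hq, ← h.rank]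
      exact Module.natCard_eq_pow_finrank
    have h2 := FiniteField.pow_card y
    rwa [← Nat.card_eq_fintype_card, h1] at h2
  have hper : Function.Periodic (fun i : ℕ => x ^ (q ^ i)) 8 := by
    intro i
    show x ^ (q ^ (i + 8)) = x ^ (q ^ i)
    rw [show q ^ (i + 8) = q ^ 8 * q ^ i by ring, pow_mul, h8]
  have hmod : ∀ i : ℕ, x ^ (q ^ i) = x ^ (q ^ (i % 8)) := fun i => (hper.map_mod_nat i).symm
  have hst : ∀ i : ℕ, (x ^ (q ^ i)) ^ (q ^ s) = x ^ (q ^ (i + s)) := by
    intro i
    rw [← pow_mul, ← pow_add]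
  have e1 : σ x = x ^ (q ^ s) := hσ x
  have e2 : σ (σ x) = x ^ (q ^ (s + s)) := by rw [e1, hσ, hst]
  have e3 : σ (σ (σ x)) = x ^ (q ^ (s + s + s)) := by rw [e2, hσ, hst]
  have e4 : σ (σ (σ (σ x))) = x ^ (q ^ (s + s + s + s)) := by rw [e3, hσ, hst]
  have e5 : σ (σ (σ (σ (σ x)))) = x ^ (q ^ (s + s + s + s + s)) := by rw [e4, hσ, hst]
  have e6 : σ (σ (σ (σ (σ (σ x))))) = x ^ (q ^ (s + s + s + s + s + s)) := by rw [e5, hσ, hst]
  have e7 : σ (σ (σ (σ (σ (σ (σ x)))))) = x ^ (q ^ (s + s + s + s + s + s + s)) := by rw [e6, hσ, hst]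
  rw [FiniteField.algebraMap_trace_eq_sum_pow, h.rank, e7, e6, e5, e4, e3, e2, e1, ← hq]
  simp only [Finset.sum_range_succ, Finset.sum_range_zero, zero_add, pow_zero, pow_one]
  have hs2 : s % 2 = 1 := Nat.odd_iff.1 hs
  rw [hmod (s + s + s + s + s + s + s), hmod (s + s + s + s + s + s), hmod (s + s + s + s + s), hmod (s + s + s + s), hmod (s + s + s), hmod (s + s), hmod (s)]
  have hc : s % 8 = 1 ∨ s % 8 = 3 ∨ s % 8 = 5 ∨ s % 8 = 7 := by omega
  rcases hc with hr | hr | hr | hr
  · rw [show (s + s + s + s + s + s + s) % 8 = 7 by omega, show (s + s + s + s + s + s) % 8 = 6 by omega, show (s + s + s + s + s) % 8 = 5 by omega, show (s + s + s + s) % 8 = 4 by omega, show (s + s + s) % 8 = 3 by omega, show (s + s) % 8 = 2 by omega, show (s) % 8 = 1 by omega]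
    simp only [pow_one]
  · rw [show (s + s + s + s + s + s + s) % 8 = 5 by omega, show (s + s + s + s + s + s) % 8 = 2 by omega, show (s + s + s + s + s) % 8 = 7 by omega, show (s + s + s + s) % 8 = 4 by omega, show (s + s + s) % 8 = 1 by omega, show (s + s) % 8 = 6 by omega, show (s) % 8 = 3 by omega]
    simp only [pow_one]
    ring
  · rw [show (s + s + s + s + s + s + s) % 8 = 3 by omega, show (s + s + s + s + s + s) % 8 = 6 by omega, show (s + s + s + s + s) % 8 = 1 by omega, show (s + s + s + s) % 8 = 4 by omega, show (s + s + s) % 8 = 7 by omega, show (s + s) % 8 = 2 by omega, show (s) % 8 = 5 by omega]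
    simp only [pow_one]
    ring
  · rw [show (s + s + s + s + s + s + s) % 8 = 1 by omega, show (s + s + s + s + s + s) % 8 = 2 by omega, show (s + s + s + s + s) % 8 = 3 by omega, show (s + s + s + s) % 8 = 4 by omega, show (s + s + s) % 8 = 5 by omega, show (s + s) % 8 = 6 by omega, show (s) % 8 = 7 by omega]
    simp only [pow_one]
    ring

end Q121.MR_TR
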