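import Pool.Agent.Q88.MT.Stm3

/-!
# The spectrum is contained in the closed convex hull of the symbol range
-/

set_option autoImplicit false

open Set Filter Topology

noncomputable section

namespace Pool.Agent.Q121.MT

open Pool.Agent.Q88.MT

theorem hul (h : S_con) : S_hul := by
  intro n k b l hl
  by_contra hcon
  obtain ⟨f, s, h1, h2⟩ := geometric_hahn_banach_closed_point
    (convex_convexHull ℝ (range (sy k))).closure isClosed_closure hcon
  have key : ∀ z : ℂ, f z = ((((f 1 : ℝ) : ℂ) - Complex.I * ((f Complex.I : ℝ) : ℂ)) * z).re := by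
    intro z
    have hz : z = z.re • (1 : ℂ) + z.im • Complex.I := by
      apply Complex.ext <;> simp
    conv_lhs => rw [hz]
    rw [map_add, map_smul, map_smul]
    simp only [smul_eq_mul, Complex.mul_re, Complex.sub_re, Complex.ofReal_re, Complex.I_re,
      Complex.I_im, Complex.ofReal_im, Complex.sub_im, Complex.mul_im]
    ring
  have h3 := h n k b _ s (fun t => by
    rw [← key]
    exact (h1 _ (subset_closure (subset_convexHull ℝ _ ⟨t, rfl⟩))).le) l hl
  rw [← key] at h3
  linarith

end Pool.Agent.Q121.MT
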