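import Pool.Agent.Q61.ND.Stm

set_option autoImplicit false

/-!
# Project ND, job TIM (helper121)
-/

open MeasureTheory Set Filter Topology Real

namespace Pool.Agent.Q121.ND

open Pool.Agent.Q61.AD (P Q Per dt dx dy lap Tst D)
open Pool.Agent.Q61.ND (LL SP S_tim)

theorem Q_meas : MeasurableSet Q := measurableSet_Ico.prod measurableSet_Ico

theorem Q_sub : Q ⊆ Icc (0 : ℝ) 1 ×ˢ Icc (0 : ℝ) 1 :=
  Set.prod_mono Ico_subset_Icc_self Ico_subset_Icc_self

theorem Q_lt : volume Q < ⊤ :=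
  lt_of_le_of_lt (measure_mono Q_sub) (isCompact_Icc.prod isCompact_Icc).measure_lt_top

theorem bdd_Q {f : P → ℝ} (hf : Continuous f) : ∃ C, ∀ x ∈ Q, |f x| ≤ C := by
  obtain ⟨C, hC⟩ := (isCompact_Icc.prod isCompact_Icc : IsCompact (Icc (0 : ℝ) 1 ×ˢ Icc (0 : ℝ) 1)).exists_bound_of_continuousOn
    hf.continuousOn
  exact ⟨C, fun x hx => hC x (Q_sub hx)⟩

theorem int_mul {g f : P → ℝ} (hg : IntegrableOn g Q) (hf : Continuous f) :
    IntegrableOn (fun x => g x * f x) Q := by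
  obtain ⟨C, hC⟩ := bdd_Q hf
  refine Integrable.mono' (hg.abs.const_mul C) (hg.aestronglyMeasurable.mul hf.aestronglyMeasurable) ?_
  refine (ae_restrict_iff' Q_meas).2 (Eventually.of_forall fun x hx => ?_)
  rw [Real.norm_eq_abs, abs_mul, mul_comm]
  exact mul_le_mul_of_nonneg_right (hC x hx) (abs_nonneg _)

theorem int_U {U : P → ℝ} (hU : Measurable U) (hU2 : IntegrableOn (fun x => U x ^ 2) Q) :
    IntegrableOn U Q := by
  have h1 : IntegrableOn (fun _ : P => (1 : ℝ)) Q := integrableOn_const Q_lt.ne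
  refine Integrable.mono' (h1.add hU2) hU.aestronglyMeasurable (Eventually.of_forall fun x => ?_)
  show |U x| ≤ 1 + U x ^ 2
  rw [abs_le]
  constructor <;> nlinarith [sq_nonneg (U x - 1), sq_nonneg (U x + 1)]

theorem int_Ub {U c : P → ℝ} {B : P → ℝ} (hU : Measurable U) (hc : Measurable c)
    (hU2 : IntegrableOn (fun x => U x ^ 2) Q) (hB : IntegrableOn (fun x => B x ^ 2) Q)
    (hcB : ∀ x, |c x| ≤ B x) : IntegrableOn (fun x => U x * c x) Q := by
  refine Integrable.mono' (hU2.add hB) (hU.mul hc).aestronglyMeasurable (Eventually.of_forall fun x => ?_)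
  show |U x * c x| ≤ U x ^ 2 + B x ^ 2
  rw [abs_mul]
  have h1 := hcB x
  have h2 := abs_nonneg (U x)
  have h3 := abs_nonneg (c x)
  rw [← sq_abs (U x)]
  nlinarith [mul_le_mul_of_nonneg_left h1 h2, sq_nonneg (|U x| - B x)]

theorem dx_eq {f : P → ℝ} (hf : Differentiable ℝ f) : dx f = fun x => fderiv ℝ f x (1, 0) := by
  funext x
  have h1 : HasFDerivAt f (fderiv ℝ f x) ((fun s : ℝ => ((s, x.2) : P)) x.1) := (hf x).hasFDerivAt
  have h2 : HasDerivAt (fun s : ℝ => ((s, x.2) : P)) (1, 0) x.1 :=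
    (hasDerivAt_id x.1).prodMk (hasDerivAt_const x.1 x.2)
  exact (h1.comp_hasDerivAt x.1 h2).deriv

theorem dy_eq {f : P → ℝ} (hf : Differentiable ℝ f) : dy f = fun x => fderiv ℝ f x (0, 1) := by
  funext x
  have h1 : HasFDerivAt f (fderiv ℝ f x) ((fun s : ℝ => ((x.1, s) : P)) x.2) := (hf x).hasFDerivAt
  have h2 : HasDerivAt (fun s : ℝ => ((x.1, s) : P)) (0, 1) x.2 :=
    (hasDerivAt_const x.2 x.1).prodMk (hasDerivAt_id x.2)
  exact (h1.comp_hasDerivAt x.2 h2).deriv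

theorem dt_eq {Φ : ℝ → P → ℝ} (hΦ : Differentiable ℝ (fun q : ℝ × P => Φ q.1 q.2)) (t : ℝ) (x : P) :
    HasDerivAt (fun s => Φ s x) (dt Φ t x) t ∧
      dt Φ t x = fderiv ℝ (fun q : ℝ × P => Φ q.1 q.2) (t, x) (1, 0) := by
  have h1 : HasFDerivAt (fun q : ℝ × P => Φ q.1 q.2) (fderiv ℝ (fun q : ℝ × P => Φ q.1 q.2) (t, x))
    ((fun s : ℝ => ((s, x) : ℝ × P)) t) := (hΦ (t, x)).hasFDerivAt
  have h2 : HasDerivAt (fun s : ℝ => ((s, x) : ℝ × P)) (1, 0) t :=
    (hasDerivAt_id t).prodMk (hasDerivAt_const t x)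
  have h3 := h1.comp_hasDerivAt t h2
  have h4 : dt Φ t x = fderiv ℝ (fun q : ℝ × P => Φ q.1 q.2) (t, x) (1, 0) := h3.deriv
  refine ⟨?_, h4⟩
  rw [h4]
  exact h3

theorem smooth_app {E : Type} [NormedAddCommGroup E] [NormedSpace ℝ E] {f : E → ℝ}
    (hf : ContDiff ℝ (⊤ : ℕ∞) f) (v : E) : ContDiff ℝ (⊤ : ℕ∞) (fun x => fderiv ℝ f x v) :=
  (hf.fderiv_right (m := ((⊤ : ℕ∞) : WithTop ℕ∞)) (by simp)).clm_apply contDiff_const

theorem diff_of {E : Type} [NormedAddCommGroup E] [NormedSpace ℝ E] {f : E → ℝ}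
    (hf : ContDiff ℝ (⊤ : ℕ∞) f) : Differentiable ℝ f := hf.differentiable (by simp)

theorem smooth_dx {f : P → ℝ} (hf : ContDiff ℝ (⊤ : ℕ∞) f) : ContDiff ℝ (⊤ : ℕ∞) (dx f) := by
  rw [dx_eq (diff_of hf)]
  exact smooth_app hf _

theorem smooth_dy {f : P → ℝ} (hf : ContDiff ℝ (⊤ : ℕ∞) f) : ContDiff ℝ (⊤ : ℕ∞) (dy f) := by
  rw [dy_eq (diff_of hf)]
  exact smooth_app hf _

theorem smooth_dt {Φ : ℝ → P → ℝ} (hΦ : ContDiff ℝ (⊤ : ℕ∞) (fun q : ℝ × P => Φ q.1 q.2)) :
    ContDiff ℝ (⊤ : ℕ∞) (fun q : ℝ × P => dt Φ q.1 q.2) := by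
  have h : (fun q : ℝ × P => dt Φ q.1 q.2) =
      fun q : ℝ × P => fderiv ℝ (fun q : ℝ × P => Φ q.1 q.2) q (1, 0) := by
    funext q
    exact (dt_eq (diff_of hΦ) q.1 q.2).2
  rw [h]
  exact smooth_app hΦ _

/-- differentiation under the integral -/
theorem hasDeriv {U : P → ℝ} (hU : IntegrableOn U Q) {Φ : ℝ → P → ℝ}
    (hΦ : ContDiff ℝ (⊤ : ℕ∞) (fun q : ℝ × P => Φ q.1 q.2)) (t : ℝ) :
    HasDerivAt (fun t => ∫ x in Q, U x * Φ t x) (∫ x in Q, U x * dt Φ t x) t := by
  have hc : Continuous (fun q : ℝ × P => dt Φ q.1 q.2) := (smooth_dt hΦ).continuous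
  obtain ⟨C, hC⟩ := (isCompact_Icc.prod (isCompact_Icc.prod isCompact_Icc) :
    IsCompact (Icc (t - 1) (t + 1) ×ˢ (Icc (0 : ℝ) 1 ×ˢ Icc (0 : ℝ) 1))).exists_bound_of_continuousOn
    hc.continuousOn
  have hcont : ∀ s, Continuous (Φ s) := fun s =>
    hΦ.continuous.comp (continuous_const.prodMk continuous_id)
  refine (hasDerivAt_integral_of_dominated_loc_of_deriv_le (μ := volume.restrict Q)
    (F := fun s x => U x * Φ s x) (F' := fun s x => U x * dt Φ s x) (x₀ := t)
    (s := Metric.ball t 1) (bound := fun x => |U x| * C) (Metric.ball_mem_nhds t one_pos)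
    ?_ ?_ ?_ ?_ ?_ ?_).2
  · exact Eventually.of_forall fun s => hU.aestronglyMeasurable.mul (hcont s).aestronglyMeasurable
  · exact int_mul hU (hcont t)
  · exact hU.aestronglyMeasurable.mul
      (hc.comp (continuous_const.prodMk continuous_id)).aestronglyMeasurable
  · refine (ae_restrict_iff' Q_meas).2 (Eventually.of_forall fun x hx s hs => ?_)
    rw [Real.norm_eq_abs, abs_mul]
    apply mul_le_mul_of_nonneg_left _ (abs_nonneg _)
    have hs' : |s - t| < 1 := hs
    rw [abs_lt] at hs'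
    exact hC (s, x) ⟨⟨by linarith [hs'.1], by linarith [hs'.2]⟩, Q_sub hx⟩
  · exact hU.abs.mul_const C
  · exact Eventually.of_forall fun x s _ => (dt_eq (diff_of hΦ) s x).1.const_mul (U x)

/-- JOB TIM -/
theorem tim : S_tim := by
  intro b U hb _ hb2 hU _ hU2 heq T hT Φ hΦ hsupp
  have hUi := int_U hU hU2
  have hsm : ∀ t, ContDiff ℝ (⊤ : ℕ∞) (Φ t) := fun t =>
    hΦ.smooth.comp (contDiff_const.prodMk contDiff_id)
  have hcdt : ∀ t, Continuous (dt Φ t) := fun t =>
    (smooth_dt hΦ.smooth).continuous.comp (continuous_const.prodMk continuous_id)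
  have hLL : ∀ t, IntegrableOn (fun x => U x * LL b (Φ t) x) Q ∧
      ∫ x in Q, U x * LL b (Φ t) x = ∫ x in Q, U x * Φ t x := by
    intro t
    have hx := smooth_dx (hsm t)
    have hy := smooth_dy (hsm t)
    have hlap : Continuous (lap (Φ t)) :=
      (smooth_dx hx).continuous.add (smooth_dy hy).continuous
    have i1 : IntegrableOn (fun x => U x * lap (Φ t) x) Q := int_mul hUi hlap
    have i2 : IntegrableOn (fun x => U x * (b x).1 * dx (Φ t) x) Q :=
      int_mul (int_Ub hU hb.fst hU2 hb2 fun x => norm_fst_le (b x)) hx.continuous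
    have i3 : IntegrableOn (fun x => U x * (b x).2 * dy (Φ t) x) Q :=
      int_mul (int_Ub hU hb.snd hU2 hb2 fun x => norm_snd_le (b x)) hy.continuous
    have i4 : IntegrableOn (fun x => U x * LL b (Φ t) x) Q := by
      have h : (fun x => U x * LL b (Φ t) x) = fun x => U x * lap (Φ t) x +
          U x * (b x).1 * dx (Φ t) x + U x * (b x).2 * dy (Φ t) x := by
        funext x
        unfold LL
        ring
      rw [h]
      exact (i1.add i2).add i3
    refine ⟨i4, ?_⟩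
    have i5 : IntegrableOn (fun x => U x * Φ t x) Q := int_mul hUi (hsm t).continuous
    have h1 := heq (Φ t) ⟨hsm t, hΦ.per t⟩
    have h2 : (fun x => U x * (Φ t x - LL b (Φ t) x)) =
        fun x => U x * Φ t x - U x * LL b (Φ t) x := by
      funext x
      ring
    rw [h2, integral_sub i5 i4] at h1
    linarith
  have key : ∀ t, ∫ x in Q, exp t * U x * D (fun _ => b) Φ t x =
      exp t * (∫ x in Q, U x * Φ t x) + exp t * ∫ x in Q, U x * dt Φ t x := by
    intro t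
    have h : (fun x => exp t * U x * D (fun _ => b) Φ t x) =
        fun x => exp t * (U x * LL b (Φ t) x + U x * dt Φ t x) := by
      funext x
      unfold LL D
      ring
    rw [h, integral_const_mul, integral_add (hLL t).1 (int_mul hUi (hcdt t)), (hLL t).2]
    ring
  have hG : ∀ t, HasDerivAt (fun t => ∫ x in Q, U x * Φ t x) (∫ x in Q, U x * dt Φ t x) t :=
    hasDeriv hUi hΦ.smooth
  have hG' : ∀ t, HasDerivAt (fun t => ∫ x in Q, U x * dt Φ t x)
      (∫ x in Q, U x * dt (dt Φ) t x) t :=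
    hasDeriv hUi (smooth_dt hΦ.smooth)
  have hder : ∀ t, HasDerivAt (fun t => exp t * ∫ x in Q, U x * Φ t x)
      (exp t * (∫ x in Q, U x * Φ t x) + exp t * ∫ x in Q, U x * dt Φ t x) t :=
    fun t => (Real.hasDerivAt_exp t).mul (hG t)
  have hcont : Continuous (fun t => exp t * (∫ x in Q, U x * Φ t x) +
      exp t * ∫ x in Q, U x * dt Φ t x) := by
    have c1 : Continuous (fun t => ∫ x in Q, U x * Φ t x) :=
      continuous_iff_continuousAt.2 fun t => (hG t).continuousAt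
    have c2 : Continuous (fun t => ∫ x in Q, U x * dt Φ t x) :=
      continuous_iff_continuousAt.2 fun t => (hG' t).continuousAt
    exact (Real.continuous_exp.mul c1).add (Real.continuous_exp.mul c2)
  have h1 : ∫ t in (0 : ℝ)..T, ∫ x in Q, exp t * U x * D (fun _ => b) Φ t x =
      exp T * (∫ x in Q, U x * Φ T x) - exp 0 * ∫ x in Q, U x * Φ 0 x := by
    have h2 : (fun t => ∫ x in Q, exp t * U x * D (fun _ => b) Φ t x) =
        fun t => exp t * (∫ x in Q, U x * Φ t x) + exp t * ∫ x in Q, U x * dt Φ t x :=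
      funext key
    rw [h2]
    exact intervalIntegral.integral_eq_sub_of_hasDerivAt (fun t _ => hder t)
      (hcont.intervalIntegrable _ _)
  obtain ⟨T', hT', hz⟩ := hsupp
  have h3 : ∫ x in Q, U x * Φ T x = 0 := by
    have : (fun x => U x * Φ T x) = fun _ => (0 : ℝ) := by
      funext x
      rw [hz T hT'.le, mul_zero]
    rw [this, integral_zero]
  rw [h1, h3, exp_zero]
  ring

end Pool.Agent.Q121.ND
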