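import Pool.Agent.Q88.PS.Stm

/-!
# Project PS of helper88, job BAI (helper121)
-/

set_option autoImplicit false

open MeasureTheory Set Filter Topology
open scoped ENNReal NNReal

namespace Pool.Agent.Q121.PS

open Pool.Agent.Q88.PS

theorem dense_aux (G : Set ℝ) (hG : ∀ a b : ℝ, 1 ≤ a → a < b → b ≤ 3 / 2 → ∃ x, a < x ∧ x < b ∧ x ∈ G) :
    Dense (G ∪ (Icc (1 : ℝ) (3 / 2))ᶜ) := by
  rw [dense_iff_inter_open]
  rintro U hU ⟨x, hx⟩
  by_cases hxI : x ∈ Icc (1 : ℝ) (3 / 2)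
  · have hcl : x ∈ closure (Ioo (1 : ℝ) (3 / 2)) := by
      rw [closure_Ioo (by norm_num)]
      exact hxI
    obtain ⟨y, hyU, hyI⟩ := mem_closure_iff.1 hcl U hU hx
    have hV : U ∩ Ioo (1 : ℝ) (3 / 2) ∈ 𝓝 y := (hU.inter isOpen_Ioo).mem_nhds ⟨hyU, hyI⟩
    obtain ⟨a, b, hab, hsub⟩ := mem_nhds_iff_exists_Ioo_subset.1 hV
    have h1 : max a 1 < min b (3 / 2) := by
      refine lt_trans (max_lt hab.1 hyI.1) (lt_min hab.2 hyI.2)
    obtain ⟨z, hz1, hz2, hzG⟩ := hG (max a 1) (min b (3 / 2)) (le_max_right _ _) h1 (min_le_right _ _)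
    have hz : z ∈ U ∩ Ioo (1 : ℝ) (3 / 2) :=
      hsub ⟨lt_of_le_of_lt (le_max_left _ _) hz1, lt_of_lt_of_le hz2 (min_le_left _ _)⟩
    exact ⟨z, hz.1, Or.inl hzG⟩
  · exact ⟨x, hx, Or.inr hxI⟩

theorem bai (h : S_sng) (h1 : S_sgo) (h2 : S_ugo) (h3 : S_ugn) (h4 : S_rat) : S_bai := by
  obtain ⟨f, hf⟩ : ∃ f : ℕ × Bool → Set ℝ, f = fun i =>
      (if i.2 then UG i.1 else SG ((1 / 2 : ℝ) ^ i.1) ∩ Ioi 0) ∪ (Icc (1 : ℝ) (3 / 2))ᶜ := ⟨_, rfl⟩
  have hopen : ∀ i, IsOpen (f i) := by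
    rintro ⟨k, b⟩
    rw [hf]
    refine IsOpen.union ?_ isClosed_Icc.isOpen_compl
    cases b
    · exact h1 _
    · exact h2 _
  have hdense : ∀ i, Dense (f i) := by
    rintro ⟨k, b⟩
    rw [hf]
    refine dense_aux _ fun a b' ha hab hb => ?_
    cases b
    · obtain ⟨p, q, hp, hq, hx1, hx2⟩ := (h4 a b' (by linarith) hab).2
      refine ⟨_, hx1, hx2, ?_, ?_⟩
      · exact h p q hp hq ⟨by linarith, by linarith⟩ _ (by positivity)
      · exact mem_Ioi.2 (by linarith)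
    · obtain ⟨p, q, hp, hq, hx1, hx2⟩ := (h4 a b' (by linarith) hab).1
      exact ⟨_, hx1, hx2, h3 p q hp hq ⟨by linarith, by linarith⟩ k⟩
  have hd := dense_iInter_of_isOpen hopen hdense
  obtain ⟨lam, hlam, hmem⟩ := hd.inter_open_nonempty (Ioo (1 : ℝ) (3 / 2)) isOpen_Ioo ⟨5 / 4, by norm_num, by norm_num⟩
  have hI : lam ∈ Icc (1 : ℝ) (3 / 2) := Ioo_subset_Icc_self hlam
  rw [mem_iInter] at hmem
  refine ⟨lam, hI, fun k => ?_, fun k => ?_⟩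
  · have h5 := hmem (k, false)
    rw [hf] at h5
    rcases h5 with h5 | h5
    · exact h5.1
    · exact absurd hI h5
  · have h5 := hmem (k, true)
    rw [hf] at h5
    rcases h5 with h5 | h5
    · exact h5
    · exact absurd hI h5

end Pool.Agent.Q121.PS
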