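import Pool.Agent.Q88.PS.Stm

/-!
# Project PS of helper88, job UGM (helper121)
-/

set_option autoImplicit false

open MeasureTheory Set Filter Topology
open scoped ENNReal NNReal

namespace Pool.Agent.Q121.PS

open Pool.Agent.Q88.PS

theorem ind_meas (lam : ℝ) : Measurable (ind lam) := by
  have : ind lam = (Ioo (0 : ℝ) (LL lam)).indicator (fun _ => 1) := by
    funext τ
    rfl
  rw [this]
  exact measurable_const.indicator measurableSet_Ioo

theorem TT_meas (lam : ℝ) (F : ℝ → ℝ≥0∞) (hF : Measurable F) : Measurable (TT lam F) := by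
  have : TT lam F = fun τ => 2⁻¹ * ∑ d : D, F (8 * τ - dl lam d) := by
    funext τ
    rfl
  rw [this]
  refine Measurable.const_mul ?_ _
  refine Finset.measurable_fun_sum _ fun d _ => hF.comp (by fun_prop)

theorem vv_meas (lam : ℝ) (n : ℕ) : Measurable (vv lam n) := by
  induction n with
  | zero => exact ind_meas lam
  | succ n ih => exact (ind_meas lam).max (TT_meas lam _ ih)

theorem Vs_meas (lam : ℝ) : Measurable (Vs lam) := by
  have : Vs lam = fun τ => ⨆ n, vv lam n τ := by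
    funext τ
    rfl
  rw [this]
  exact Measurable.iSup fun n => vv_meas lam n

theorem dl_mem (lam : ℝ) (h : 0 ≤ lam) (d : D) : 0 ≤ dl lam d ∧ dl lam d ≤ 7 * LL lam := by
  have h1 : (da d : ℝ) ≤ 3 := by
    have : da d ≤ 3 := by unfold da; omega
    exact_mod_cast this
  have h2 : (db d : ℝ) ≤ 5 := by
    have : db d ≤ 5 := by unfold db; omega
    exact_mod_cast this
  unfold dl LL
  constructor
  · positivity
  · nlinarith

theorem vv_zero (lam : ℝ) (h : 0 ≤ lam) (n : ℕ) : ∀ τ : ℝ, τ ∉ Ioo (0 : ℝ) (LL lam) → vv lam n τ = 0 := by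
  induction n with
  | zero =>
    intro τ hτ
    have h1 : ind lam τ = 0 := indicator_of_notMem hτ _
    exact h1
  | succ n ih =>
    intro τ hτ
    have h1 : ind lam τ = 0 := indicator_of_notMem hτ _
    have h2 : TT lam (vv lam n) τ = 0 := by
      have h7 : TT lam (vv lam n) τ = 2⁻¹ * ∑ d : D, vv lam n (8 * τ - dl lam d) := rfl
      rw [h7]
      have h6 : ∑ d : D, vv lam n (8 * τ - dl lam d) = 0 := by
        refine Finset.sum_eq_zero fun d _ => ?_
        refine ih _ fun h3 => hτ ?_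
        obtain ⟨h4, h5⟩ := dl_mem lam h d
        exact ⟨by linarith [h3.1], by linarith [h3.2]⟩
      rw [h6, mul_zero]
    show max (ind lam τ) (TT lam (vv lam n) τ) = 0
    rw [h1, h2, max_self]

theorem Vs_zero (lam : ℝ) (h : 0 ≤ lam) (τ : ℝ) (hτ : τ ∉ Ioo (0 : ℝ) (LL lam)) : Vs lam τ = 0 := by
  show (⨆ n, vv lam n τ) = 0
  rw [ENNReal.iSup_eq_zero]
  exact fun n => vv_zero lam h n τ hτ

theorem ugm : S_ugm := by
  intro lam hlam hU
  have h0 : 0 ≤ lam := by linarith [hlam.1]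
  have hL : 0 ≤ LL lam := by
    unfold LL
    positivity
  have hA : ∀ k : ℕ, volume (Ioo (0 : ℝ) (LL lam) \ {τ | (k : ℝ≥0∞) < Vs lam τ}) ≤
      ENNReal.ofReal (1 / (k + 1)) := by
    intro k
    have hsub : {τ | (k : ℝ≥0∞) < Vs lam τ} ⊆ Ioo (0 : ℝ) (LL lam) := by
      intro τ hτ
      by_contra hcon
      have h1 : (k : ℝ≥0∞) < Vs lam τ := hτ
      rw [Vs_zero lam h0 τ hcon] at h1
      exact absurd h1 (by simp)
    have hm : MeasurableSet {τ | (k : ℝ≥0∞) < Vs lam τ} := measurableSet_lt measurable_const (Vs_meas lam)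
    have hfin : volume {τ | (k : ℝ≥0∞) < Vs lam τ} ≠ ⊤ := by
      refine ne_top_of_le_ne_top ?_ (measure_mono hsub)
      rw [Real.volume_Ioo]
      exact ENNReal.ofReal_ne_top
    rw [measure_sdiff hsub hm.nullMeasurableSet hfin, Real.volume_Ioo, sub_zero, tsub_le_iff_left]
    have h2 : ENNReal.ofReal (LL lam - 1 / (k + 1)) < volume {τ | (k : ℝ≥0∞) < Vs lam τ} := hU k
    calc ENNReal.ofReal (LL lam) = ENNReal.ofReal ((LL lam - 1 / (k + 1)) + 1 / (k + 1)) := by
          congr 1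
          ring
      _ ≤ ENNReal.ofReal (LL lam - 1 / (k + 1)) + ENNReal.ofReal (1 / (k + 1)) := ENNReal.ofReal_add_le
      _ ≤ _ := add_le_add_left h2.le _
  have hB : ∀ m : ℕ, volume (Ioo (0 : ℝ) (LL lam) \ {τ | (m : ℝ≥0∞) < Vs lam τ}) = 0 := by
    intro m
    have h1 : Tendsto (fun k : ℕ => ENNReal.ofReal (1 / ((k : ℝ) + 1))) atTop (𝓝 0) := by
      have := ENNReal.tendsto_ofReal (tendsto_one_div_add_atTop_nhds_zero_nat (𝕜 := ℝ))
      rwa [ENNReal.ofReal_zero] at this
    refine le_antisymm (ge_of_tendsto h1 ?_) bot_le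
    filter_upwards [eventually_ge_atTop m] with k hk
    refine le_trans (measure_mono ?_) (hA k)
    rintro τ ⟨h2, h3⟩
    refine ⟨h2, fun h4 => h3 ?_⟩
    have h5 : (k : ℝ≥0∞) < Vs lam τ := h4
    have h6 : (m : ℝ≥0∞) ≤ k := by exact_mod_cast hk
    exact lt_of_le_of_lt h6 h5
  rw [ae_restrict_iff' measurableSet_Ioo, ae_iff]
  refine measure_mono_null ?_ (measure_iUnion_null hB)
  intro τ hτ
  simp only [mem_setOf_eq, Classical.not_imp] at hτ
  obtain ⟨n, hn⟩ := ENNReal.exists_nat_gt hτ.2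
  rw [mem_iUnion]
  exact ⟨n, hτ.1, fun h => absurd (lt_trans hn h) (lt_irrefl _)⟩

end Pool.Agent.Q121.PS
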