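import Mathlib

set_option autoImplicit false

/-! Rational points of the region of admissible chords of a `5`-cycle. -/

namespace Q121.RatCompletion

lemma lin_irr {u : ℝ} (hu : Irrational u) (a b : ℚ) (h : (a : ℝ) * u = b) : a = 0 ∧ b = 0 := by
  have ha : a = 0 := by
    by_contra ha
    apply hu
    refine ⟨b / a, ?_⟩
    have ha' : (a : ℝ) ≠ 0 := by exact_mod_cast ha
    push_cast
    rw [← h]
    field_simp
  refine ⟨ha, ?_⟩
  rw [ha] at h
  have : (b : ℝ) = 0 := by rw [← h]; simp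
  exact_mod_cast this

/-- Two intervals with rational centres and rational squared radii which have a common point have
a common rational point. -/
lemma oneD (q q' B B' : ℚ) (z : ℝ) (h1 : (z - q) ^ 2 ≤ B) (h2 : (z - q') ^ 2 ≤ B') :
    ∃ w : ℚ, ((w : ℝ) - q) ^ 2 ≤ B ∧ ((w : ℝ) - q') ^ 2 ≤ B' := by
  by_cases hs : ∃ z' : ℝ, (z' - q) ^ 2 < B ∧ (z' - q') ^ 2 < B'
  · have hop : IsOpen {z' : ℝ | (z' - q) ^ 2 < B ∧ (z' - q') ^ 2 < B'} :=
      (isOpen_lt (by fun_prop) (by fun_prop)).and (isOpen_lt (by fun_prop) (by fun_prop))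
    obtain ⟨w, hw⟩ := Rat.isDenseEmbedding_coe_real.dense.exists_mem_open hop hs
    exact ⟨w, hw.1.le, hw.2.le⟩
  -- moving towards the centre
  have move : ∀ (q q' B B' : ℚ) (z : ℝ), (z - q) ^ 2 < B → (z - q') ^ 2 ≤ B' → 0 < (B' : ℝ) →
      ∃ z' : ℝ, (z' - q) ^ 2 < B ∧ (z' - q') ^ 2 < B' := by
    intro q q' B B' z h1 h2 hB'
    have hop : IsOpen {δ : ℝ | (z + δ * (q' - z) - q) ^ 2 < B} :=
      isOpen_lt (by fun_prop) (by fun_prop)
    have h0 : (0 : ℝ) ∈ {δ : ℝ | (z + δ * (q' - z) - q) ^ 2 < B} := by simpa using h1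
    obtain ⟨ε, hε, hball⟩ := Metric.isOpen_iff.1 hop 0 h0
    set δ := min (ε / 2) (1 / 2) with hδ
    have hδ0 : 0 < δ := by positivity
    have hδ1 : δ ≤ 1 / 2 := min_le_right _ _
    refine ⟨z + δ * (q' - z), hball ?_, ?_⟩
    · rw [Metric.mem_ball, Real.dist_eq, sub_zero, abs_of_pos hδ0]
      have := min_le_left (ε / 2) (1 / 2 : ℝ)
      linarith
    · have : z + δ * (q' - z) - q' = (1 - δ) * (z - q') := by ring
      rw [this, mul_pow]
      have h4 : (1 - δ) ^ 2 < 1 := by nlinarith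
      have h5 : 0 ≤ (z - q') ^ 2 := sq_nonneg _
      have h6 : 0 ≤ (1 - δ) ^ 2 := sq_nonneg _
      nlinarith
  by_cases hB : (z - q) ^ 2 < B
  · rcases (lt_or_ge 0 (B' : ℝ)) with hB' | hB'
    · exact absurd (move q q' B B' z hB h2 hB') hs
    · have h3 : (z - q') ^ 2 ≤ 0 := h2.trans hB'
      have h4 : z - q' = 0 := by nlinarith [sq_nonneg (z - q')]
      have h5 : z = q' := by linarith
      rw [h5] at h1 h2
      exact ⟨q', h1, h2⟩
  by_cases hB' : (z - q') ^ 2 < B'
  · rcases (lt_or_ge 0 (B : ℝ)) with hB2 | hB2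
    · obtain ⟨z', h3, h4⟩ := move q' q B' B z hB' h1 hB2
      exact absurd ⟨z', h4, h3⟩ hs
    · have h3 : (z - q) ^ 2 ≤ 0 := h1.trans hB2
      have h4 : z - q = 0 := by nlinarith [sq_nonneg (z - q)]
      have h5 : z = q := by linarith
      rw [h5] at h1 h2
      exact ⟨q, h1, h2⟩
  have e1 : (z - q) ^ 2 = B := le_antisymm h1 (not_lt.1 hB)
  have e2 : (z - q') ^ 2 = B' := le_antisymm h2 (not_lt.1 hB')
  by_cases hρ : q' = q
  · subst hρ
    refine ⟨q', ?_, ?_⟩
    · rw [sub_self, ← e1]; nlinarith [sq_nonneg (z - q')]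
    · rw [sub_self, ← e2]; nlinarith [sq_nonneg (z - q')]
  · have hρ' : ((q' : ℝ) - q) ≠ 0 := by
      rw [sub_ne_zero]; exact_mod_cast hρ
    have key : z = ((q + (B + (q' - q) ^ 2 - B') / (2 * (q' - q)) : ℚ) : ℝ) := by
      push_cast
      have : (B : ℝ) + (q' - q) ^ 2 - B' = 2 * (q' - q) * (z - q) := by
        rw [← e1, ← e2]; ring
      rw [this]
      field_simp
      ring
    exact ⟨_, by rw [← key]; exact h1, by rw [← key]; exact h2⟩

/-- The two-dimensional case: if `(y, z)` is in the region and strictly inside in the `z`-direction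
then there is a strictly interior point, or `y = ± 1` and `z = c y`. -/
lemma step (p q A B c : ℝ) (hA : 0 < A) (y z : ℝ) (h1 : (y - p) ^ 2 ≤ A)
    (h2 : (z - q) ^ 2 < B) (h3 : y ^ 2 + z ^ 2 - 2 * c * y * z ≤ 1 - c ^ 2) (hc : c ^ 2 < 1) :
    (∃ y1 z1 : ℝ, (y1 - p) ^ 2 < A ∧ (z1 - q) ^ 2 < B ∧
      y1 ^ 2 + z1 ^ 2 - 2 * c * y1 * z1 < 1 - c ^ 2) ∨ (y ^ 2 = 1 ∧ z = c * y) := by
  -- first part: if the third inequality is strict somewhere on the vertical line
  have fin : ∀ z1 : ℝ, (z1 - q) ^ 2 < B → y ^ 2 + z1 ^ 2 - 2 * c * y * z1 < 1 - c ^ 2 →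
      ∃ y1 z1 : ℝ, (y1 - p) ^ 2 < A ∧ (z1 - q) ^ 2 < B ∧
      y1 ^ 2 + z1 ^ 2 - 2 * c * y1 * z1 < 1 - c ^ 2 := by
    intro z1 hz1 hf
    have hop : IsOpen {δ : ℝ | (y + δ * (p - y)) ^ 2 + z1 ^ 2 - 2 * c * (y + δ * (p - y)) * z1 <
        1 - c ^ 2} := isOpen_lt (by fun_prop) (by fun_prop)
    have h0 : (0 : ℝ) ∈ {δ : ℝ | (y + δ * (p - y)) ^ 2 + z1 ^ 2 -
        2 * c * (y + δ * (p - y)) * z1 < 1 - c ^ 2} := by simpa using hf
    obtain ⟨ε, hε, hball⟩ := Metric.isOpen_iff.1 hop 0 h0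
    set δ := min (ε / 2) (1 / 2) with hδ
    have hδ0 : 0 < δ := by positivity
    have hδ1 : δ ≤ 1 / 2 := min_le_right _ _
    refine ⟨y + δ * (p - y), z1, ?_, hz1, hball ?_⟩
    · have : y + δ * (p - y) - p = (1 - δ) * (y - p) := by ring
      rw [this, mul_pow]
      have h4 : (1 - δ) ^ 2 < 1 := by nlinarith
      have h5 : 0 ≤ (y - p) ^ 2 := sq_nonneg _
      have h6 : 0 ≤ (1 - δ) ^ 2 := sq_nonneg _
      nlinarith
    · rw [Metric.mem_ball, Real.dist_eq, sub_zero, abs_of_pos hδ0]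
      have := min_le_left (ε / 2) (1 / 2 : ℝ)
      linarith
  rcases lt_or_eq_of_le h3 with h4 | h4
  · exact Or.inl (fin z h2 h4)
  by_cases hg : z - c * y = 0
  · right
    have hz : z = c * y := by linarith
    refine ⟨?_, hz⟩
    rw [hz] at h4
    have h5 : (1 - c ^ 2) * (y ^ 2 - 1) = 0 := by nlinarith
    rcases mul_eq_zero.1 h5 with h6 | h6
    · linarith
    · linarith
  · left
    have hop : IsOpen {η : ℝ | (z - η * (z - c * y) - q) ^ 2 < B} :=
      isOpen_lt (by fun_prop) (by fun_prop)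
    have h0 : (0 : ℝ) ∈ {η : ℝ | (z - η * (z - c * y) - q) ^ 2 < B} := by simpa using h2
    obtain ⟨ε, hε, hball⟩ := Metric.isOpen_iff.1 hop 0 h0
    set δ := min (ε / 2) (1 / 2) with hδ
    have hδ0 : 0 < δ := by positivity
    have hδ1 : δ ≤ 1 / 2 := min_le_right _ _
    apply fin (z - δ * (z - c * y))
    · apply hball
      rw [Metric.mem_ball, Real.dist_eq, sub_zero, abs_of_pos hδ0]
      have := min_le_left (ε / 2) (1 / 2 : ℝ)
      linarith
    · have hg2 : 0 < (z - c * y) ^ 2 := by positivity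
      have : y ^ 2 + (z - δ * (z - c * y)) ^ 2 - 2 * c * y * (z - δ * (z - c * y)) =
          (y ^ 2 + z ^ 2 - 2 * c * y * z) - δ * (2 - δ) * (z - c * y) ^ 2 := by ring
      rw [this, h4]
      have : 0 < δ * (2 - δ) := by nlinarith
      nlinarith [mul_pos this hg2]

lemma rat_of_sq_one {y : ℝ} (hy : y ^ 2 = 1) : ∃ y' : ℚ, (y' : ℝ) = y := by
  have h0 : (y - 1) * (y + 1) = 0 := by nlinarith
  rcases mul_eq_zero.1 h0 with h | h
  · exact ⟨1, by push_cast; linarith⟩
  · exact ⟨-1, by push_cast; linarith⟩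

/-- The algebraic part: both bounds of the rectangle are attained. -/
lemma tight (p q A B c : ℚ) (hA : 0 < A) (u v : ℝ) (hu2 : u ^ 2 = A) (hv2 : v ^ 2 = B)
    (hc : c ^ 2 < 1)
    (hf : (p + u) ^ 2 + (q + v) ^ 2 - 2 * c * (p + u) * (q + v) = 1 - (c : ℝ) ^ 2) :
    ∃ y' z' : ℚ, ((y' : ℝ) - p) ^ 2 ≤ A ∧ ((z' : ℝ) - q) ^ 2 ≤ B ∧
      (y' : ℝ) ^ 2 + (z' : ℝ) ^ 2 - 2 * c * y' * z' ≤ 1 - (c : ℝ) ^ 2 := by
  have hcR : (c : ℝ) ^ 2 < 1 := by exact_mod_cast hc
  have hB0 : (0 : ℝ) ≤ B := by rw [← hv2]; positivity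
  have hA0 : (0 : ℝ) ≤ A := by rw [← hu2]; positivity
  by_cases hu : Irrational u
  · by_cases hv : Irrational v
    · -- the centre of the rectangle
      suffices h : ((p : ℝ)) ^ 2 + (q : ℝ) ^ 2 - 2 * c * p * q ≤ 1 - (c : ℝ) ^ 2 from
        ⟨p, q, by rw [sub_self]; simpa using hA0, by rw [sub_self]; simpa using hB0, h⟩
      have hquad : 0 ≤ u ^ 2 + v ^ 2 - 2 * c * u * v := by
        nlinarith [sq_nonneg (u - c * v), sq_nonneg v, sq_nonneg (v - c * u), sq_nonneg u]
      by_cases huv : Irrational (u * v)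
      · -- all coefficients vanish
        by_cases hN : 2 * (q - c * p : ℝ) - 2 * c * u = 0
        · have h1 := lin_irr hu c (q - c * p) (by push_cast; linarith)
          have h2 : (p - c * q : ℝ) = (p - c * q : ℚ) := by push_cast; ring
          have hc0 : c = 0 := h1.1
          have hq0 : q = 0 := by
            have := h1.2
            rw [hc0] at this
            simpa using this
          subst hc0
          subst hq0
          have h3 : ((2 * p : ℚ) : ℝ) * u = ((1 - p ^ 2 - A - B : ℚ) : ℝ) := by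
            push_cast
            push_cast at hf
            nlinarith
          have h4 := lin_irr hu _ _ h3
          have hp0 : p = 0 := by
            have := h4.1
            linarith
          subst hp0
          norm_num
        · exfalso
          have hNq : (q - c * p : ℚ) ^ 2 - c ^ 2 * A ≠ 0 := by
            intro h0
            have h1 : (2 * (q - c * p : ℝ) - 2 * c * u) * (2 * (q - c * p : ℝ) + 2 * c * u) = 0 := by
              have : ((q - c * p : ℝ)) ^ 2 - c ^ 2 * A = 0 := by exact_mod_cast h0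
              nlinarith
            rcases mul_eq_zero.1 h1 with h2 | h2
            · exact hN h2
            · have h3 := lin_irr hu c (-(q - c * p)) (by push_cast; linarith)
              apply hN
              rw [h3.1] at h2 ⊢
              push_cast at h2 ⊢
              linarith
          set N : ℚ := 4 * ((q - c * p : ℚ) ^ 2 - c ^ 2 * A) with hNdef
          have hN0 : N ≠ 0 := mul_ne_zero (by norm_num) hNq
          have hN0' : (N : ℝ) ≠ 0 := by exact_mod_cast hN0
          set r0 : ℚ := p ^ 2 + q ^ 2 - 2 * c * p * q + A + B - 1 + c ^ 2 with hr0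
          set P : ℚ := p - c * q with hP
          set Q : ℚ := q - c * p with hQ
          set α : ℚ := -(2 * Q * r0 + 4 * P * c * A) / N with hα
          set β : ℚ := -(2 * c * r0 + 4 * P * Q) / N with hβ
          have hf' : (r0 : ℝ) + 2 * P * u + 2 * Q * v - 2 * c * u * v = 0 := by
            rw [hr0, hP, hQ]
            push_cast
            rw [← hu2, ← hv2]
            linarith
          have hv' : v = α + β * u := by
            rw [hα, hβ]
            push_cast
            field_simp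
            have hNR : (N : ℝ) = 4 * ((Q : ℝ) ^ 2 - c ^ 2 * A) := by rw [hNdef]; push_cast; ring
            rw [hNR, ← hu2]
            have : (2 * (Q : ℝ) + 2 * c * u) * ((r0 : ℝ) + 2 * P * u + 2 * Q * v - 2 * c * u * v) = 0 := by
              rw [hf']; ring
            nlinarith
          have h5 : ((2 * α * β : ℚ) : ℝ) * u = ((B - α ^ 2 - β ^ 2 * A : ℚ) : ℝ) := by
            push_cast
            rw [← hv2, ← hu2, hv']
            ring
          have h6 := (lin_irr hu _ _ h5).1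
          rcases mul_eq_zero.1 h6 with h7 | h7
          · have hα0 : α = 0 := by
              rcases mul_eq_zero.1 h7 with h8 | h8
              · norm_num at h8
              · exact h8
            apply huv
            refine ⟨β * A, ?_⟩
            push_cast
            rw [hv', hα0, ← hu2]
            push_cast
            ring
          · apply hv
            refine ⟨α, ?_⟩
            rw [hv', h7]
            push_cast
            ring
      · -- `u v` rational
        unfold Irrational at huv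
        rw [not_not] at huv
        obtain ⟨ρ, hρ⟩ := huv
        have hA' : (A : ℝ) ≠ 0 := by
          have : A ≠ 0 := hA.ne'
          exact_mod_cast this
        have hv' : v = ρ / A * u := by
          rw [hρ, ← hu2]
          have hu0 : u ≠ 0 := by
            intro h
            rw [h] at hu2
            apply hA'
            rw [← hu2]; ring
          field_simp
        have h5 : ((2 * ((p - c * q) + (q - c * p) * (ρ / A)) : ℚ) : ℝ) * u =
            ((-(p ^ 2 + q ^ 2 - 2 * c * p * q + A + B - 1 + c ^ 2 - 2 * c * ρ) : ℚ) : ℝ) := by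
          push_cast
          have h6 : (2 * (((p : ℝ) - c * q) + (q - c * p) * (ρ / A))) * u =
              2 * (p - c * q) * u + 2 * (q - c * p) * (ρ / A * u) := by ring
          rw [h6, ← hv', ← hu2, ← hv2, hρ]
          linarith
        have h6 := (lin_irr hu _ _ h5).1
        have h7 : ((p : ℝ) - c * q) * u + (q - c * p) * v = 0 := by
          have h8 : ((2 * ((p - c * q) + (q - c * p) * (ρ / A)) : ℚ) : ℝ) = 0 := by
            rw [h6]; simp
          push_cast at h8
          rw [hv']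
          have : (((p : ℝ) - c * q) + (q - c * p) * (ρ / A)) = 0 := by linarith
          calc ((p : ℝ) - c * q) * u + (q - c * p) * (ρ / A * u)
              = (((p : ℝ) - c * q) + (q - c * p) * (ρ / A)) * u := by ring
            _ = 0 := by rw [this]; ring
        nlinarith
    · -- `v` rational
      unfold Irrational at hv
      rw [not_not] at hv
      obtain ⟨v', rfl⟩ := hv
      have h5 : ((2 * (p - c * q) - 2 * c * v' : ℚ) : ℝ) * u =
          ((-(p ^ 2 + q ^ 2 - 2 * c * p * q + A + B - 1 + c ^ 2 + 2 * (q - c * p) * v') : ℚ) : ℝ) := by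
        push_cast
        rw [← hu2, ← hv2]
        linarith
      have h6 := (lin_irr hu _ _ h5).1
      have h7 : (2 * ((p : ℝ) - c * q) - 2 * c * v') = 0 := by exact_mod_cast h6
      refine ⟨p, q + v', by rw [sub_self]; simpa using hA0, ?_, ?_⟩
      · push_cast
        rw [← hv2]
        apply le_of_eq
        ring
      · have h8 : (2 * ((p : ℝ) - c * q) - 2 * c * v') * u = 0 := by rw [h7]; ring
        push_cast
        nlinarith [sq_nonneg u]
  · unfold Irrational at hu
    rw [not_not] at hu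
    obtain ⟨u', rfl⟩ := hu
    by_cases hv : Irrational v
    · have h5 : ((2 * (q - c * p) - 2 * c * u' : ℚ) : ℝ) * v =
          ((-(p ^ 2 + q ^ 2 - 2 * c * p * q + A + B - 1 + c ^ 2 + 2 * (p - c * q) * u') : ℚ) : ℝ) := by
        push_cast
        rw [← hu2, ← hv2]
        linarith
      have h6 := (lin_irr hv _ _ h5).1
      have h7 : (2 * ((q : ℝ) - c * p) - 2 * c * u') = 0 := by exact_mod_cast h6
      refine ⟨p + u', q, ?_, by rw [sub_self]; simpa using hB0, ?_⟩
      · push_cast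
        rw [← hu2]
        apply le_of_eq
        ring
      · have h8 : (2 * ((q : ℝ) - c * p) - 2 * c * u') * v = 0 := by rw [h7]; ring
        push_cast
        nlinarith [sq_nonneg v]
    · unfold Irrational at hv
      rw [not_not] at hv
      obtain ⟨v', rfl⟩ := hv
      refine ⟨p + u', q + v', ?_, ?_, ?_⟩
      · push_cast
        rw [← hu2]
        apply le_of_eq
        ring
      · push_cast
        rw [← hv2]
        apply le_of_eq
        ring
      · push_cast
        exact hf.le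

/-- The region of admissible pairs of chords contains a rational point if it contains a point. -/
theorem exists_rat (p q A B c : ℚ) (hA : 0 ≤ A) (hB : 0 ≤ B) (hc : c ^ 2 ≤ 1) (y z : ℝ)
    (h1 : (y - p) ^ 2 ≤ A) (h2 : (z - q) ^ 2 ≤ B)
    (h3 : y ^ 2 + z ^ 2 - 2 * c * y * z ≤ 1 - (c : ℝ) ^ 2) :
    ∃ y' z' : ℚ, ((y' : ℝ) - p) ^ 2 ≤ A ∧ ((z' : ℝ) - q) ^ 2 ≤ B ∧
      (y' : ℝ) ^ 2 + (z' : ℝ) ^ 2 - 2 * c * y' * z' ≤ 1 - (c : ℝ) ^ 2 := by
  rcases hA.eq_or_lt with hA0 | hA0
  · -- `y = p`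
    have hyp : y = p := by
      rw [← hA0] at h1
      push_cast at h1
      nlinarith [sq_nonneg (y - p)]
    rw [hyp] at h3
    obtain ⟨w, hw1, hw2⟩ := oneD q (c * p) B ((1 - c ^ 2) * (1 - p ^ 2)) z h2 (by
      push_cast; nlinarith)
    refine ⟨p, w, by rw [sub_self, ← hA0]; simp, hw1, ?_⟩
    push_cast at hw2
    nlinarith
  rcases hB.eq_or_lt with hB0 | hB0
  · have hzq : z = q := by
      rw [← hB0] at h2
      push_cast at h2
      nlinarith [sq_nonneg (z - q)]
    rw [hzq] at h3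
    obtain ⟨w, hw1, hw2⟩ := oneD p (c * q) A ((1 - c ^ 2) * (1 - q ^ 2)) y h1 (by
      push_cast; nlinarith)
    refine ⟨w, q, hw1, by rw [sub_self, ← hB0]; simp, ?_⟩
    push_cast at hw2
    nlinarith
  have hA1 : (0 : ℝ) < A := by exact_mod_cast hA0
  have hB1 : (0 : ℝ) < B := by exact_mod_cast hB0
  rcases hc.eq_or_lt with hc1 | hc1
  · -- `c = ± 1`
    have hcR : (c : ℝ) ^ 2 = 1 := by exact_mod_cast hc1
    have hyz : y = c * z := by
      have : (y - c * z) ^ 2 ≤ 0 := by nlinarith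
      nlinarith [sq_nonneg (y - c * z)]
    obtain ⟨w, hw1, hw2⟩ := oneD q (c * p) B A z h2 (by
      push_cast
      have : (z - c * p) ^ 2 = (y - p) ^ 2 := by
        rw [hyz]
        have : (c * z - p) = c * (z - c * p) + (c ^ 2 - 1) * p := by ring
        rw [this, hcR]
        have h5 : ((c : ℝ) * (z - c * p) + (1 - 1) * p) ^ 2 = c ^ 2 * (z - c * p) ^ 2 := by ring
        rw [h5, hcR]; ring
      rw [this]; exact h1)
    refine ⟨c * w, w, ?_, hw1, ?_⟩
    · push_cast
      push_cast at hw2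
      have h5 : ((c : ℝ) * w - p) = c * (w - c * p) + (c ^ 2 - 1) * p := by ring
      rw [h5, hcR]
      have h6 : ((c : ℝ) * (w - c * p) + (1 - 1) * p) ^ 2 = c ^ 2 * (w - c * p) ^ 2 := by ring
      rw [h6, hcR]; linarith
    · push_cast
      rw [hcR]
      have : ((c : ℝ) * w) ^ 2 + (w : ℝ) ^ 2 - 2 * c * (c * w) * w = (1 - c ^ 2) * w ^ 2 := by ring
      rw [this, hcR]; norm_num
  have hcR : (c : ℝ) ^ 2 < 1 := by exact_mod_cast hc1
  -- strictly interior points
  have dens : (∃ y1 z1 : ℝ, (y1 - p) ^ 2 < A ∧ (z1 - q) ^ 2 < B ∧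
      y1 ^ 2 + z1 ^ 2 - 2 * c * y1 * z1 < 1 - (c : ℝ) ^ 2) →
      ∃ y' z' : ℚ, ((y' : ℝ) - p) ^ 2 ≤ A ∧ ((z' : ℝ) - q) ^ 2 ≤ B ∧
      (y' : ℝ) ^ 2 + (z' : ℝ) ^ 2 - 2 * c * y' * z' ≤ 1 - (c : ℝ) ^ 2 := by
    rintro ⟨y1, z1, a1, a2, a3⟩
    have hop : IsOpen {x : ℝ × ℝ | (x.1 - p) ^ 2 < A ∧ (x.2 - q) ^ 2 < B ∧
        x.1 ^ 2 + x.2 ^ 2 - 2 * c * x.1 * x.2 < 1 - (c : ℝ) ^ 2} :=
      (isOpen_lt (by fun_prop) (by fun_prop)).and
        ((isOpen_lt (by fun_prop) (by fun_prop)).and (isOpen_lt (by fun_prop) (by fun_prop)))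
    obtain ⟨w, hw⟩ := (Rat.denseRange_cast (𝕜 := ℝ)).prodMap (Rat.denseRange_cast (𝕜 := ℝ)) |>.exists_mem_open
      hop ⟨(y1, z1), a1, a2, a3⟩
    exact ⟨w.1, w.2, hw.1.le, hw.2.1.le, hw.2.2.le⟩
  by_cases hz' : (z - q) ^ 2 < B
  · rcases step p q A B c hA1 y z h1 hz' h3 hcR with h | ⟨h, h'⟩
    · exact dens h
    · obtain ⟨y', hy'⟩ := rat_of_sq_one h
      refine ⟨y', c * y', by rw [hy']; exact h1, ?_, ?_⟩
      · push_cast; rw [hy', ← h']; exact h2
      · push_cast; rw [hy', ← h']; exact h3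
  by_cases hy' : (y - p) ^ 2 < A
  · rcases step q p B A c hB1 z y h2 hy' (by linarith) hcR with h | ⟨h, h'⟩
    · obtain ⟨z1, y1, b1, b2, b3⟩ := h
      exact dens ⟨y1, z1, b2, b1, by linarith⟩
    · obtain ⟨z', hz''⟩ := rat_of_sq_one h
      refine ⟨c * z', z', ?_, by rw [hz'']; exact h2, ?_⟩
      · push_cast; rw [hz'', ← h']; exact h1
      · push_cast; rw [hz'', ← h']; exact h3
  have e1 : (y - p) ^ 2 = A := le_antisymm h1 (not_lt.1 hy')
  have e2 : (z - q) ^ 2 = B := le_antisymm h2 (not_lt.1 hz')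
  rcases lt_or_eq_of_le h3 with h4 | h4
  · -- move towards the centre
    have hop : IsOpen {δ : ℝ | (y + δ * (p - y)) ^ 2 + (z + δ * (q - z)) ^ 2 -
        2 * c * (y + δ * (p - y)) * (z + δ * (q - z)) < 1 - (c : ℝ) ^ 2} :=
      isOpen_lt (by fun_prop) (by fun_prop)
    have h0 : (0 : ℝ) ∈ {δ : ℝ | (y + δ * (p - y)) ^ 2 + (z + δ * (q - z)) ^ 2 -
        2 * c * (y + δ * (p - y)) * (z + δ * (q - z)) < 1 - (c : ℝ) ^ 2} := by simpa using h4
    obtain ⟨ε, hε, hball⟩ := Metric.isOpen_iff.1 hop 0 h0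
    set δ := min (ε / 2) (1 / 2) with hδ
    have hδ0 : 0 < δ := by positivity
    have hδ1 : δ ≤ 1 / 2 := min_le_right _ _
    have h5 : (1 - δ) ^ 2 < 1 := by nlinarith
    apply dens
    refine ⟨y + δ * (p - y), z + δ * (q - z), ?_, ?_, hball ?_⟩
    · have : y + δ * (p - y) - p = (1 - δ) * (y - p) := by ring
      rw [this, mul_pow, e1]
      nlinarith
    · have : z + δ * (q - z) - q = (1 - δ) * (z - q) := by ring
      rw [this, mul_pow, e2]
      nlinarith
    · rw [Metric.mem_ball, Real.dist_eq, sub_zero, abs_of_pos hδ0]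
      have := min_le_left (ε / 2) (1 / 2 : ℝ)
      linarith
  · exact tight p q A B c hA0 (y - p) (z - q) e1 e2 hc1 (by
      have h5 : (p : ℝ) + (y - p) = y := by ring
      have h6 : (q : ℝ) + (z - q) = z := by ring
      rw [h5, h6]; exact h4)

end Q121.RatCompletion
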