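import Mathlib
import Pool.Agent.Q16.SQ.Stm5

/-!
# Project SQ (helper16), JOB D6
-/

set_option autoImplicit false

namespace Pool.Agent.Q121.SQ_D6

theorem t_D6 : Q16.SQ.S_D6 := by
  intro A hpos hsum hne d hd hm
  choose m hm using hm
  have hpi := Real.pi_pos
  have hd0 : 0 < d := by omega
  have hd1 : (0 : ℝ) < d := by exact_mod_cast hd0
  have hmpos : ∀ j, 0 < m j := by
    intro j
    rcases Nat.eq_zero_or_pos (m j) with h | h
    · exfalso
      have h1 := hm j
      rw [h] at h1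
      have h2 := hpos j
      rw [h1] at h2
      simp at h2
    · exact h
  have hs : m 0 + m 1 + m 2 = d := by
    have h1 : ((m 0 : ℝ) + m 1 + m 2) * Real.pi / d = Real.pi := by
      rw [hm 0, hm 1, hm 2] at hsum
      calc ((m 0 : ℝ) + m 1 + m 2) * Real.pi / d
          = (m 0 : ℝ) * Real.pi / d + m 1 * Real.pi / d + m 2 * Real.pi / d := by ring
        _ = Real.pi := hsum
    have h2 : ((m 0 : ℝ) + m 1 + m 2) * Real.pi = d * Real.pi := by
      rw [div_eq_iff hd1.ne'] at h1
      linarith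
    have h3 : ((m 0 : ℝ) + m 1 + m 2) = d := mul_right_cancel₀ hpi.ne' h2
    exact_mod_cast h3
  have hmne : ∀ i j, i ≠ j → m i ≠ m j := by
    intro i j hij h
    apply hne i j hij
    rw [hm i, hm j, h]
  have h01 := hmne 0 1 (by decide)
  have h02 := hmne 0 2 (by decide)
  have h12 := hmne 1 2 (by decide)
  have p0 := hmpos 0
  have p1 := hmpos 1
  have p2 := hmpos 2
  rcases hd with h | h | h
  · omega
  · omega
  · have e1 : m 0 = 1 ∨ m 1 = 1 ∨ m 2 = 1 := by omega
    have e2 : m 0 = 2 ∨ m 1 = 2 ∨ m 2 = 2 := by omega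
    have i1 : ∃ i, m i = 1 := by
      rcases e1 with h | h | h
      · exact ⟨0, h⟩
      · exact ⟨1, h⟩
      · exact ⟨2, h⟩
    have i2 : ∃ i, m i = 2 := by
      rcases e2 with h | h | h
      · exact ⟨0, h⟩
      · exact ⟨1, h⟩
      · exact ⟨2, h⟩
    obtain ⟨i, hi⟩ := i1
    obtain ⟨j, hj⟩ := i2
    refine ⟨i, j, ?_, ?_⟩
    · rw [hm i, hi, h]
      push_cast
      ring
    · rw [hm j, hj, h]
      push_cast
      ring

end Pool.Agent.Q121.SQ_D6
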