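import Mathlib
import Pool.Agent.Q16.SQ.Stm5
import Pool.Agent.Helper549.Tri.Basic

/-!
# Project SQ (helper16), JOB LINESUM: sum of the line identity over all lines
-/

set_option autoImplicit false

namespace Pool.Agent.Q121.SQ_LINESUM

open Pool.Agent.Helper549.Tri Pool.Agent.Helper549.Tri.Basic

/-- the same line, up to the sign -/
def Same (q p : ℂ × ℝ) : Prop := (q.1 = p.1 ∧ q.2 = p.2) ∨ (q.1 = -p.1 ∧ q.2 = -p.2)

theorem same_iff (q p : ℂ × ℝ) : Same q p ↔ p = q ∨ p = -q := by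
  unfold Same
  constructor
  · rintro (⟨h1, h2⟩ | ⟨h1, h2⟩)
    · left; exact Prod.ext h1.symm h2.symm
    · right
      refine Prod.ext ?_ ?_
      · show p.1 = -q.1
        rw [h1, neg_neg]
      · show p.2 = -q.2
        rw [h2, neg_neg]
  · rintro (h | h)
    · left; rw [h]; exact ⟨rfl, rfl⟩
    · right
      rw [h]
      refine ⟨?_, ?_⟩
      · show q.1 = -(-q.1)
        rw [neg_neg]
      · show q.2 = -(-q.2)
        rw [neg_neg]

open Classical in
theorem count (P : Finset (ℂ × ℝ)) (hneg : ∀ p ∈ P, -p ∈ P) (q : ℂ × ℝ) (hq : q ∈ P)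
    (hn : ‖q.1‖ = 1) (c : ℝ) : ∑ p ∈ P, (if Same q p then c else 0) = 2 * c := by
  have hqn : q ≠ -q := by
    intro h
    have h1 : q.1 = -q.1 := congrArg Prod.fst h
    have h2 : q.1 = 0 := self_eq_neg.mp h1
    rw [h2, norm_zero] at hn
    norm_num at hn
  have hstep : ∀ p ∈ P, (if Same q p then c else 0) =
      (if p = q then c else 0) + (if p = -q then c else 0) := by
    intro p _
    by_cases h1 : p = q
    · have h2 : ¬ p = -q := by rw [h1]; exact hqn
      rw [if_pos ((same_iff q p).2 (Or.inl h1)), if_pos h1, if_neg h2, add_zero]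
    · by_cases h2 : p = -q
      · rw [if_pos ((same_iff q p).2 (Or.inr h2)), if_neg h1, if_pos h2, zero_add]
      · rw [if_neg (fun h => (((same_iff q p).1 h).elim h1 h2)), if_neg h1, if_neg h2, add_zero]
  rw [Finset.sum_congr rfl hstep, Finset.sum_add_distrib, Finset.sum_ite_eq', Finset.sum_ite_eq',
    if_pos hq, if_pos (hneg q hq)]
  ring

open Classical in
theorem t_LINESUM (h : Q16.SQ.S_LINEH) : Q16.SQ.S_LINESUM := by
  intro N T t hD H hH
  have hHs : ∀ (q p : ℂ × ℝ) (z : ℂ), Same q p → H q.1 q.2 z = H p.1 p.2 z := by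
    intro q p z hs
    rcases hs with ⟨h1, h2⟩ | ⟨h1, h2⟩
    · rw [h1, h2]
    · rw [h1, h2, hH]
  let P0 : Finset (ℂ × ℝ) := (Finset.univ.image fun k : Fin 3 => (dir T k, lev T k)) ∪
    (Finset.univ.image fun q : Fin N × Fin 3 => (dir (t q.1) q.2, lev (t q.1) q.2))
  let P : Finset (ℂ × ℝ) := P0 ∪ P0.image (fun p => -p)
  have hP0n : ∀ p ∈ P0, ‖p.1‖ = 1 := by
    intro p hp
    rcases Finset.mem_union.1 hp with hp | hp
    · obtain ⟨k, _, rfl⟩ := Finset.mem_image.1 hp
      exact norm_dir T hD.ccwT k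
    · obtain ⟨q, _, rfl⟩ := Finset.mem_image.1 hp
      exact norm_dir (t q.1) (hD.ccwt q.1) q.2
  have hPn : ∀ p ∈ P, ‖p.1‖ = 1 := by
    intro p hp
    rcases Finset.mem_union.1 hp with hp | hp
    · exact hP0n p hp
    · obtain ⟨q, hq, rfl⟩ := Finset.mem_image.1 hp
      show ‖-q.1‖ = 1
      rw [norm_neg]
      exact hP0n q hq
  have hneg : ∀ p ∈ P, -p ∈ P := by
    intro p hp
    rcases Finset.mem_union.1 hp with hp | hp
    · exact Finset.mem_union.2 (Or.inr (Finset.mem_image_of_mem _ hp))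
    · obtain ⟨q, hq, rfl⟩ := Finset.mem_image.1 hp
      rw [neg_neg]
      exact Finset.mem_union.2 (Or.inl hq)
  have hmt : ∀ i k, ((dir (t i) k, lev (t i) k) : ℂ × ℝ) ∈ P := fun i k =>
    Finset.mem_union.2 (Or.inl (Finset.mem_union.2 (Or.inr
      (Finset.mem_image.2 ⟨(i, k), Finset.mem_univ _, rfl⟩))))
  have hmT : ∀ k, ((dir T k, lev T k) : ℂ × ℝ) ∈ P := fun k =>
    Finset.mem_union.2 (Or.inl (Finset.mem_union.2 (Or.inl
      (Finset.mem_image.2 ⟨k, Finset.mem_univ _, rfl⟩))))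
  have hside : ∀ (v : Fin 3 → ℂ) (k : Fin 3), 0 < dd v → ((dir v k, lev v k) : ℂ × ℝ) ∈ P →
      2 * (H (dir v k) (lev v k) (v (k + 2)) - H (dir v k) (lev v k) (v (k + 1))) =
      ∑ p ∈ P, (if (dir v k = p.1 ∧ lev v k = p.2) ∨ (dir v k = -p.1 ∧ lev v k = -p.2) then
        H p.1 p.2 (v (k + 2)) - H p.1 p.2 (v (k + 1)) else 0) := by
    intro v k hv hm
    rw [← count P hneg (dir v k, lev v k) hm (norm_dir v hv k)]
    apply Finset.sum_congr rfl
    intro p _
    by_cases hs : Same (dir v k, lev v k) p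
    · have hs' : (dir v k = p.1 ∧ lev v k = p.2) ∨ (dir v k = -p.1 ∧ lev v k = -p.2) := hs
      rw [if_pos hs, if_pos hs']
      have e1 := hHs (dir v k, lev v k) p (v (k + 2)) hs
      have e2 := hHs (dir v k, lev v k) p (v (k + 1)) hs
      rw [← e1, ← e2]
    · have hs' : ¬ ((dir v k = p.1 ∧ lev v k = p.2) ∨ (dir v k = -p.1 ∧ lev v k = -p.2)) := hs
      rw [if_neg hs, if_neg hs']
  have key : 2 * (∑ i, ∑ k : Fin 3, (H (dir (t i) k) (lev (t i) k) (t i (k + 2)) -
        H (dir (t i) k) (lev (t i) k) (t i (k + 1)))) =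
      2 * ∑ k : Fin 3, (H (dir T k) (lev T k) (T (k + 2)) - H (dir T k) (lev T k) (T (k + 1))) := by
    calc 2 * (∑ i, ∑ k : Fin 3, (H (dir (t i) k) (lev (t i) k) (t i (k + 2)) -
        H (dir (t i) k) (lev (t i) k) (t i (k + 1))))
        = ∑ i, ∑ k : Fin 3, ∑ p ∈ P, (if (dir (t i) k = p.1 ∧ lev (t i) k = p.2) ∨
            (dir (t i) k = -p.1 ∧ lev (t i) k = -p.2) then
            H p.1 p.2 (t i (k + 2)) - H p.1 p.2 (t i (k + 1)) else 0) := by
          rw [Finset.mul_sum]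
          apply Finset.sum_congr rfl
          intro i _
          rw [Finset.mul_sum]
          apply Finset.sum_congr rfl
          intro k _
          exact hside (t i) k (hD.ccwt i) (hmt i k)
      _ = ∑ p ∈ P, ∑ i, ∑ k : Fin 3, (if (dir (t i) k = p.1 ∧ lev (t i) k = p.2) ∨
            (dir (t i) k = -p.1 ∧ lev (t i) k = -p.2) then
            H p.1 p.2 (t i (k + 2)) - H p.1 p.2 (t i (k + 1)) else 0) := by
          rw [Finset.sum_comm]
          have e : ∀ i ∈ (Finset.univ : Finset (Fin N)), ∑ k : Fin 3, ∑ p ∈ P,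
            (if (dir (t i) k = p.1 ∧ lev (t i) k = p.2) ∨
            (dir (t i) k = -p.1 ∧ lev (t i) k = -p.2) then
            H p.1 p.2 (t i (k + 2)) - H p.1 p.2 (t i (k + 1)) else 0) =
            ∑ p ∈ P, ∑ k : Fin 3, (if (dir (t i) k = p.1 ∧ lev (t i) k = p.2) ∨
            (dir (t i) k = -p.1 ∧ lev (t i) k = -p.2) then
            H p.1 p.2 (t i (k + 2)) - H p.1 p.2 (t i (k + 1)) else 0) := fun i _ => Finset.sum_comm
          rw [Finset.sum_comm, Finset.sum_congr rfl e, Finset.sum_comm]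
      _ = ∑ p ∈ P, ∑ k : Fin 3, (if (dir T k = p.1 ∧ lev T k = p.2) ∨
            (dir T k = -p.1 ∧ lev T k = -p.2) then
            H p.1 p.2 (T (k + 2)) - H p.1 p.2 (T (k + 1)) else 0) := by
          apply Finset.sum_congr rfl
          intro p hp
          exact h hD p.1 p.2 (hPn p hp) (H p.1 p.2)
      _ = ∑ k : Fin 3, ∑ p ∈ P, (if (dir T k = p.1 ∧ lev T k = p.2) ∨
            (dir T k = -p.1 ∧ lev T k = -p.2) then
            H p.1 p.2 (T (k + 2)) - H p.1 p.2 (T (k + 1)) else 0) := Finset.sum_comm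
      _ = 2 * ∑ k : Fin 3, (H (dir T k) (lev T k) (T (k + 2)) -
            H (dir T k) (lev T k) (T (k + 1))) := by
          rw [Finset.mul_sum]
          apply Finset.sum_congr rfl
          intro k _
          exact (hside T k hD.ccwT (hmT k)).symm
  linarith

end Pool.Agent.Q121.SQ_LINESUM
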