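import Pool.Agent.Q16.XP.Stm

set_option autoImplicit false

namespace Pool.Agent.Q121.XP_B2

open Q16.XP

theorem mf {n p : ℕ} (hn : n ≠ 1) (hp : p.Prime) (hpn : p ∣ n)
    (h : ∀ q : ℕ, q.Prime → q ∣ n → p ≤ q) : n.minFac = p :=
  le_antisymm (Nat.minFac_le_of_dvd hp.two_le hpn) (h _ (Nat.minFac_prime hn) (Nat.minFac_dvd n))

theorem t_B2 (h : S_D1) : S_B2 := by
  intro p a b hp ha hb hma hmb hlt
  have ha0 : a ≠ 0 := by omega
  have hb0 : b ≠ 0 := by omega
  have hpa : p ∣ a := hma ▸ Nat.minFac_dvd a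
  have hpb : p ∣ b := hmb ▸ Nat.minFac_dvd b
  have hqa : ∀ q : ℕ, q.Prime → q ∣ a → p ≤ q := fun q hq hqa =>
    hma ▸ Nat.minFac_le_of_dvd hq.two_le hqa
  have hqb : ∀ q : ℕ, q.Prime → q ∣ b → p ≤ q := fun q hq hqb =>
    hmb ▸ Nat.minFac_le_of_dvd hq.two_le hqb
  have hp2 := hp.two_le
  have hpow0 : a ^ b ≠ 0 := pow_ne_zero _ ha0
  have hm1 : (a * b).minFac = p := by
    refine mf (fun hh => hp.one_lt.ne' (Nat.dvd_one.1 (hh ▸ hpa.mul_right b))) hp (hpa.mul_right b) ?_
    intro q hq hd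
    rcases (hq.dvd_mul).1 hd with h1 | h1
    · exact hqa q hq h1
    · exact hqb q hq h1
  have hm2 : (a ^ b).minFac = p := by
    have hd : p ∣ a ^ b := dvd_pow hpa hb0
    refine mf (fun hh => hp.one_lt.ne' (Nat.dvd_one.1 (hh ▸ hd))) hp hd ?_
    intro q hq hd
    exact hqa q hq (hq.dvd_of_dvd_pow hd)
  have hm3 : (a ^ b * b).minFac = p := by
    have hd : p ∣ a ^ b * b := hpb.mul_left _
    refine mf (fun hh => hp.one_lt.ne' (Nat.dvd_one.1 (hh ▸ hd))) hp hd ?_
    intro q hq hd
    rcases (hq.dvd_mul).1 hd with h1 | h1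
    · exact hqa q hq (hq.dvd_of_dvd_pow h1)
    · exact hqb q hq h1
  have e1 : ex (a * b) = ex a + ex b := by
    unfold ex
    rw [hm1, hma, hmb, Nat.factorization_mul ha0 hb0, Finsupp.add_apply]
  have e2 : ex (a ^ b) = b * ex a := by
    unfold ex
    rw [hm2, hma, Nat.factorization_pow, Finsupp.smul_apply, smul_eq_mul]
  have e3 : ex (a ^ b * b) = ex b + b * ex a := by
    unfold ex
    rw [hm3, hma, hmb, Nat.factorization_mul hpow0 hb0, Finsupp.add_apply, Nat.factorization_pow,
      Finsupp.smul_apply, smul_eq_mul, add_comm]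
  have hex : ex b = b.factorization p := by unfold ex; rw [hmb]
  have hal : 0 < ex a := by
    unfold ex
    rw [hma]
    exact hp.factorization_pos_of_dvd ha0 hpa
  have hbe : 0 < ex b := by
    rw [hex]
    exact hp.factorization_pos_of_dvd hb0 hpb
  generalize hal' : ex a = al at *
  generalize hbe' : ex b = be at *
  have hl1 : Nat.log p al + 2 < p ^ (Nat.log p al + 2) := Nat.lt_pow_self hp.one_lt
  have hvbe : be.factorization p ≤ be := by
    have h1 : be.factorization p < p ^ be.factorization p := Nat.lt_pow_self hp.one_lt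
    have h2 : p ^ be.factorization p ≤ be := Nat.ordProj_le p hbe.ne'
    omega
  have hval : al.factorization p ≤ Nat.log p al := by
    have h2 : p ^ al.factorization p ≤ al := Nat.ordProj_le p hal.ne'
    exact (Nat.le_log_iff_pow_le hp.one_lt hal.ne').2 h2
  -- first sum
  have s1 : DS p (G2 p) (al + be) = DS p (G2 p) al + 1 + DS p (G2 p) be := by
    have h1 := h p hp (G2 p) al be (be.factorization p) hal hbe (Nat.ordProj_dvd be p) (by
      calc al < p ^ (Nat.log p al + 1) := Nat.lt_pow_succ_log_self hp.one_lt al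
        _ ≤ p ^ be.factorization p := Nat.pow_le_pow_right hp.pos (by omega))
    rw [h1]
    unfold G2
    rw [if_pos hlt]
  have hv : (b * al).factorization p = be + al.factorization p := by
    rw [Nat.factorization_mul hb0 hal.ne', Finsupp.add_apply, ← hex]
  have hbal : 0 < b * al := Nat.mul_pos (by omega) hal
  have s2 : DS p (G2 p) (be + b * al) = DS p (G2 p) be + DS p (G2 p) (b * al) := by
    have h1 := h p hp (G2 p) be (b * al) ((b * al).factorization p) hbe hbal
      (Nat.ordProj_dvd (b * al) p) (by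
        rw [hv]
        calc be < p ^ be := Nat.lt_pow_self hp.one_lt
          _ ≤ p ^ (be + al.factorization p) := Nat.pow_le_pow_right hp.pos (by omega))
    rw [h1]
    unfold G2
    rw [if_neg, add_zero]
    rw [hv, not_le]
    have h3 : be < p ^ (Nat.log p be + 1) := Nat.lt_pow_succ_log_self hp.one_lt be
    have h4 : p ^ (Nat.log p be + 2) = p ^ (Nat.log p be + 1) * p := pow_succ _ _
    rw [h4]
    nlinarith
  rintro ⟨k1, k2, k3, k4⟩
  unfold c2 at k1 k2 k3 k4
  rw [hma, hmb, hal', hbe'] at k1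
  rw [hm1, hma, e1, hal'] at k2
  rw [hm2, hma, e2, hal'] at k3
  rw [hm3, hma, e3, hal'] at k4
  rw [s1] at k2
  rw [s2] at k4
  omega

end Pool.Agent.Q121.XP_B2
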